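import Pool.Agent.H50.RC.Alp
import Pool.Agent.H50.RC.L3

/-!
S05864 [H83 RC WD]: definitions for PART C3–C6 of proofs 322 (no gaps in this file).

`Wd N` is the local data of one WINDOW, that is of one inner node `Q` of a phase: `D = 2 ^ d` cells `x = 0, …, D - 1`,
weight `W`, exits `ex`, weights `w x c` of the two sides (`c = false`: lower line, `c = true`: upper line), `S x`,
flows `ψ x` on the vertical edges (`1 ≤ x < D`), slopes `ν`, `ν0 x`, `om x`, the vectors `y x c` (lifts of the totals of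
the sub-cells) and `yt x` (their sum at the non-exits). `PTr N` is a whole phase.
-/

set_option autoImplicit false

namespace H50RC

/-- local data of a window -/
structure Wd (N : ℕ) where
  /-- level -/
  lv : ℕ
  /-- the window has `2 ^ d` cells -/
  d : ℕ
  /-- weight -/
  W : ℝ
  /-- exits -/
  ex : Finset ℕ
  /-- `w_c(x)` -/
  w : ℕ → Bool → ℝ
  /-- `S_x` -/
  S : ℕ → ℝ
  ψ : ℕ → Y N
  ν : Om N
  ν0 : ℕ → Om N
  om : ℕ → Om N
  y : ℕ → Bool → Y N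
  yt : ℕ → Y N

namespace Wd

variable {N : ℕ}

/-- `W_x = W / D` -/
noncomputable def Wx (D : Wd N) : ℝ := D.W / 2 ^ D.d

/-- slopes of the two lines -/
def nu (D : Wd N) (x : ℕ) (c : Bool) : Om N := if c then nu1 D.ν0 D.om x else D.ν0 x

/-- `V_Q` -/
noncomputable def V (K : ℕ) (D : Wd N) : ℝ := ∑ x ∈ Finset.Ico 1 (2 ^ D.d), nr K (D.ψ x)

/-- `S_Q` -/
def SE (D : Wd N) : ℝ := ∑ x ∈ D.ex, D.S x

/-- total variation of the weights -/
def TV (D : Wd N) : ℝ := ∑ x ∈ Finset.Ico 1 (2 ^ D.d), |D.w x true - D.w (x - 1) true|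

/-- hypotheses on a window -/
structure OK (K m : ℕ) (D : Wd N) : Prop where
  W_nonneg : 0 ≤ D.W
  W_zero : D.W = 0 → D.ex = Finset.range (2 ^ D.d)
  lv_le : D.lv ≤ D.d
  ex_sub : D.ex ⊆ Finset.range (2 ^ D.d)
  ν_BB : BB K 1 D.ν
  nu_BB : ∀ x, x < 2 ^ D.d → ∀ c, BB K 1 (D.nu x c)
  om_BB : ∀ x, x ≤ 2 ^ D.d → BB K 1 (D.om x)
  om_zero : D.om 0 = 0
  om_last : D.om (2 ^ D.d) = 0
  avg : ((2 : ℝ) ^ D.d) • D.ν = ∑ x ∈ Finset.range (2 ^ D.d), D.ν0 x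
  w_nonneg : ∀ x c, 0 ≤ D.w x c
  w_sum : ∀ x, D.w x false + D.w x true = 1
  S_nonneg : ∀ x, 0 ≤ D.S x
  ψ_mem : ∀ x, 1 ≤ x → x < 2 ^ D.d → D.ψ x ∈ Vs N K
  y_mem : ∀ x, x < 2 ^ D.d → ∀ c, D.y x c ∈ Vs N K
  yt_mem : ∀ x, x < 2 ^ D.d → D.yt x ∈ Vs N K
  rel1 : ∀ x, x + 1 < 2 ^ D.d → D.ψ (x + 1) + D.y x true - D.y (x + 1) true ∈ Xs N K m
  rel0 : ∀ x, x + 1 < 2 ^ D.d → -D.ψ (x + 1) + D.y x false - D.y (x + 1) false ∈ Xs N K m
  yt_rel : ∀ x, x < 2 ^ D.d → D.yt x - (D.y x false + D.y x true) ∈ Xs N K m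
  yt_eq : ∀ x, x < 2 ^ D.d → x ∉ D.ex → D.yt x = D.y x false + D.y x true
  yt_le : ∀ x, x < 2 ^ D.d → nr K (D.yt x) ≤ 4 * D.Wx
  y_le : ∀ x, x < 2 ^ D.d → x ∉ D.ex → ∀ c, nr K (D.y x c) ≤ 4 * (D.Wx * D.w x c)
  y_zero : ∀ x, x < 2 ^ D.d → x ∉ D.ex → ∀ c, D.w x c = 0 → D.y x c = 0
  y_ex : ∀ x ∈ D.ex, nr K (D.y x false) + nr K (D.y x true) ≤ 2 * D.S x
  ex_le : ∀ x ∈ D.ex, 2 * D.Wx ≤ D.S x
  tv_le : D.Wx * D.TV ≤ 3 * D.V K + D.SE

/-- the window term -/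
noncomputable def win (K m : ℕ) (D : Wd N) : ℝ :=
  ∑ x ∈ Finset.range (2 ^ D.d), (pr K m (D.nu x false) (D.y x false) + pr K m (D.nu x true) (D.y x true)) +
    ∑ x ∈ Finset.Ico 1 (2 ^ D.d), pr K m (D.om x) (D.ψ x) -
    pr K m D.ν (∑ x ∈ Finset.range (2 ^ D.d), D.yt x)

/-- normalised vectors `φ_x = y^tot_x / W_x` -/
noncomputable def ph (D : Wd N) (x : ℕ) : Y N := D.Wx⁻¹ • D.yt x

/-- normalised vectors `φ_(x,c) = y^c_x / W_(x,c)` -/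
noncomputable def phc (D : Wd N) (x : ℕ) (c : Bool) : Y N := (D.Wx * D.w x c)⁻¹ • D.y x c

end Wd

/-- phase trees -/
inductive PTr (N : ℕ) : Type
  | leaf (lv : ℕ) (W : ℝ) (ν : Om N) (y : Y N) : PTr N
  | node (D : Wd N) (sub : ℕ → Bool → PTr N) : PTr N

namespace PTr

variable {N : ℕ}

/-- level of the root -/
def lv : PTr N → ℕ
  | .leaf i _ _ _ => i
  | .node D _ => D.lv

/-- weight of the root -/
def W : PTr N → ℝ
  | .leaf _ W _ _ => W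
  | .node D _ => D.W

/-- slope of the root -/
def ν : PTr N → Om N
  | .leaf _ _ ν _ => ν
  | .node D _ => D.ν

/-- the phase lift -/
def val : PTr N → Y N
  | .leaf _ _ _ y => y
  | .node D _ => ∑ x ∈ Finset.range (2 ^ D.d), D.yt x

/-- hypotheses on a phase -/
def OK (K m : ℕ) : PTr N → Prop
  | .leaf _ W ν y => 0 < W ∧ BB K 1 ν ∧ y ∈ Vs N K ∧ nr K y ≤ 4 * W
  | .node D sub => D.OK K m ∧ ∀ x, x < 2 ^ D.d → x ∉ D.ex → ∀ c, D.w x c ≠ 0 →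
      (sub x c).OK K m ∧ (sub x c).lv = D.lv + 1 ∧ (sub x c).W = D.Wx * D.w x c ∧ (sub x c).ν = D.nu x c ∧
        (sub x c).val = D.y x c

/-- sum of a quantity over the windows of the phase -/
noncomputable def sum (f : Wd N → ℝ) : PTr N → ℝ
  | .leaf _ _ _ _ => 0
  | .node D sub => f D + ∑ x ∈ Finset.range (2 ^ D.d) \ D.ex,
      ((if D.w x false = 0 then 0 else (sub x false).sum f) + (if D.w x true = 0 then 0 else (sub x true).sum f))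

end PTr

end H50RC
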