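import Mathlib

/-!
S05864 [H83 RC AV] (PART C4 of proofs 322): averages over dyadic intervals. MATHLIB ONLY.

`av f j i` is the average of `f` over `[i 2^j, (i+1) 2^j)`, `hd f j i = (av f j (2i+1) - av f j (2i)) / 2` (half difference of the two halves of the
interval `(j+1, i)`), `dy F j i` = sum of `|I| F(I)` over the dyadic sub-intervals `I` of `(j, i)` with at least two elements.

PROOFS. `av_succ`: `Finset.sum_range_add`/`Finset.sum_range_succ` splitting `range (2^(j+1)) = range (2^j + 2^j)` (`Finset.sum_range_add` : `∑ x ∈ range (n+m), f x =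
∑ x ∈ range n, f x + ∑ x ∈ range m, f (n + x)`), `i * 2^(j+1) + x = (2i) 2^j + x` and `i * 2^(j+1) + (2^j + x) = (2i+1) 2^j + x`.
`av_lo`, `av_hi`: from `av_succ` and the definition of `hd` (`module`).
`dy_identity`: induction on `j` for all `i`. `j = 0`: `f i - av f 0 i = 0`. Step: split the sum into the two halves; on the lower half `f - av (j+1) i = (f - av j (2i)) - hd`
(`av_lo`), on the upper half `= (f - av j (2i+1)) + hd`. By the induction hypothesis the sum is `dy j (2i) + dy j (2i+1) - B (hd f) (∑ lower g) + B (hd f) (∑ upper g)`, and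
`∑ upper g - ∑ lower g = 2^j (av g j (2i+1) - av g j (2i)) = 2^(j+1) hd g j i`.
`norm_av_le` type statements (`av_le`): for a function `p : E → ℝ` that is subadditive and homogeneous (`p (c • y) = |c| p y`).
-/

set_option autoImplicit false

namespace H50RC

variable {E F : Type} [AddCommGroup E] [Module ℝ E] [AddCommGroup F] [Module ℝ F]

/-- average over the dyadic interval `[i 2^j, (i+1) 2^j)` -/
noncomputable def av (f : ℕ → E) (j i : ℕ) : E :=
  ((2 : ℝ) ^ j)⁻¹ • ∑ x ∈ Finset.range (2 ^ j), f (i * 2 ^ j + x)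

/-- half difference of the two halves of the interval `(j + 1, i)` -/
noncomputable def hd (f : ℕ → E) (j i : ℕ) : E := (2 : ℝ)⁻¹ • (av f j (2 * i + 1) - av f j (2 * i))

/-- `∑ |I| F(I)` over the dyadic sub-intervals `I` of `(j, i)`; `F j' i'` belongs to the interval `(j' + 1, i')` -/
noncomputable def dy (G : ℕ → ℕ → ℝ) : ℕ → ℕ → ℝ
  | 0, _ => 0
  | j + 1, i => 2 ^ (j + 1) * G j i + (dy G j (2 * i) + dy G j (2 * i + 1))

theorem av_zero (f : ℕ → E) (i : ℕ) : av f 0 i = f i := by
  simp [av]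

private theorem sum_split {M : Type} [AddCommMonoid M] (f : ℕ → M) (j i : ℕ) :
    ∑ x ∈ Finset.range (2 ^ (j + 1)), f (i * 2 ^ (j + 1) + x) =
      ∑ x ∈ Finset.range (2 ^ j), f (2 * i * 2 ^ j + x) +
        ∑ x ∈ Finset.range (2 ^ j), f ((2 * i + 1) * 2 ^ j + x) := by
  have e : 2 ^ (j + 1) = 2 ^ j + 2 ^ j := by ring
  rw [e, Finset.sum_range_add]
  congr 1
  · refine Finset.sum_congr rfl fun x _ => ?_
    congr 1
    ring
  · refine Finset.sum_congr rfl fun x _ => ?_
    congr 1
    ring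

theorem av_succ (f : ℕ → E) (j i : ℕ) : av f (j + 1) i = (2 : ℝ)⁻¹ • (av f j (2 * i) + av f j (2 * i + 1)) := by
  unfold av
  rw [sum_split, ← smul_add, smul_smul]
  congr 1
  rw [pow_succ, mul_inv, mul_comm]

theorem av_lo (f : ℕ → E) (j i : ℕ) : av f j (2 * i) = av f (j + 1) i - hd f j i := by
  rw [av_succ, hd]
  module

theorem av_hi (f : ℕ → E) (j i : ℕ) : av f j (2 * i + 1) = av f (j + 1) i + hd f j i := by
  rw [av_succ, hd]
  module

theorem av_add (f g : ℕ → E) (j i : ℕ) : av (fun x => f x + g x) j i = av f j i + av g j i := by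
  unfold av
  rw [Finset.sum_add_distrib, smul_add]

theorem av_sub (f g : ℕ → E) (j i : ℕ) : av (fun x => f x - g x) j i = av f j i - av g j i := by
  unfold av
  rw [Finset.sum_sub_distrib, smul_sub]

theorem av_smul (c : ℝ) (f : ℕ → E) (j i : ℕ) : av (fun x => c • f x) j i = c • av f j i := by
  unfold av
  rw [← Finset.smul_sum, smul_comm]

/-- orthogonality of the Haar functions -/
theorem dy_identity (B : E →ₗ[ℝ] F →ₗ[ℝ] ℝ) (f : ℕ → E) (g : ℕ → F) (j i : ℕ) :
    ∑ x ∈ Finset.range (2 ^ j), B (f (i * 2 ^ j + x) - av f j i) (g (i * 2 ^ j + x)) =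
      dy (fun j i => B (hd f j i) (hd g j i)) j i := by
  induction j generalizing i with
  | zero => simp [dy, av_zero]
  | succ j ih =>
    rw [sum_split (fun x => B (f x - av f (j + 1) i) (g x)) j i]
    have hlo : ∑ x ∈ Finset.range (2 ^ j), B (f (2 * i * 2 ^ j + x) - av f (j + 1) i)
        (g (2 * i * 2 ^ j + x)) = dy (fun j i => B (hd f j i) (hd g j i)) j (2 * i) -
        B (hd f j i) (∑ x ∈ Finset.range (2 ^ j), g (2 * i * 2 ^ j + x)) := by
      rw [← ih (2 * i), map_sum, ← Finset.sum_sub_distrib]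
      refine Finset.sum_congr rfl fun x _ => ?_
      rw [← LinearMap.sub_apply, ← map_sub]
      congr 2
      rw [av_lo]
      abel
    have hhi : ∑ x ∈ Finset.range (2 ^ j), B (f ((2 * i + 1) * 2 ^ j + x) - av f (j + 1) i)
        (g ((2 * i + 1) * 2 ^ j + x)) = dy (fun j i => B (hd f j i) (hd g j i)) j (2 * i + 1) +
        B (hd f j i) (∑ x ∈ Finset.range (2 ^ j), g ((2 * i + 1) * 2 ^ j + x)) := by
      rw [← ih (2 * i + 1), map_sum, ← Finset.sum_add_distrib]
      refine Finset.sum_congr rfl fun x _ => ?_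
      rw [← LinearMap.add_apply, ← map_add]
      congr 2
      rw [av_hi]
      abel
    have hg : (2 : ℝ) ^ (j + 1) • hd g j i =
        ∑ x ∈ Finset.range (2 ^ j), g ((2 * i + 1) * 2 ^ j + x) -
          ∑ x ∈ Finset.range (2 ^ j), g (2 * i * 2 ^ j + x) := by
      unfold hd av
      rw [← smul_sub, smul_smul, smul_smul]
      have h2 : ((2 : ℝ) ^ (j + 1) * (2 : ℝ)⁻¹) * ((2 : ℝ) ^ j)⁻¹ = 1 := by
        have h0 : (2 : ℝ) ^ j ≠ 0 := pow_ne_zero _ two_ne_zero
        rw [pow_succ]
        field_simp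
      rw [h2, one_smul]
    have hB : (2 : ℝ) ^ (j + 1) * B (hd f j i) (hd g j i) =
        B (hd f j i) (∑ x ∈ Finset.range (2 ^ j), g ((2 * i + 1) * 2 ^ j + x)) -
          B (hd f j i) (∑ x ∈ Finset.range (2 ^ j), g (2 * i * 2 ^ j + x)) := by
      rw [← map_sub, ← hg, map_smul, smul_eq_mul]
    rw [hlo, hhi]
    simp only [dy]
    rw [hB]
    ring

theorem dy_nonneg {G : ℕ → ℕ → ℝ} (h : ∀ j i, 0 ≤ G j i) (j i : ℕ) : 0 ≤ dy G j i := by
  induction j generalizing i with
  | zero => exact le_rfl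
  | succ j ih =>
    have h1 := ih (2 * i)
    have h2 := ih (2 * i + 1)
    have h3 := h j i
    simp only [dy]
    positivity

theorem dy_mono {G G' : ℕ → ℕ → ℝ} (h : ∀ j i, G j i ≤ G' j i) (j i : ℕ) : dy G j i ≤ dy G' j i := by
  induction j generalizing i with
  | zero => exact le_rfl
  | succ j ih =>
    simp only [dy]
    exact add_le_add (mul_le_mul_of_nonneg_left (h j i) (by positivity))
      (add_le_add (ih (2 * i)) (ih (2 * i + 1)))

theorem abs_dy_le (G : ℕ → ℕ → ℝ) (j i : ℕ) : |dy G j i| ≤ dy (fun j i => |G j i|) j i := by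
  induction j generalizing i with
  | zero => simp [dy]
  | succ j ih =>
    simp only [dy]
    refine (abs_add_le _ _).trans (add_le_add ?_ ((abs_add_le _ _).trans
      (add_le_add (ih (2 * i)) (ih (2 * i + 1)))))
    rw [abs_mul, abs_of_nonneg (by positivity : (0 : ℝ) ≤ 2 ^ (j + 1))]

theorem dy_add (G G' : ℕ → ℕ → ℝ) (j i : ℕ) : dy (fun j i => G j i + G' j i) j i = dy G j i + dy G' j i := by
  induction j generalizing i with
  | zero => simp [dy]
  | succ j ih =>
    simp only [dy]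
    rw [ih, ih]
    ring

theorem dy_mul (c : ℝ) (G : ℕ → ℕ → ℝ) (j i : ℕ) : dy (fun j i => c * G j i) j i = c * dy G j i := by
  induction j generalizing i with
  | zero => simp [dy]
  | succ j ih =>
    simp only [dy]
    rw [ih, ih]
    ring

/-- a seminorm of an average -/
theorem av_le {p : E → ℝ} (h1 : ∀ y z, p (y + z) ≤ p y + p z) (h2 : ∀ (c : ℝ) y, p (c • y) = |c| * p y)
    {f : ℕ → E} {j i : ℕ} {c : ℝ} (h : ∀ x, i * 2 ^ j ≤ x → x < (i + 1) * 2 ^ j → p (f x) ≤ c) : p (av f j i) ≤ c := by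
  have h0 : p 0 = 0 := by
    have := h2 0 0
    rwa [zero_smul, abs_zero, zero_mul] at this
  have hpos : (0 : ℝ) < 2 ^ j := by positivity
  unfold av
  rw [h2, abs_of_pos (inv_pos.2 hpos), inv_mul_le_iff₀ hpos]
  refine (Finset.le_sum_of_subadditive p h0.le h1 _ _).trans ?_
  refine (Finset.sum_le_sum (g := fun _ => c) fun x hx => ?_).trans (le_of_eq ?_)
  · rw [Finset.mem_range] at hx
    refine h _ (Nat.le_add_right _ _) ?_
    rw [add_mul, one_mul]
    omega
  · rw [Finset.sum_const, Finset.card_range, nsmul_eq_mul]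
    push_cast
    ring

/-- averages stay in a subspace -/
theorem av_mem (S : Submodule ℝ E) {f : ℕ → E} {j i : ℕ} (h : ∀ x, i * 2 ^ j ≤ x → x < (i + 1) * 2 ^ j → f x ∈ S) :
    av f j i ∈ S := by
  unfold av
  refine S.smul_mem _ (S.sum_mem fun x hx => ?_)
  rw [Finset.mem_range] at hx
  refine h _ (Nat.le_add_right _ _) ?_
  rw [add_mul, one_mul]
  omega

/-- half differences are in a subspace if the differences are -/
theorem hd_mem (S : Submodule ℝ E) {f : ℕ → E} {j i n : ℕ} (h : ∀ x y, x < n → y < n → f x - f y ∈ S)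
    (hn : (i + 1) * 2 ^ (j + 1) ≤ n) : hd f j i ∈ S := by
  unfold hd av
  rw [← smul_sub, ← Finset.sum_sub_distrib]
  refine S.smul_mem _ (S.smul_mem _ (S.sum_mem fun x hx => ?_))
  rw [Finset.mem_range] at hx
  have e1 : (i + 1) * 2 ^ (j + 1) = 2 * i * 2 ^ j + 2 * 2 ^ j := by ring
  have e2 : (2 * i + 1) * 2 ^ j = 2 * i * 2 ^ j + 2 ^ j := by ring
  refine h _ _ ?_ ?_
  · rw [e2]
    omega
  · omega

end H50RC
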