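import Pool.Agent.H50.RC.Nrm
import Pool.Agent.H83.RC.Av

/-!
S05864 [H83 RC LQ] (PART C5 of proofs 322): the `ℓ_2` norm of functions of the nodes.

`nq K a = ∑_{w ∈ nds N K} a(w)²`, `ip K a b = ∑ a(w) b(w)`. Everything is elementary and coordinatewise: `(a+b)² ≤ 2a²+2b²`, `(a+b+c)² ≤ 3(a²+b²+c²)`,
`nq_av_le` (Jensen): `(∑_{x<n} a_x / n)² ≤ ∑ a_x²/n` (`inner_mul_le_norm_mul_norm` or `Finset.sum_div_card_le`, `sq_sum_le_card_mul_sum_sq`);
`nq_le`: `BB.sq_le` with `c = 1`. `abs_ip_le`: Cauchy–Schwarz (`Finset.sum_mul_sq_le_sq_mul_sq`), in the form `|ip a b| ≤ √(nq a) √(nq b)`, and `≤ K` if both are `≤ K`.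
`var_eq`: `dy_identity` for the bilinear form `ip` (linear maps: `LinearMap.mk₂`) with `f = g = a`, and `∑ ip (a_x - av) a_x = ∑ nq (a_x - av)` since `∑ (a_x - av) = 0`.
`var_add_le`: `a_x + b_x - av(a+b) = (a_x - av a) + (b_x - av b)`, `nq(u+v) ≤ 2 nq u + 2 nq v`, and `∑ nq (b_x - av b) ≤ ∑ nq b_x`
(`∑ nq(b_x - av b) = ∑ nq b_x - 2^j nq(av b)`).
-/

set_option autoImplicit false

namespace H50RC

variable {N K : ℕ}

/-- square of the `ℓ_2` norm -/
noncomputable def nq (K : ℕ) {N : ℕ} (a : Om N) : ℝ := ∑ w ∈ nds N K, a w ^ 2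

/-- inner product -/
noncomputable def ip (K : ℕ) {N : ℕ} (a b : Om N) : ℝ := ∑ w ∈ nds N K, a w * b w

theorem nq_nonneg (a : Om N) : 0 ≤ nq K a := Finset.sum_nonneg fun _ _ => sq_nonneg _

theorem nq_zero : nq K (0 : Om N) = 0 := by
  simp [nq]

theorem ip_self (a : Om N) : ip K a a = nq K a := by
  unfold ip nq
  exact Finset.sum_congr rfl fun w _ => (sq (a w)).symm

theorem nq_smul (c : ℝ) (a : Om N) : nq K (c • a) = c ^ 2 * nq K a := by
  unfold nq
  rw [Finset.mul_sum]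
  refine Finset.sum_congr rfl fun w _ => ?_
  rw [Pi.smul_apply, smul_eq_mul, mul_pow]

theorem nq_neg (a : Om N) : nq K (-a) = nq K a := by
  unfold nq
  refine Finset.sum_congr rfl fun w _ => ?_
  rw [Pi.neg_apply, neg_sq]

theorem nq_sub_comm (a b : Om N) : nq K (a - b) = nq K (b - a) := by
  rw [← nq_neg, neg_sub]

theorem nq_add_le (a b : Om N) : nq K (a + b) ≤ 2 * nq K a + 2 * nq K b := by
  unfold nq
  rw [Finset.mul_sum, Finset.mul_sum, ← Finset.sum_add_distrib]
  refine Finset.sum_le_sum fun w _ => ?_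
  rw [Pi.add_apply]
  nlinarith [sq_nonneg (a w - b w)]

theorem nq_sub_le (a b : Om N) : nq K (a - b) ≤ 2 * nq K a + 2 * nq K b := by
  rw [sub_eq_add_neg, ← nq_neg b]
  exact nq_add_le _ _

theorem nq_add3_le (a b c : Om N) : nq K (a + b + c) ≤ 3 * (nq K a + nq K b + nq K c) := by
  unfold nq
  rw [← Finset.sum_add_distrib, ← Finset.sum_add_distrib, Finset.mul_sum]
  refine Finset.sum_le_sum fun w _ => ?_
  rw [Pi.add_apply, Pi.add_apply]
  nlinarith [sq_nonneg (a w - b w), sq_nonneg (a w - c w), sq_nonneg (b w - c w)]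

/-- polarisation -/
theorem nq_add_eq (a b : Om N) : nq K (a + b) = nq K a + 2 * ip K a b + nq K b := by
  unfold nq ip
  rw [Finset.mul_sum, ← Finset.sum_add_distrib, ← Finset.sum_add_distrib]
  refine Finset.sum_congr rfl fun w _ => ?_
  rw [Pi.add_apply]
  ring

theorem ip_add_left (a a' b : Om N) : ip K (a + a') b = ip K a b + ip K a' b := by
  unfold ip
  rw [← Finset.sum_add_distrib]
  refine Finset.sum_congr rfl fun w _ => ?_
  rw [Pi.add_apply]
  ring

theorem ip_smul_left (c : ℝ) (a b : Om N) : ip K (c • a) b = c * ip K a b := by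
  unfold ip
  rw [Finset.mul_sum]
  refine Finset.sum_congr rfl fun w _ => ?_
  rw [Pi.smul_apply, smul_eq_mul]
  ring

theorem ip_comm (a b : Om N) : ip K a b = ip K b a := by
  unfold ip
  exact Finset.sum_congr rfl fun w _ => mul_comm _ _

theorem ip_sum_left {ι : Type} (s : Finset ι) (f : ι → Om N) (b : Om N) :
    ip K (∑ i ∈ s, f i) b = ∑ i ∈ s, ip K (f i) b := by
  classical
  induction s using Finset.induction_on with
  | empty => simp [ip]
  | insert a s ha ih =>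
    rw [Finset.sum_insert ha, Finset.sum_insert ha, ip_add_left, ih]

theorem abs_ip_le {a b : Om N} {r : ℝ} (ha : nq K a ≤ r) (hb : nq K b ≤ r) : |ip K a b| ≤ r := by
  have h0 : 0 ≤ r := (nq_nonneg a).trans ha
  have h1 : ip K a b ^ 2 ≤ nq K a * nq K b := Finset.sum_mul_sq_le_sq_mul_sq _ _ _
  have h2 : nq K a * nq K b ≤ r * r := mul_le_mul ha hb (nq_nonneg b) h0
  exact abs_le_of_sq_le_sq (by rw [sq r]; exact h1.trans h2) h0

theorem nq_le {a : Om N} (h : BB K 1 a) : nq K a ≤ K := by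
  have h1 := h.sq_le
  rwa [one_pow, one_mul] at h1

theorem nq_le2 {a : Om N} (h : BB K 2 a) : nq K a ≤ 4 * K := by
  have h1 := h.sq_le
  have h2 : (2 : ℝ) ^ 2 * K = 4 * K := by norm_num
  rw [h2] at h1
  exact h1

/-- Jensen -/
theorem nq_sum_le {ι : Type} (s : Finset ι) (f : ι → Om N) : nq K (∑ i ∈ s, f i) ≤ s.card * ∑ i ∈ s, nq K (f i) := by
  unfold nq
  rw [Finset.sum_comm, Finset.mul_sum]
  refine Finset.sum_le_sum fun w _ => ?_
  rw [Finset.sum_apply]
  exact sq_sum_le_card_mul_sum_sq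

private theorem sum_sub_av (a : ℕ → Om N) (j i : ℕ) :
    ∑ x ∈ Finset.range (2 ^ j), (a (i * 2 ^ j + x) - av a j i) = 0 := by
  rw [Finset.sum_sub_distrib, Finset.sum_const, Finset.card_range, av, ← Nat.cast_smul_eq_nsmul ℝ,
    smul_smul]
  push_cast
  rw [mul_inv_cancel₀ (by positivity), one_smul, sub_self]

private noncomputable def ipB (K N : ℕ) : Om N →ₗ[ℝ] Om N →ₗ[ℝ] ℝ :=
  LinearMap.mk₂ ℝ (fun a b => ip K a b) (fun a a' b => ip_add_left a a' b)
    (fun c a b => by rw [ip_smul_left, smul_eq_mul])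
    (fun a b b' => by rw [ip_comm, ip_add_left, ip_comm b, ip_comm b'])
    (fun c a b => by rw [ip_comm, ip_smul_left, smul_eq_mul, ip_comm])

private theorem ipB_apply (a b : Om N) : ipB K N a b = ip K a b := rfl

private theorem sum_ip_av (a : ℕ → Om N) (j i : ℕ) (v : Om N) :
    ∑ x ∈ Finset.range (2 ^ j), ip K (a (i * 2 ^ j + x) - av a j i) v = 0 := by
  rw [← ip_sum_left, sum_sub_av]
  simp [ip]

/-- `∑_{x ∈ I} |a_x - av a|² = ∑ |I'| |hd a(I')|²` -/
theorem var_eq (a : ℕ → Om N) (j i : ℕ) :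
    ∑ x ∈ Finset.range (2 ^ j), nq K (a (i * 2 ^ j + x) - av a j i) = dy (fun j i => nq K (hd a j i)) j i := by
  have h1 := dy_identity (ipB K N) a a j i
  simp only [ipB_apply, ip_self] at h1
  rw [← h1]
  have h2 : ∀ x, nq K (a (i * 2 ^ j + x) - av a j i) =
      ip K (a (i * 2 ^ j + x) - av a j i) (a (i * 2 ^ j + x)) -
        ip K (a (i * 2 ^ j + x) - av a j i) (av a j i) := by
    intro x
    rw [← ip_self]
    unfold ip
    rw [← Finset.sum_sub_distrib]
    refine Finset.sum_congr rfl fun w _ => ?_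
    rw [Pi.sub_apply]
    ring
  rw [Finset.sum_congr rfl fun x _ => h2 x, Finset.sum_sub_distrib, sum_ip_av, sub_zero]

theorem sum_nq_eq (a : ℕ → Om N) (j : ℕ) :
    ∑ x ∈ Finset.range (2 ^ j), nq K (a x) =
      ∑ x ∈ Finset.range (2 ^ j), nq K (a x - av a j 0) + 2 ^ j * nq K (av a j 0) := by
  have h0 : ∀ x, a x = (a (0 * 2 ^ j + x) - av a j 0) + av a j 0 := by
    intro x
    rw [Nat.zero_mul, Nat.zero_add, sub_add_cancel]
  have h1 : ∀ x, nq K (a x) = nq K (a (0 * 2 ^ j + x) - av a j 0) +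
      2 * ip K (a (0 * 2 ^ j + x) - av a j 0) (av a j 0) + nq K (av a j 0) := by
    intro x
    rw [← nq_add_eq, ← h0 x]
  rw [Finset.sum_congr rfl fun x _ => h1 x, Finset.sum_add_distrib, Finset.sum_add_distrib,
    ← Finset.mul_sum, sum_ip_av, Finset.sum_const, Finset.card_range, nsmul_eq_mul]
  simp only [Nat.zero_mul, Nat.zero_add]
  push_cast
  ring

theorem var_add_le (a b : ℕ → Om N) (j : ℕ) :
    dy (fun j i => nq K (hd (fun x => a x + b x) j i)) j 0 ≤
      2 * dy (fun j i => nq K (hd a j i)) j 0 + 2 * ∑ x ∈ Finset.range (2 ^ j), nq K (b x) := by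
  have h1 := var_eq (K := K) (fun x => a x + b x) j 0
  have h2 := var_eq (K := K) a j 0
  simp only [Nat.zero_mul, Nat.zero_add] at h1 h2
  rw [← h1, ← h2]
  have h3 := sum_nq_eq (K := K) b j
  have h4 : 0 ≤ 2 ^ j * nq K (av b j 0) := mul_nonneg (by positivity) (nq_nonneg _)
  have h5 : ∑ x ∈ Finset.range (2 ^ j), nq K (a x + b x - av (fun x => a x + b x) j 0) ≤
      ∑ x ∈ Finset.range (2 ^ j), (2 * nq K (a x - av a j 0) + 2 * nq K (b x - av b j 0)) := by
    refine Finset.sum_le_sum fun x _ => ?_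
    have h6 : a x + b x - av (fun x => a x + b x) j 0 = (a x - av a j 0) + (b x - av b j 0) := by
      rw [av_add]
      abel
    rw [h6]
    exact nq_add_le _ _
  rw [Finset.sum_add_distrib, ← Finset.mul_sum, ← Finset.mul_sum] at h5
  linarith

/-- weighted mean of two vectors: `w |a|² + w' |b|² = |w a + w' b|² + w w' |b - a|²` for `w + w' = 1` -/
theorem nq_two (a b : Om N) {w w' : ℝ} (h : w + w' = 1) :
    w * nq K a + w' * nq K b = nq K (w • a + w' • b) + w * w' * nq K (b - a) := by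
  unfold nq
  rw [Finset.mul_sum, Finset.mul_sum, Finset.mul_sum, ← Finset.sum_add_distrib,
    ← Finset.sum_add_distrib]
  refine Finset.sum_congr rfl fun v _ => ?_
  rw [Pi.add_apply, Pi.smul_apply, Pi.smul_apply, Pi.sub_apply, smul_eq_mul, smul_eq_mul]
  have hw : w' = 1 - w := by linarith
  rw [hw]
  ring

end H50RC
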