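import Pool.Agent.H83.RC.Rdef

/-!
S05864 [H83 RC REF] (PART C4 of proofs 322): elementary facts about a window and the reference slopes.

`Wx = W / 2^d`. `ph_eq`: at a non-exit `yt x = y x false + y x true` and `y x c = (Wx w_c) • phc x c` (if `w_c = 0` both sides are `0` by `y_zero`; if `w_c ≠ 0` and `Wx ≠ 0` cancel).
`nr_ph_le`: `nr (Wx⁻¹ • yt) = Wx⁻¹ nr yt ≤ 4`. `nr_phc_le`: `y_le`, for `w_c = 0` the vector is `0`. `phI`: convex combination (`nr_sum_le`, `nr_smul`), and if the sum of the weights is `0`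
then the factor is `0⁻¹ = 0`.
`ph_sub_mem`: `yt x - yt x' ∈ Xs`: enough for `x' = x + 1` (induction on the distance): `yt x - Y x`, `Y x - Y (x+1) = rel1 + rel0`, `Y (x+1) - yt (x+1)`, where `Y x = y x false + y x true`.
`Xi_mem`: `rel1`, `rel0` at `x - 1`. `rho_zero`, `rho_last`: `omc_mul`, `omf_mul` at the multiples `0`, `2^d` of `2^j`, `om_zero`, `om_last`.
`sum_nuref`: the differences of `rho` telescope to `0`. `av_nuref`: `(2^d)⁻¹ • 2^d • ν = ν`. `nuref_BB`: `BB.add`: `ν0 : 1`, `rho : w_1 ω^co + r ω^fi : 1 + 2`, so `1 + 3 + 3 = 7 ≤ 8` (for `x < 2^d`, `x + 1 ≤ 2^d`;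
`BB.smul` with `|w_1| ≤ 1`, `|r| ≤ 1`). `sum_ne_le`: sums over the cells split into exits and non-exits.
`phI_eq`: if `x` is in the interval with `w_s(x) ≠ 0` then the sum of the weights is positive, `(∑ w) • phI = ∑ w • phc`.
-/

set_option autoImplicit false

namespace H50RC

namespace Wd

variable {N K m : ℕ} {D : Wd N}

theorem Wx_nonneg (h : D.OK K m) : 0 ≤ D.Wx := by
  exact div_nonneg h.W_nonneg (by positivity)

theorem Wx_pos (hW : 0 < D.W) : 0 < D.Wx := by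
  exact div_pos hW (by positivity)

theorem sum_Wx (D : Wd N) : (2 : ℝ) ^ D.d * D.Wx = D.W := by
  unfold Wx
  have h1 : (2 : ℝ) ^ D.d ≠ 0 := by positivity
  field_simp

theorem w_le_one (h : D.OK K m) (x : ℕ) (c : Bool) : D.w x c ≤ 1 := by
  have h1 := h.w_sum x
  have h2 := h.w_nonneg x false
  have h3 := h.w_nonneg x true
  cases c <;> linarith

theorem V_nonneg (D : Wd N) : 0 ≤ D.V K := Finset.sum_nonneg fun _ _ => nr_nonneg _

theorem SE_nonneg (h : D.OK K m) : 0 ≤ D.SE := by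
  exact Finset.sum_nonneg fun x _ => h.S_nonneg x

theorem TV_nonneg (D : Wd N) : 0 ≤ D.TV := Finset.sum_nonneg fun _ _ => abs_nonneg _

theorem y_eq (h : D.OK K m) (hW : 0 < D.W) {x : ℕ} (hx : x ∈ D.ne) (c : Bool) :
    D.y x c = (D.Wx * D.w x c) • D.phc x c := by
  obtain ⟨h1, h2⟩ := Finset.mem_sdiff.1 hx
  unfold phc
  by_cases h0 : D.w x c = 0
  · rw [h.y_zero x (Finset.mem_range.1 h1) h2 c h0, smul_zero, smul_zero]
  · rw [smul_smul, mul_inv_cancel₀ (mul_ne_zero (Wx_pos hW).ne' h0), one_smul]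

theorem yt_eq' (hW : 0 < D.W) (x : ℕ) : D.yt x = D.Wx • D.ph x := by
  unfold ph
  rw [smul_smul, mul_inv_cancel₀ (Wx_pos hW).ne', one_smul]

theorem ph_eq (h : D.OK K m) (hW : 0 < D.W) {x : ℕ} (hx : x ∈ D.ne) :
    D.ph x = D.w x false • D.phc x false + D.w x true • D.phc x true := by
  obtain ⟨h1, h2⟩ := Finset.mem_sdiff.1 hx
  unfold ph
  rw [h.yt_eq x (Finset.mem_range.1 h1) h2, y_eq h hW hx false, y_eq h hW hx true, smul_add, smul_smul, smul_smul,
    ← mul_assoc, ← mul_assoc, inv_mul_cancel₀ (Wx_pos hW).ne', one_mul, one_mul]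

theorem nr_ph_le (h : D.OK K m) (hW : 0 < D.W) {x : ℕ} (hx : x < 2 ^ D.d) : nr K (D.ph x) ≤ 4 := by
  unfold ph
  have h2 := Wx_pos hW
  rw [nr_smul, abs_of_nonneg (inv_nonneg.2 h2.le), inv_mul_le_iff₀ h2]
  linarith [h.yt_le x hx]

theorem ph_mem (h : D.OK K m) {x : ℕ} (hx : x < 2 ^ D.d) : D.ph x ∈ Vs N K := by
  exact Submodule.smul_mem _ _ (h.yt_mem x hx)

theorem nr_phc_le (h : D.OK K m) (hW : 0 < D.W) {x : ℕ} (hx : x ∈ D.ne) (c : Bool) : nr K (D.phc x c) ≤ 4 := by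
  obtain ⟨h1, h2⟩ := Finset.mem_sdiff.1 hx
  unfold phc
  by_cases h0 : D.w x c = 0
  · rw [h0, mul_zero, inv_zero, zero_smul, nr_zero]
    norm_num
  · have h3 : 0 < D.Wx * D.w x c := mul_pos (Wx_pos hW) (lt_of_le_of_ne (h.w_nonneg x c) (Ne.symm h0))
    rw [nr_smul, abs_of_nonneg (inv_nonneg.2 h3.le), inv_mul_le_iff₀ h3]
    linarith [h.y_le x (Finset.mem_range.1 h1) h2 c]

theorem phc_mem (h : D.OK K m) {x : ℕ} (hx : x < 2 ^ D.d) (c : Bool) : D.phc x c ∈ Vs N K := by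
  exact Submodule.smul_mem _ _ (h.y_mem x hx c)

theorem nr_phI_le (h : D.OK K m) (hW : 0 < D.W) (j a : ℕ) : nr K (D.phI j a) ≤ 4 := by
  unfold phI
  have hs : 0 ≤ ∑ x ∈ D.Iv j a, D.w x (sid D.w a) := Finset.sum_nonneg fun x _ => h.w_nonneg _ _
  rcases hs.eq_or_lt with h0 | h0
  · rw [← h0, inv_zero, zero_smul, nr_zero]
    norm_num
  · rw [nr_smul, abs_of_nonneg (inv_nonneg.2 hs), inv_mul_le_iff₀ h0, Finset.sum_mul]
    refine (nr_sum_le _ _).trans (Finset.sum_le_sum fun x hx => ?_)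
    rw [nr_smul, abs_of_nonneg (h.w_nonneg _ _)]
    exact mul_le_mul_of_nonneg_left (nr_phc_le h hW (Finset.mem_filter.1 hx).1 _) (h.w_nonneg _ _)

theorem phI_mem (h : D.OK K m) (j a : ℕ) : D.phI j a ∈ Vs N K := by
  unfold phI
  refine Submodule.smul_mem _ _ (Submodule.sum_mem _ fun x hx => Submodule.smul_mem _ _ (phc_mem h ?_ _))
  exact Finset.mem_range.1 (Finset.mem_sdiff.1 (Finset.mem_filter.1 hx).1).1

theorem phI_eq (h : D.OK K m) (j a : ℕ) :
    (∑ x ∈ D.Iv j a, D.w x (sid D.w a)) • D.phI j a = ∑ x ∈ D.Iv j a, D.w x (sid D.w a) • D.phc x (sid D.w a) := by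
  unfold phI
  rcases eq_or_ne (∑ x ∈ D.Iv j a, D.w x (sid D.w a)) 0 with h0 | h0
  · rw [h0, zero_smul]
    symm
    refine Finset.sum_eq_zero fun x hx => ?_
    rw [(Finset.sum_eq_zero_iff_of_nonneg fun x _ => h.w_nonneg _ _).1 h0 x hx, zero_smul]
  · rw [smul_smul, mul_inv_cancel₀ h0, one_smul]

theorem ph_sub_mem (h : D.OK K m) {x x' : ℕ} (hx : x < 2 ^ D.d) (hx' : x' < 2 ^ D.d) : D.ph x - D.ph x' ∈ Xs N K m := by
  have hst : ∀ x, x + 1 < 2 ^ D.d → D.yt x - D.yt (x + 1) ∈ Xs N K m := by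
    intro x hx
    have a1 := h.yt_rel x (by omega)
    have a2 := h.yt_rel (x + 1) hx
    have a3 := h.rel1 x hx
    have a4 := h.rel0 x hx
    have a5 := Submodule.sub_mem _ (Submodule.add_mem _ a1 (Submodule.add_mem _ a3 a4)) a2
    have e : D.yt x - D.yt (x + 1) = (D.yt x - (D.y x false + D.y x true)) +
        ((D.ψ (x + 1) + D.y x true - D.y (x + 1) true) + (-D.ψ (x + 1) + D.y x false - D.y (x + 1) false)) -
          (D.yt (x + 1) - (D.y (x + 1) false + D.y (x + 1) true)) := by abel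
    rw [e]
    exact a5
  have h0 : ∀ x, x < 2 ^ D.d → D.yt x - D.yt 0 ∈ Xs N K m := by
    intro x
    induction x with
    | zero =>
      intro _
      rw [sub_self]
      exact Submodule.zero_mem _
    | succ x ih =>
      intro hx
      have a1 := Submodule.sub_mem _ (ih (by omega)) (hst x hx)
      have e : D.yt (x + 1) - D.yt 0 = (D.yt x - D.yt 0) - (D.yt x - D.yt (x + 1)) := by abel
      rw [e]
      exact a1
  have e : D.ph x - D.ph x' = D.Wx⁻¹ • ((D.yt x - D.yt 0) - (D.yt x' - D.yt 0)) := by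
    unfold ph
    rw [sub_sub_sub_cancel_right, smul_sub]
  rw [e]
  exact Submodule.smul_mem _ _ (Submodule.sub_mem _ (h0 x hx) (h0 x' hx'))

theorem Xi_mem (h : D.OK K m) {x : ℕ} (h1 : 1 ≤ x) (h2 : x < 2 ^ D.d) (c : Bool) : D.Xi x c ∈ Xs N K m := by
  obtain ⟨z, rfl⟩ : ∃ z, x = z + 1 := ⟨x - 1, by omega⟩
  have a3 := h.rel1 z h2
  have a4 := h.rel0 z h2
  unfold Xi
  rw [Nat.add_sub_cancel]
  cases c
  · simpa using a4
  · simpa using a3

theorem rho_zero (h : D.OK K m) (j : ℕ) : D.rho j 0 = 0 := by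
  unfold rho
  rw [omc_mul D.om (dvd_zero _), omf_mul D.om (dvd_zero _), h.om_zero, smul_zero, smul_zero, add_zero]

theorem rho_last (h : D.OK K m) {j : ℕ} (hj : j ≤ D.d) : D.rho j (2 ^ D.d) = 0 := by
  unfold rho
  rw [omc_mul D.om (pow_dvd_pow 2 hj), omf_mul D.om (pow_dvd_pow 2 hj), h.om_last, smul_zero, smul_zero, add_zero]

theorem sum_nuref (h : D.OK K m) {j : ℕ} (hj : j ≤ D.d) :
    ∑ x ∈ Finset.range (2 ^ D.d), D.nuref j x = ((2 : ℝ) ^ D.d) • D.ν := by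
  unfold nuref
  rw [Finset.sum_add_distrib, Finset.sum_range_sub (D.rho j), rho_zero h, rho_last h hj, sub_zero, add_zero, h.avg]

theorem av_nuref (h : D.OK K m) {j : ℕ} (hj : j ≤ D.d) : av (D.nuref j) D.d 0 = D.ν := by
  unfold av
  simp only [zero_mul, zero_add]
  rw [sum_nuref h hj, smul_smul, inv_mul_cancel₀ (by positivity), one_smul]

theorem nuref_BB (h : D.OK K m) {j : ℕ} (hj : j ≤ D.d) {x : ℕ} (hx : x < 2 ^ D.d) : BB K 8 (D.nuref j x) := by
  have hr : ∀ x, x ≤ 2 ^ D.d → BB K 3 (D.rho j x) := by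
    intro x hx
    have a1 := (omc_BB hj h.om_BB hx).smul (D.w x true)
    have a2 := (omf_BB hj h.om_BB hx).smul (rx j D.w x)
    refine (a1.add a2).mono ?_
    rw [abs_of_nonneg (h.w_nonneg x true)]
    have a3 := w_le_one h x true
    rcases rx_cases (j := j) (w := D.w) x with h4 | h4
    · rw [h4, abs_zero]
      linarith
    · rw [h4, abs_one]
      linarith
  have b1 := h.nu_BB x hx false
  have b2 : BB K 1 (D.ν0 x) := by simpa [nu] using b1
  have b3 := hr (x + 1) (by omega)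
  have b4 := (hr x hx.le).smul (-1)
  have e : D.nuref j x = D.ν0 x + (D.rho j (x + 1) + (-1 : ℝ) • D.rho j x) := by
    unfold nuref
    rw [neg_one_smul, sub_eq_add_neg]
  rw [e]
  refine (b2.add (b3.add b4)).mono ?_
  rw [abs_neg, abs_one]
  norm_num

theorem jj_le (D : Wd N) (J : ℕ) : D.jj J ≤ D.d := by
  unfold jj
  split <;> omega

/-- (M1) for `BB 8` -/
theorem M1_eight {L : ℕ} {ε C1 : ℝ} {M : Finset (Nd N)} {v : Nd N → ℂ} (hM : LOK K m L ε C1 M v) {ω : Om N}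
    (hω : BB K 8 ω) {χ : Y N} (hχ : χ ∈ Xs N K m) : |pr K m ω χ| ≤ 2 * C1 * nr K χ := by
  have h1 : BB K 4 ((2 : ℝ)⁻¹ • ω) := (hω.smul _).mono (by rw [abs_of_pos (by norm_num)]; norm_num)
  have h2 : |pr K m ((2 : ℝ)⁻¹ • ω) χ| ≤ C1 * nr K χ := by
    rw [← hM.1 _ χ hχ]
    exact hM.2 _ χ h1 hχ.1
  rw [pr_smul_left, abs_mul, abs_of_pos (by norm_num : (0 : ℝ) < 2⁻¹)] at h2
  linarith

/-- (M1) for `BB 4` -/
theorem M1_four {L : ℕ} {ε C1 : ℝ} {M : Finset (Nd N)} {v : Nd N → ℂ} (hM : LOK K m L ε C1 M v) {ω : Om N}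
    (hω : BB K 4 ω) {χ : Y N} (hχ : χ ∈ Xs N K m) : |pr K m ω χ| ≤ C1 * nr K χ := by
  rw [← hM.1 ω χ hχ]
  exact hM.2 ω χ hω hχ.1

end Wd

end H50RC
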