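import Pool.Agent.H83.RC.Edef
import Pool.Agent.H83.RC.Ref

/-!
S05864 [H83 RC EA] (PART C5 of proofs 322, (5.1)): the local inequality.

`n = 2^d`, `nu x true - nu x false = dd x`. By `nq_two` (`w x false + w x true = 1`): `∑_c w_c nq (nu x c) = nq (mm x) + vv x nq (dd x)` for every `x`; sum over `x < n`. By `sum_nq_eq` (with `j = d`) and `var_eq` (`i = 0`):
`∑_{x<n} nq (mm x) = dy (nq (hd mm)) d 0 + n nq (av mm d 0)`. `mm x = ν0 x + w_1 dd x`, so `av mm d 0 = ν + u` with `n u = ∑_{x<n} w_1(x) (om (x+1) - om x) = -∑_{1≤x<n} (w_1(x) - w_1(x-1)) om x`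
(summation by parts coordinatewise: `abel`-type identity, `om 0 = om n = 0`; e.g. `Finset.sum_range_by_parts` or induction).
`n nq (av mm) ≥ n nq ν + 2 n ip ν u` (`nq_add_eq`, `nq u ≥ 0`) `≥ n nq ν - 2 ∑ |w_1(x) - w_1(x-1)| |ip ν (om x)| ≥ n nq ν - 2 K TV` (`abs_ip_le`, `nq_le`).
Hence `e0 ≤ ∑_{x<n} ∑_c Wx w_c nq (nu x c) - W nq ν + 2 K Wx TV` (`sum_Wx`). The second sum of the statement is at most the same sum over all `x < n` (the terms are `≥ 0` since `nq (nu x c) ≤ K`), which is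
`W K - ∑∑ Wx w_c nq (nu x c)`.
-/

set_option autoImplicit false

namespace H50RC

private theorem sbp (p f : ℕ → ℝ) (n : ℕ) :
    ∑ x ∈ Finset.range (n + 1), p x * (f (x + 1) - f x) =
      p n * f (n + 1) - p 0 * f 0 - ∑ x ∈ Finset.Ico 1 (n + 1), (p x - p (x - 1)) * f x := by
  induction n with
  | zero =>
    simp
    ring
  | succ n ih =>
    rw [Finset.sum_range_succ, ih, Finset.sum_Ico_succ_top (by omega : 1 ≤ n + 1), Nat.add_sub_cancel]
    ring

namespace Wd

variable {N K m : ℕ} {D : Wd N}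

theorem mm_eq (h : D.OK K m) (x : ℕ) : D.mm x = D.ν0 x + D.w x true • D.dd x := by
  have e1 : D.nu x false = D.ν0 x := by
    unfold nu
    rw [if_neg (by simp)]
  have e2 : D.nu x true = D.ν0 x + D.dd x := by
    unfold nu
    rw [if_pos rfl]
    rfl
  unfold mm
  rw [e1, e2, smul_add, ← add_assoc, ← add_smul, h.w_sum x, one_smul]

theorem e0_local (h : D.OK K m) :
    D.e0 K + ∑ x ∈ D.ne, (D.Wx * D.w x false * (K - nq K (D.nu x false)) +
      D.Wx * D.w x true * (K - nq K (D.nu x true))) ≤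
      D.W * (K - nq K D.ν) + 2 * K * (D.Wx * D.TV) := by
  have hWx := Wx_nonneg h
  have e1 : ∀ x, D.nu x true - D.nu x false = D.dd x := by
    intro x
    unfold nu dd
    rw [if_pos rfl, if_neg (by simp)]
    unfold nu1
    rw [add_sub_cancel_left]
  have ha : ∀ x, D.w x false * nq K (D.nu x false) + D.w x true * nq K (D.nu x true) =
      nq K (D.mm x) + D.vv x * nq K (D.dd x) := by
    intro x
    rw [nq_two _ _ (h.w_sum x), e1]
    rfl
  have hb := sum_nq_eq (K := K) D.mm D.d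
  have hb' := var_eq (K := K) D.mm D.d 0
  simp only [Nat.zero_mul, Nat.zero_add] at hb'
  rw [hb'] at hb
  obtain ⟨u, hu⟩ : ∃ u : Om N, u = av (fun x => D.w x true • D.dd x) D.d 0 := ⟨_, rfl⟩
  have hc : av D.mm D.d 0 = D.ν + u := by
    have c1 : D.mm = fun x => D.ν0 x + D.w x true • D.dd x := funext fun x => mm_eq h x
    have c2 : av D.ν0 D.d 0 = D.ν := by
      unfold av
      simp only [zero_mul, zero_add]
      rw [← h.avg, smul_smul, inv_mul_cancel₀ (by positivity), one_smul]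
    rw [c1, hu]
    exact (av_add D.ν0 (fun x => D.w x true • D.dd x) D.d 0).trans (by rw [c2])
  have hf0 : ∀ x, x ≤ 2 ^ D.d → |ip K (D.om x) D.ν| ≤ K :=
    fun x hx => abs_ip_le (nq_le (h.om_BB x hx)) (nq_le h.ν_BB)
  have hd1 : (2 : ℝ) ^ D.d * ip K u D.ν =
      ∑ x ∈ Finset.range (2 ^ D.d), D.w x true * (ip K (D.om (x + 1)) D.ν - ip K (D.om x) D.ν) := by
    have hu' : u = ((2 : ℝ) ^ D.d)⁻¹ • ∑ x ∈ Finset.range (2 ^ D.d), D.w x true • D.dd x := by
      rw [hu]
      unfold av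
      simp only [zero_mul, zero_add]
    rw [hu', ip_smul_left, ← mul_assoc, mul_inv_cancel₀ (by positivity), one_mul, ip_sum_left]
    refine Finset.sum_congr rfl fun x _ => ?_
    rw [ip_smul_left]
    congr 1
    unfold dd ip
    rw [← Finset.sum_sub_distrib]
    refine Finset.sum_congr rfl fun v _ => ?_
    rw [Pi.sub_apply]
    ring
  obtain ⟨n, hn⟩ : ∃ n, 2 ^ D.d = n + 1 := ⟨2 ^ D.d - 1, by
    have := Nat.one_le_two_pow (n := D.d)
    omega⟩
  have hip0 : ip K (0 : Om N) D.ν = 0 := by simp [ip]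
  have hd2 : -(K * D.TV) ≤ (2 : ℝ) ^ D.d * ip K u D.ν := by
    have g1 := sbp (fun x => D.w x true) (fun x => ip K (D.om x) D.ν) n
    simp only [← hn] at g1
    rw [h.om_last, h.om_zero, hip0, mul_zero, mul_zero, sub_zero, zero_sub] at g1
    rw [hd1, g1]
    apply neg_le_neg
    unfold TV
    rw [Finset.mul_sum]
    refine Finset.sum_le_sum fun x hx => ?_
    have hx1 := hf0 x (Finset.mem_Ico.1 hx).2.le
    calc (D.w x true - D.w (x - 1) true) * ip K (D.om x) D.ν
        ≤ |(D.w x true - D.w (x - 1) true) * ip K (D.om x) D.ν| := le_abs_self _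
      _ = |D.w x true - D.w (x - 1) true| * |ip K (D.om x) D.ν| := abs_mul _ _
      _ ≤ |D.w x true - D.w (x - 1) true| * K := mul_le_mul_of_nonneg_left hx1 (abs_nonneg _)
      _ = K * |D.w x true - D.w (x - 1) true| := mul_comm _ _
  have he : (2 : ℝ) ^ D.d * nq K D.ν - 2 * K * D.TV ≤ (2 : ℝ) ^ D.d * nq K (av D.mm D.d 0) := by
    rw [hc, nq_add_eq, ip_comm]
    have h2 : 0 ≤ (2 : ℝ) ^ D.d * nq K u := mul_nonneg (by positivity) (nq_nonneg u)
    linarith
  have hS : ∑ x ∈ Finset.range (2 ^ D.d),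
        (D.w x false * nq K (D.nu x false) + D.w x true * nq K (D.nu x true)) =
      dy (fun j i => nq K (hd D.mm j i)) D.d 0 + (2 : ℝ) ^ D.d * nq K (av D.mm D.d 0) +
        ∑ x ∈ Finset.range (2 ^ D.d), D.vv x * nq K (D.dd x) := by
    rw [Finset.sum_congr rfl fun x _ => ha x, Finset.sum_add_distrib, hb]
  have hg : ∑ x ∈ D.ne, (D.Wx * D.w x false * (K - nq K (D.nu x false)) +
        D.Wx * D.w x true * (K - nq K (D.nu x true))) ≤
      ∑ x ∈ Finset.range (2 ^ D.d), (D.Wx * D.w x false * (K - nq K (D.nu x false)) +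
        D.Wx * D.w x true * (K - nq K (D.nu x true))) := by
    refine Finset.sum_le_sum_of_subset_of_nonneg Finset.sdiff_subset fun x hx _ => ?_
    have hx' := Finset.mem_range.1 hx
    have b0 := nq_le (h.nu_BB x hx' false)
    have b1 := nq_le (h.nu_BB x hx' true)
    exact add_nonneg (mul_nonneg (mul_nonneg hWx (h.w_nonneg x false)) (by linarith))
      (mul_nonneg (mul_nonneg hWx (h.w_nonneg x true)) (by linarith))
  have hg2 : ∑ x ∈ Finset.range (2 ^ D.d), (D.Wx * D.w x false * (K - nq K (D.nu x false)) +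
        D.Wx * D.w x true * (K - nq K (D.nu x true))) =
      D.W * K - D.Wx * ∑ x ∈ Finset.range (2 ^ D.d),
        (D.w x false * nq K (D.nu x false) + D.w x true * nq K (D.nu x true)) := by
    rw [Finset.mul_sum, ← sum_Wx D]
    have h3 : (2 : ℝ) ^ D.d * D.Wx * K = ∑ x ∈ Finset.range (2 ^ D.d), D.Wx * K := by
      rw [Finset.sum_const, Finset.card_range, nsmul_eq_mul]
      push_cast
      ring
    rw [h3, ← Finset.sum_sub_distrib]
    refine Finset.sum_congr rfl fun x _ => ?_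
    have e : D.w x false = 1 - D.w x true := by linarith [h.w_sum x]
    rw [e]
    ring
  have hf : D.Wx * ((2 : ℝ) ^ D.d * nq K D.ν - 2 * K * D.TV) ≤
      D.Wx * ((2 : ℝ) ^ D.d * nq K (av D.mm D.d 0)) := mul_le_mul_of_nonneg_left he hWx
  have hW := sum_Wx D
  rw [hg2, hS] at hg
  unfold e0
  have k1 : D.Wx * ((2 : ℝ) ^ D.d * nq K D.ν - 2 * K * D.TV) = D.W * nq K D.ν - 2 * K * (D.Wx * D.TV) := by
    rw [← hW]
    ring
  rw [k1] at hf
  linarith

theorem e0_nonneg (h : D.OK K m) : 0 ≤ D.e0 K := by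
  unfold e0
  refine mul_nonneg (Wx_nonneg h) (add_nonneg (dy_nonneg (fun j i => nq_nonneg _) _ _) ?_)
  exact Finset.sum_nonneg fun x _ => mul_nonneg (mul_nonneg (h.w_nonneg x false) (h.w_nonneg x true)) (nq_nonneg _)

end Wd

end H50RC
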