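import Pool.Agent.H83.RC.Eb

/-!
S05864 [H83 RC EC] (PART C5 of proofs 322, (5.3)): the energy of the reference slopes.

`nuref_sub`: `mm x = ν0 x + w_1(x) (om (x+1) - om x)`, `om = omc + omf`, `rho x = w_1(x) omc x + r_x omf x`; expand (identity in the module `Om N`; `rx`, `w` are scalars; `w x false = 1 - w x true`).
`ref_le` (`n = 2^d`): `nq_add3_le` and three sums over `x < n`. (1) `(w_1(x+1) - w_1(x))² nq (omc (x+1)) ≤ |w_1(x+1) - w_1(x)| K` for `x + 1 < n` (`omc_BB`, `nq_le`, `|w_1(x+1)-w_1(x)| ≤ 1`), and `omc n = om n = 0` (`omc_mul`): sum `≤ K TV`.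
(2) `(r_(x+1) - r_x)² nq (omf (x+1)) ≤ 4K (r_(x+1) - r_x)²` if `2^j` does not divide `x+1` (`omf_BB`, `nq_le2`), `= 0` otherwise (`omf_mul`): sum over `x + 1 ∈ [1, n)` `≤ 4K · 6 TV` (`rx_change`; for `x + 1 = n` the term is `0`).
(3) `(r_x - w_1(x))² nq (..) = w_s² nq(..) ≤ w_s nq (..)` (`rx_sub`, `w_s ≤ 1`), then `fine_le` (`(2^j)⁻¹ ≤ 1`): sum `≤ 16 ∑ vv nq dd + 32 K TV`.
Total: `3 (K TV + 24 K TV + 16 ∑ vv nq dd + 32 K TV) = 171 K TV + 48 ∑ vv nq dd`.
`en1_local`: `nuref x = mm x + (nuref x - mm x)`, `var_add_le` with `j = d`: `dy (nq (hd nuref)) ≤ 2 dy (nq (hd mm)) + 2 ∑ nq (nuref - mm)`; multiply by `Wx ≥ 0`.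
-/

set_option autoImplicit false

namespace H50RC

private theorem shift_le (F g : ℕ → ℝ) (n : ℕ) (h1 : ∀ x, x < n → F x ≤ g (x + 1)) (h2 : F n ≤ 0) :
    ∑ x ∈ Finset.range (n + 1), F x ≤ ∑ x ∈ Finset.Ico 1 (n + 1), g x := by
  rw [Finset.sum_range_succ, Finset.sum_Ico_eq_sum_range, Nat.add_sub_cancel]
  have h3 : ∑ x ∈ Finset.range n, F x ≤ ∑ x ∈ Finset.range n, g (1 + x) := by
    refine Finset.sum_le_sum fun x hx => ?_
    rw [Nat.add_comm 1 x]
    exact h1 x (Finset.mem_range.1 hx)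
  linarith

namespace Wd

variable {N K m : ℕ} {D : Wd N}

theorem nuref_sub (h : D.OK K m) (j x : ℕ) :
    D.nuref j x - D.mm x = (D.w (x + 1) true - D.w x true) • omc j D.om (x + 1) +
      (rx j D.w (x + 1) - rx j D.w x) • omf j D.om (x + 1) +
      (rx j D.w x - D.w x true) • (omf j D.om (x + 1) - omf j D.om x) := by
  have e1 : D.nu x false = D.ν0 x := by
    unfold nu
    rw [if_neg (by simp)]
  have e2 : D.nu x true = D.ν0 x + (D.om (x + 1) - D.om x) := by
    unfold nu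
    rw [if_pos rfl]
    rfl
  have e3 : D.w x false = 1 - D.w x true := by linarith [h.w_sum x]
  have e4 := omc_add_omf j D.om (x + 1)
  have e5 := omc_add_omf j D.om x
  unfold nuref rho mm
  rw [e1, e2, e3, ← e4, ← e5]
  module

theorem ref_le (h : D.OK K m) {j : ℕ} (hj : j ≤ D.d) :
    ∑ x ∈ Finset.range (2 ^ D.d), nq K (D.nuref j x - D.mm x) ≤
      171 * K * D.TV + 48 * ∑ x ∈ Finset.range (2 ^ D.d), D.vv x * nq K (D.dd x) := by
  obtain ⟨n, hn⟩ : ∃ n, 2 ^ D.d = n + 1 := ⟨2 ^ D.d - 1, by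
    have := Nat.one_le_two_pow (n := D.d)
    omega⟩
  have hK : (0 : ℝ) ≤ K := Nat.cast_nonneg K
  -- first sum
  have s1 : ∑ x ∈ Finset.range (2 ^ D.d), nq K ((D.w (x + 1) true - D.w x true) • omc j D.om (x + 1)) ≤
      K * D.TV := by
    have e : K * D.TV = ∑ x ∈ Finset.Ico 1 (2 ^ D.d), K * |D.w x true - D.w (x - 1) true| := by
      unfold TV
      rw [Finset.mul_sum]
    rw [e, hn]
    refine shift_le _ (fun x => K * |D.w x true - D.w (x - 1) true|) n ?_ ?_
    · intro x hx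
      have a1 : x + 1 ≤ 2 ^ D.d := by omega
      have a2 := nq_le (omc_BB hj h.om_BB a1)
      rw [nq_smul]
      simp only [Nat.add_sub_cancel]
      have a3 : |D.w (x + 1) true - D.w x true| ≤ 1 := by
        rw [abs_le]
        constructor <;> linarith [h.w_nonneg x true, h.w_nonneg (x + 1) true, w_le_one h x true,
          w_le_one h (x + 1) true]
      have a4 : (D.w (x + 1) true - D.w x true) ^ 2 ≤ |D.w (x + 1) true - D.w x true| := by
        rw [← sq_abs, sq]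
        exact (mul_le_mul_of_nonneg_left a3 (abs_nonneg _)).trans (le_of_eq (mul_one _))
      calc (D.w (x + 1) true - D.w x true) ^ 2 * nq K (omc j D.om (x + 1))
          ≤ |D.w (x + 1) true - D.w x true| * K := mul_le_mul a4 a2 (nq_nonneg _) (abs_nonneg _)
        _ = K * |D.w (x + 1) true - D.w x true| := mul_comm _ _
    · rw [← hn, omc_mul D.om (pow_dvd_pow 2 hj), h.om_last, smul_zero, nq_zero]
  -- second sum
  have s2 : ∑ x ∈ Finset.range (2 ^ D.d), nq K ((rx j D.w (x + 1) - rx j D.w x) • omf j D.om (x + 1)) ≤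
      24 * K * D.TV := by
    have a0 := rx_change (j := j) h.w_nonneg h.w_sum (2 ^ D.d)
    have e : ∑ x ∈ Finset.range (2 ^ D.d), nq K ((rx j D.w (x + 1) - rx j D.w x) • omf j D.om (x + 1)) ≤
        ∑ x ∈ Finset.Ico 1 (2 ^ D.d), 4 * K * (if 2 ^ j ∣ x then 0 else (rx j D.w x - rx j D.w (x - 1)) ^ 2) := by
      rw [hn]
      refine shift_le _ (fun x => 4 * K * (if 2 ^ j ∣ x then 0 else (rx j D.w x - rx j D.w (x - 1)) ^ 2)) n ?_ ?_
      · intro x hx
        have a1 : x + 1 ≤ 2 ^ D.d := by omega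
        have a2 := nq_le2 (omf_BB hj h.om_BB a1)
        rw [nq_smul]
        simp only [Nat.add_sub_cancel]
        split_ifs with hdv
        · rw [omf_mul D.om hdv, nq_zero, mul_zero, mul_zero]
        · calc (rx j D.w (x + 1) - rx j D.w x) ^ 2 * nq K (omf j D.om (x + 1))
              ≤ (rx j D.w (x + 1) - rx j D.w x) ^ 2 * (4 * K) := mul_le_mul_of_nonneg_left a2 (sq_nonneg _)
            _ = 4 * K * (rx j D.w (x + 1) - rx j D.w x) ^ 2 := mul_comm _ _
      · rw [← hn, omf_mul D.om (pow_dvd_pow 2 hj), smul_zero, nq_zero]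
    rw [← Finset.mul_sum] at e
    have a5 : 4 * (K : ℝ) * ∑ x ∈ Finset.Ico 1 (2 ^ D.d),
        (if 2 ^ j ∣ x then 0 else (rx j D.w x - rx j D.w (x - 1)) ^ 2) ≤ 4 * K * (6 * D.TV) :=
      mul_le_mul_of_nonneg_left a0 (by linarith)
    linarith
  -- third sum
  have s3 : ∑ x ∈ Finset.range (2 ^ D.d),
        nq K ((rx j D.w x - D.w x true) • (omf j D.om (x + 1) - omf j D.om x)) ≤
      16 * ∑ x ∈ Finset.range (2 ^ D.d), D.vv x * nq K (D.dd x) + 32 * K * D.TV := by
    have a0 := fine_le h hj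
    have a1 : ∑ x ∈ Finset.range (2 ^ D.d),
        nq K ((rx j D.w x - D.w x true) • (omf j D.om (x + 1) - omf j D.om x)) ≤
        ∑ x ∈ Finset.range (2 ^ D.d), D.w x (sd j D.w x) * nq K (omf j D.om (x + 1) - omf j D.om x) := by
      refine Finset.sum_le_sum fun x _ => ?_
      rw [nq_smul]
      refine mul_le_mul_of_nonneg_right ?_ (nq_nonneg _)
      rw [← sq_abs, rx_sub h.w_nonneg h.w_sum x, sq]
      exact (mul_le_mul_of_nonneg_left (w_le_one h x _) (h.w_nonneg x _)).trans (le_of_eq (mul_one _))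
    have a2 : 32 * (K : ℝ) * ((2 : ℝ) ^ j)⁻¹ * D.TV ≤ 32 * K * D.TV := by
      have b1 : ((2 : ℝ) ^ j)⁻¹ ≤ 1 := inv_le_one_of_one_le₀ (one_le_pow₀ (by norm_num))
      have b2 : 0 ≤ 32 * (K : ℝ) * D.TV := mul_nonneg (by linarith) (TV_nonneg D)
      nlinarith
    linarith
  have s4 : ∑ x ∈ Finset.range (2 ^ D.d), nq K (D.nuref j x - D.mm x) ≤
      ∑ x ∈ Finset.range (2 ^ D.d), 3 * (nq K ((D.w (x + 1) true - D.w x true) • omc j D.om (x + 1)) +
        nq K ((rx j D.w (x + 1) - rx j D.w x) • omf j D.om (x + 1)) +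
        nq K ((rx j D.w x - D.w x true) • (omf j D.om (x + 1) - omf j D.om x))) := by
    refine Finset.sum_le_sum fun x _ => ?_
    rw [nuref_sub h j x]
    exact nq_add3_le _ _ _
  rw [← Finset.mul_sum, Finset.sum_add_distrib, Finset.sum_add_distrib] at s4
  linarith

theorem en1_local (h : D.OK K m) (J : ℕ) : D.en1 K J ≤ 96 * D.e0 K + 342 * K * (D.Wx * D.TV) := by
  have h1 := var_add_le (K := K) D.mm (fun x => D.nuref (D.jj J) x - D.mm x) D.d
  have e1 : (fun x => D.mm x + (fun x => D.nuref (D.jj J) x - D.mm x) x) = D.nuref (D.jj J) := by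
    funext x
    simp only
    abel
  rw [e1] at h1
  have h2 := ref_le h (jj_le D J)
  have h3 : 0 ≤ dy (fun j i => nq K (hd D.mm j i)) D.d 0 := dy_nonneg (fun _ _ => nq_nonneg _) _ _
  have h4 : dy (fun j i => nq K (hd (D.nuref (D.jj J)) j i)) D.d 0 ≤
      96 * (dy (fun i k => nq K (hd D.mm i k)) D.d 0 + ∑ x ∈ Finset.range (2 ^ D.d), D.vv x * nq K (D.dd x)) +
        342 * K * D.TV := by
    linarith
  have h5 := mul_le_mul_of_nonneg_left h4 (Wx_nonneg h)
  unfold en1 e0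
  linarith

end Wd

end H50RC
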