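import Pool.Agent.H83.RC.Ps
import Pool.Agent.H83.RC.Ea
import Pool.Agent.H83.RC.Ec

/-!
S05864 [H83 RC EM] (PART C5 of proofs 322): the energies: assembly.
-/

set_option autoImplicit false

namespace H50RC

namespace Wd

variable {N K m : ℕ} {D : Wd N}

theorem WxTV_nonneg (h : D.OK K m) : 0 ≤ D.Wx * D.TV := mul_nonneg (Wx_nonneg h) (TV_nonneg D)

theorem inv_two_pow_le (j : ℕ) : ((2 : ℝ) ^ j)⁻¹ ≤ 1 := inv_le_one_of_one_le₀ (one_le_pow₀ (by norm_num))

theorem ne_sub (D : Wd N) : D.ne ⊆ Finset.range (2 ^ D.d) := Finset.sdiff_subset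

theorem far_sub (D : Wd N) (j : ℕ) : D.far j ⊆ Finset.range (2 ^ D.d) := by
  classical
  intro x hx
  simp only [far, Finset.mem_filter] at hx
  exact ne_sub D hx.1

theorem Wx_sum_dd_le (h : D.OK K m) :
    D.Wx * ∑ x ∈ Finset.range (2 ^ D.d), D.vv x * nq K (D.dd x) ≤ D.e0 K := by
  unfold e0
  rw [mul_add]
  have : 0 ≤ D.Wx * dy (fun i k => nq K (hd D.mm i k)) D.d 0 :=
    mul_nonneg (Wx_nonneg h) (dy_nonneg (fun _ _ => nq_nonneg _) _ _)
  linarith

theorem en3_local (h : D.OK K m) (J : ℕ) : D.en3 K J ≤ D.e0 K + 4 * K * (D.Wx * D.TV) := by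
  have hT := WxTV_nonneg h
  have hK : (0 : ℝ) ≤ K := Nat.cast_nonneg K
  unfold en3
  split
  · rename_i hJ
    have h1 : ∑ x ∈ D.ne, D.vv x * nq K (dsl J D.om x) ≤
        ∑ x ∈ Finset.range (2 ^ D.d), D.vv x * nq K (dsl J D.om x) :=
      Finset.sum_le_sum_of_subset_of_nonneg (ne_sub D) fun x _ _ => mul_nonneg (vv_nonneg h x) (nq_nonneg _)
    have h2 := mul_le_mul_of_nonneg_left (h1.trans (coarse_le h hJ)) (Wx_nonneg h)
    rw [mul_add] at h2
    have h3 := Wx_sum_dd_le h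
    have h4 : D.Wx * (4 * K * ((2 : ℝ) ^ J)⁻¹ * D.TV) ≤ 4 * K * (D.Wx * D.TV) := by
      have := mul_le_mul_of_nonneg_left (inv_two_pow_le J) (mul_nonneg (mul_nonneg (by norm_num : (0 : ℝ) ≤ 4) hK) hT)
      nlinarith
    linarith
  · have := e0_nonneg h
    positivity

theorem en2_local (h : D.OK K m) (J : ℕ) : D.en2 K J ≤ 16 * D.e0 K + 32 * K * (D.Wx * D.TV) := by
  have hT := WxTV_nonneg h
  have hK : (0 : ℝ) ≤ K := Nat.cast_nonneg K
  unfold en2
  split
  · rename_i hJ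
    have h1 : ∑ x ∈ D.far J, D.w x (sd J D.w x) * nq K (omf J D.om (x + 1) - omf J D.om x) ≤
        ∑ x ∈ Finset.range (2 ^ D.d), D.w x (sd J D.w x) * nq K (omf J D.om (x + 1) - omf J D.om x) :=
      Finset.sum_le_sum_of_subset_of_nonneg (far_sub D J) fun x _ _ => mul_nonneg (h.w_nonneg _ _) (nq_nonneg _)
    have h2 := mul_le_mul_of_nonneg_left (h1.trans (fine_le h hJ)) (Wx_nonneg h)
    rw [mul_add] at h2
    have h3 := Wx_sum_dd_le h
    have h4 : D.Wx * (32 * K * ((2 : ℝ) ^ J)⁻¹ * D.TV) ≤ 32 * K * (D.Wx * D.TV) := by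
      have := mul_le_mul_of_nonneg_left (inv_two_pow_le J) (mul_nonneg (mul_nonneg (by norm_num : (0 : ℝ) ≤ 32) hK) hT)
      nlinarith
    have h5 : D.Wx * (16 * ∑ x ∈ Finset.range (2 ^ D.d), D.vv x * nq K (D.dd x)) =
        16 * (D.Wx * ∑ x ∈ Finset.range (2 ^ D.d), D.vv x * nq K (D.dd x)) := by ring
    linarith
  · have := e0_nonneg h
    positivity

end Wd

namespace PTr

variable {N K m : ℕ}

theorem sum_TV_le {P : PTr N} (hP : P.OK K m) :
    P.sum (fun D => D.Wx * D.TV) ≤ 3 * P.sum (Wd.V K) + P.sum Wd.SE := by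
  have h1 := sum_mono (K := K) (m := m) (f := fun D : Wd N => D.Wx * D.TV)
    (g := fun D => 3 * D.V K + D.SE) (fun D hD => hD.tv_le) P hP
  rw [sum_add, sum_mul] at h1
  exact h1

theorem sum_e0_le {P : PTr N} (hP : P.OK K m) :
    P.sum (fun D => D.e0 K) ≤ K * P.W + 6 * K * P.sum (Wd.V K) + 2 * K * P.sum Wd.SE := by
  have hK : (0 : ℝ) ≤ K := Nat.cast_nonneg K
  have hU : ∀ P : PTr N, P.OK K m → 0 ≤ P.W * (K - nq K P.ν) := fun P hP =>
    mul_nonneg (W_nonneg hP) (sub_nonneg.2 (nq_le (ν_BB hP)))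
  have key := sum_le (K := K) (m := m) (fun D : Wd N => D.e0 K) (fun D => (2 * K) * (D.Wx * D.TV))
    (fun P => P.W * (K - nq K P.ν)) hU (by
      intro D sub h
      have h1 := Wd.e0_local h.1
      have h2 : ∑ x ∈ Finset.range (2 ^ D.d) \ D.ex,
          ((if D.w x false = 0 then 0 else (sub x false).W * (K - nq K (sub x false).ν)) +
            (if D.w x true = 0 then 0 else (sub x true).W * (K - nq K (sub x true).ν))) =
          ∑ x ∈ D.ne, (D.Wx * D.w x false * (K - nq K (D.nu x false)) +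
            D.Wx * D.w x true * (K - nq K (D.nu x true))) := by
        refine Finset.sum_congr rfl fun x hx => ?_
        have hx : x ∈ Finset.range (2 ^ D.d) \ D.ex := hx
        rw [Finset.mem_sdiff, Finset.mem_range] at hx
        have e : ∀ c, (if D.w x c = 0 then 0 else (sub x c).W * (K - nq K (sub x c).ν)) =
            D.Wx * D.w x c * (K - nq K (D.nu x c)) := by
          intro c
          by_cases hc : D.w x c = 0
          · simp [hc]
          · obtain ⟨-, -, e2, e3, -⟩ := h.2 x hx.1 hx.2 c hc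
            rw [if_neg hc, e2, e3]
        rw [e false, e true]
      show D.e0 K + _ ≤ D.W * (K - nq K D.ν) + _
      rw [h2]
      linarith) P hP
  rw [sum_mul] at key
  have h3 := mul_le_mul_of_nonneg_left (sum_TV_le hP) (mul_nonneg (by norm_num : (0 : ℝ) ≤ 2) hK)
  have h4 : P.W * (K - nq K P.ν) ≤ K * P.W := by
    have := mul_nonneg (W_nonneg hP) (nq_nonneg (K := K) P.ν)
    nlinarith
  nlinarith

/-- the three energies of a phase -/
theorem sum_en_le {P : PTr N} (hP : P.OK K m) (J : ℕ) :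
    P.sum (fun D => D.en1 K J) ≤ 2000 * K * (P.W + P.sum (Wd.V K) + P.sum Wd.SE) ∧
      P.sum (fun D => D.en2 K J) ≤ 2000 * K * (P.W + P.sum (Wd.V K) + P.sum Wd.SE) ∧
      P.sum (fun D => D.en3 K J) ≤ 2000 * K * (P.W + P.sum (Wd.V K) + P.sum Wd.SE) := by
  have hK : (0 : ℝ) ≤ K := Nat.cast_nonneg K
  have hV : 0 ≤ K * P.sum (Wd.V K) := mul_nonneg hK (sum_nonneg (fun D _ => Wd.V_nonneg D) hP)
  have hS : 0 ≤ K * P.sum Wd.SE := mul_nonneg hK (sum_nonneg (fun D hD => Wd.SE_nonneg hD) hP)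
  have hW : 0 ≤ K * P.W := mul_nonneg hK (W_nonneg hP)
  have h0 := sum_e0_le hP
  have hT := mul_le_mul_of_nonneg_left (sum_TV_le hP) hK
  have h1 := sum_mono (K := K) (m := m) (f := fun D : Wd N => D.en1 K J)
    (g := fun D => 96 * D.e0 K + (342 * K) * (D.Wx * D.TV)) (fun D hD => Wd.en1_local hD J) P hP
  have h2 := sum_mono (K := K) (m := m) (f := fun D : Wd N => D.en2 K J)
    (g := fun D => 16 * D.e0 K + (32 * K) * (D.Wx * D.TV)) (fun D hD => Wd.en2_local hD J) P hP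
  have h3 := sum_mono (K := K) (m := m) (f := fun D : Wd N => D.en3 K J)
    (g := fun D => 1 * D.e0 K + (4 * K) * (D.Wx * D.TV))
    (fun D hD => by rw [one_mul]; exact Wd.en3_local hD J) P hP
  rw [sum_add, sum_mul, sum_mul] at h1 h2 h3
  refine ⟨?_, ?_, ?_⟩ <;> nlinarith

end PTr

end H50RC
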