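import Pool.Agent.H83.RC.Wid

/-!
S05864 [H83 RC COA] (PART C4 of proofs 322, (4.3)): the coarse part of the window term.

Let `LI x y = omc j (fun z => Lam M v (om z) y) x` (interpolation of the real numbers `Lam M v (om X) y` between the multiples `X` of `2^j`). `Lam` is additive and homogeneous in `y` (`Lam_add`, `Lam_smul`), so `LI x` is linear in `y`.
(a) `LI_X`: for `χ ∈ Xs`: `LI x χ = pr (omc j om x) χ` (first part of `LOK`, `pr_add_left`, `pr_smul_left`, `pr_sub_left`).
(b) `LI_le`: for `x ≤ 2^d`, `y ∈ Vs`: `|LI x y| ≤ C1 nr y`: convex combination of `Lam (om X) y` and `Lam (om X') y` (`X' ≤ 2^d` if `x < 2^d`; for `x = 2^d` use `omc_mul`), `om X ∈ BB 1 ⊂ BB 4`.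
(c) `LI_succ`: `LI (x+1) y - LI x y = TC x y` (`omc_succ` for `E = ℝ`, `TC` is `dsl` of the sequence). (d) `LI_zero`, `LI_last`: `om 0 = om (2^d) = 0`, `Lam_zero`, `omc_mul`.
MAIN: with `E x = w x false • y x true - w x true • y x false`, `dw x = w x true - w (x-1) true`, `Y x = y x false + y x true`:
`w x false • Xi x true - w x true • Xi x false = ψ x + E (x-1) - dw x • Y (x-1) - E x` (`w x false = 1 - w x true`). The vector is in `Xs` (`Xi_mem`), so by (a) the sum is
`∑ LI x (ψ x) - ∑ dw x LI x (Y (x-1)) + ∑_{1≤x<n} (LI x (E (x-1)) - LI x (E x))`, and by `abel` (`p x = LI x (E (x-1))`, `q x = LI x (E x)`, `p n = q 0 = 0`) the last sum is `∑_{x<n} (LI (x+1) (E x) - LI x (E x)) = ∑_{x<n} TC x (E x)`.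
Non-exits: `E x = (Wx vv x) • (phc x true - phc x false)` by `y_eq`, so the term is `Wx vv x TC x (phc x true - phc x false)`. Exits: `|TC x (E x)| ≤ 2 C1 nr (E x) ≤ 2 C1 (nr (y x false) + nr (y x true)) ≤ 4 C1 S x`.
`|∑ LI x (ψ x)| ≤ C1 V`. `|∑ dw x LI x (Y (x-1))| ≤ C1 ∑ |dw x| (nr (y (x-1) false) + nr (y (x-1) true)) ≤ C1 (4 Wx TV + 2 SE)` (non-exits `x - 1`: `≤ 4 Wx (w_0 + w_1)`; exits: `|dw| ≤ 1`, `≤ 2 S`), and `Wx TV ≤ 3 V + SE` (`tv_le`).
Total error `≤ C1 (V + 4 SE + 12 V + 4 SE + 2 SE) ≤ 20 C1 (V + SE)`.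
-/

set_option autoImplicit false

namespace H50RC

namespace Wd

variable {N K m L : ℕ} {D : Wd N} {ε C1 : ℝ} {M : Finset (Nd N)} {v : Nd N → ℂ}

/-- interpolation of the real numbers `Lam M v (om X) y` -/
private noncomputable def LI (D : Wd N) (K m L : ℕ) (ε : ℝ) (M : Finset (Nd N)) (v : Nd N → ℂ)
    (j x : ℕ) (y : Y N) : ℝ :=
  omc j (fun z => Lam K m L ε M v (D.om z) y) x

private noncomputable def EE (D : Wd N) (x : ℕ) : Y N := D.w x false • D.y x true - D.w x true • D.y x false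

private theorem LI_add (j x : ℕ) (y z : Y N) :
    LI D K m L ε M v j x (y + z) = LI D K m L ε M v j x y + LI D K m L ε M v j x z := by
  unfold LI omc
  simp only [Lam_add, smul_eq_mul]
  ring

private theorem LI_smul (j x : ℕ) (c : ℝ) (y : Y N) :
    LI D K m L ε M v j x (c • y) = c * LI D K m L ε M v j x y := by
  unfold LI omc
  simp only [Lam_smul, smul_eq_mul]
  ring

private theorem LI_sub (j x : ℕ) (y z : Y N) :
    LI D K m L ε M v j x (y - z) = LI D K m L ε M v j x y - LI D K m L ε M v j x z := by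
  have h1 : y - z = y + (-1 : ℝ) • z := by
    rw [neg_one_smul, sub_eq_add_neg]
  rw [h1, LI_add, LI_smul]
  ring

private theorem LI_X (hM : LOK K m L ε C1 M v) (j x : ℕ) {χ : Y N} (hχ : χ ∈ Xs N K m) :
    LI D K m L ε M v j x χ = pr K m (omc j D.om x) χ := by
  unfold LI omc
  simp only [hM.1 _ χ hχ, pr_add_left, pr_smul_left, pr_sub_left, smul_eq_mul]

private theorem LI_succ (j x : ℕ) (y : Y N) :
    LI D K m L ε M v j (x + 1) y = LI D K m L ε M v j x y + D.TC K m L ε M v j x y := by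
  unfold LI
  rw [omc_succ]
  rfl

private theorem LI_le (h : D.OK K m) (hM : LOK K m L ε C1 M v) {j : ℕ} (hj : j ≤ D.d)
    {x : ℕ} (hx : x ≤ 2 ^ D.d) {y : Y N} (hy : y ∈ Vs N K) :
    |LI D K m L ε M v j x y| ≤ C1 * nr K y := by
  have hL : ∀ z, z ≤ 2 ^ D.d → |Lam K m L ε M v (D.om z) y| ≤ C1 * nr K y := fun z hz =>
    hM.2 _ _ ((h.om_BB z hz).mono (by norm_num)) hy
  have hP : 0 < 2 ^ j := by positivity
  rcases lt_or_eq_of_le hx with hlt | heq
  · have hX : x / 2 ^ j * 2 ^ j ≤ 2 ^ D.d := (Nat.div_mul_le_self x (2 ^ j)).trans hx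
    have hd : 2 ^ D.d = 2 ^ (D.d - j) * 2 ^ j := by
      rw [← pow_add]
      congr 1
      omega
    have hX' : (x / 2 ^ j + 1) * 2 ^ j ≤ 2 ^ D.d := by
      have h1 : x / 2 ^ j < 2 ^ (D.d - j) := by
        rw [Nat.div_lt_iff_lt_mul hP, ← hd]
        exact hlt
      rw [hd]
      exact Nat.mul_le_mul_right _ h1
    unfold LI omc
    obtain ⟨θ, hθ⟩ : ∃ θ : ℝ, θ = ((x % 2 ^ j : ℕ) : ℝ) / 2 ^ j := ⟨_, rfl⟩
    have h0 : 0 ≤ θ := by rw [hθ]; positivity
    have h1 : θ ≤ 1 := by
      rw [hθ, div_le_one (by positivity)]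
      have h2 : x % 2 ^ j ≤ 2 ^ j := (Nat.mod_lt x hP).le
      exact_mod_cast h2
    rw [← hθ, smul_eq_mul]
    have h2 := abs_le.1 (hL _ hX)
    have h3 := abs_le.1 (hL _ hX')
    rw [abs_le]
    constructor <;> nlinarith
  · unfold LI
    rw [omc_mul _ (by rw [heq]; exact pow_dvd_pow 2 hj)]
    exact hL x hx

private theorem LI_zero (h : D.OK K m) (j : ℕ) (y : Y N) : LI D K m L ε M v j 0 y = 0 := by
  unfold LI
  rw [omc_mul _ (dvd_zero _), h.om_zero, Lam_zero]

private theorem LI_last (h : D.OK K m) {j : ℕ} (hj : j ≤ D.d) (y : Y N) :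
    LI D K m L ε M v j (2 ^ D.d) y = 0 := by
  unfold LI
  rw [omc_mul _ (pow_dvd_pow 2 hj), h.om_last, Lam_zero]

private theorem TC_smul (j x : ℕ) (c : ℝ) (y : Y N) :
    D.TC K m L ε M v j x (c • y) = c * D.TC K m L ε M v j x y := by
  unfold TC
  simp only [Lam_smul]
  ring

private theorem vec_eq (h : D.OK K m) (x : ℕ) :
    D.w x false • D.Xi x true - D.w x true • D.Xi x false =
      D.ψ x + (EE D (x - 1) - EE D x) -
        (D.w x true - D.w (x - 1) true) • (D.y (x - 1) false + D.y (x - 1) true) := by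
  have h1 : D.w x false = 1 - D.w x true := by linarith [h.w_sum x]
  have h2 : D.w (x - 1) false = 1 - D.w (x - 1) true := by linarith [h.w_sum (x - 1)]
  unfold Xi EE
  rw [h1, h2]
  simp only [if_true, Bool.false_eq_true, if_false]
  module

private theorem EE_mem (h : D.OK K m) {x : ℕ} (hx : x < 2 ^ D.d) : EE D x ∈ Vs N K :=
  (Vs N K).sub_mem ((Vs N K).smul_mem _ (h.y_mem x hx true)) ((Vs N K).smul_mem _ (h.y_mem x hx false))

private theorem EE_le (h : D.OK K m) (x : ℕ) : nr K (EE D x) ≤ nr K (D.y x false) + nr K (D.y x true) := by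
  unfold EE
  refine (nr_sub_le _ _).trans ?_
  rw [nr_smul, nr_smul, abs_of_nonneg (h.w_nonneg x false), abs_of_nonneg (h.w_nonneg x true)]
  have h1 := w_le_one h x false
  have h2 := w_le_one h x true
  have h3 := nr_nonneg (K := K) (D.y x true)
  have h4 := nr_nonneg (K := K) (D.y x false)
  have h5 := mul_le_mul_of_nonneg_right h1 h3
  have h6 := mul_le_mul_of_nonneg_right h2 h4
  linarith

theorem coa_le (h : D.OK K m) (hW : 0 < D.W) (hC : 0 ≤ C1) (hM : LOK K m L ε C1 M v) {j : ℕ} (hj : j ≤ D.d) :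
    |∑ x ∈ Finset.Ico 1 (2 ^ D.d), pr K m (omc j D.om x) (D.w x false • D.Xi x true - D.w x true • D.Xi x false)| ≤
      D.cs K m L ε M v j + 20 * C1 * (D.V K + D.SE) := by
  have hn : 1 ≤ 2 ^ D.d := Nat.one_le_two_pow
  set n := 2 ^ D.d with hnd
  set P : ℕ → ℝ := fun x => LI D K m L ε M v j x (EE D (x - 1)) with hP
  set Q : ℕ → ℝ := fun x => LI D K m L ε M v j x (EE D x) with hQ
  have hterm : ∀ x ∈ Finset.Ico 1 n,
      pr K m (omc j D.om x) (D.w x false • D.Xi x true - D.w x true • D.Xi x false) =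
      LI D K m L ε M v j x (D.ψ x) + (P x - Q x) - (D.w x true - D.w (x - 1) true) *
        LI D K m L ε M v j x (D.y (x - 1) false + D.y (x - 1) true) := by
    intro x hx
    obtain ⟨hx1, hx2⟩ := Finset.mem_Ico.1 hx
    have hmem : D.w x false • D.Xi x true - D.w x true • D.Xi x false ∈ Xs N K m :=
      (Xs N K m).sub_mem ((Xs N K m).smul_mem _ (Xi_mem h hx1 hx2 true))
        ((Xs N K m).smul_mem _ (Xi_mem h hx1 hx2 false))
    rw [← LI_X hM j x hmem, vec_eq h x, LI_sub, LI_add, LI_sub, LI_smul]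
  have hab := abel P Q hn
  have hPn : P n = 0 := by
    rw [hP]
    exact LI_last h hj _
  have hQ0 : Q 0 = 0 := by
    rw [hQ]
    exact LI_zero h j _
  have hPQ : ∀ x, P (x + 1) - Q x = D.TC K m L ε M v j x (EE D x) := by
    intro x
    show LI D K m L ε M v j (x + 1) (EE D (x + 1 - 1)) - LI D K m L ε M v j x (EE D x) = _
    rw [Nat.add_sub_cancel, LI_succ]
    ring
  rw [hPn, hQ0, add_zero, sub_zero] at hab
  have hsum : ∑ x ∈ Finset.Ico 1 n, (P x - Q x) = ∑ x ∈ Finset.range n,
      D.TC K m L ε M v j x (EE D x) := by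
    rw [← hab]
    exact Finset.sum_congr rfl fun x _ => hPQ x
  have hspl : ∑ x ∈ Finset.range n, D.TC K m L ε M v j x (EE D x) =
      ∑ x ∈ D.ne, D.TC K m L ε M v j x (EE D x) + ∑ x ∈ D.ex, D.TC K m L ε M v j x (EE D x) :=
    (Finset.sum_sdiff h.ex_sub).symm
  -- non-exits
  have hne : |∑ x ∈ D.ne, D.TC K m L ε M v j x (EE D x)| ≤ D.cs K m L ε M v j := by
    refine (Finset.abs_sum_le_sum_abs _ _).trans ?_
    unfold cs
    rw [Finset.mul_sum]
    refine Finset.sum_le_sum fun x hx => le_of_eq ?_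
    have h1 : EE D x = (D.Wx * D.vv x) • (D.phc x true - D.phc x false) := by
      unfold EE vv
      rw [y_eq h hW hx true, y_eq h hW hx false]
      module
    rw [h1, TC_smul, abs_mul, abs_of_nonneg, mul_assoc]
    exact mul_nonneg (Wx_nonneg h) (mul_nonneg (h.w_nonneg x false) (h.w_nonneg x true))
  -- exits
  have hex : |∑ x ∈ D.ex, D.TC K m L ε M v j x (EE D x)| ≤ 4 * C1 * D.SE := by
    refine (Finset.abs_sum_le_sum_abs _ _).trans ?_
    unfold SE
    rw [Finset.mul_sum]
    refine Finset.sum_le_sum fun x hx => ?_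
    have hxn : x < 2 ^ D.d := Finset.mem_range.1 (h.ex_sub hx)
    have h1 : D.TC K m L ε M v j x (EE D x) =
        LI D K m L ε M v j (x + 1) (EE D x) - LI D K m L ε M v j x (EE D x) := by
      rw [LI_succ]
      ring
    have h2 := LI_le h hM hj (x := x + 1) hxn (EE_mem h hxn)
    have h3 := LI_le h hM hj hxn.le (EE_mem h hxn)
    have h4 := (EE_le (K := K) h x).trans (h.y_ex x hx)
    have h5 := mul_le_mul_of_nonneg_left h4 hC
    rw [h1]
    refine (abs_sub _ _).trans ?_
    linarith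
  -- the terms with ψ
  have hψ : |∑ x ∈ Finset.Ico 1 n, LI D K m L ε M v j x (D.ψ x)| ≤ C1 * D.V K := by
    refine (Finset.abs_sum_le_sum_abs _ _).trans ?_
    unfold V
    rw [Finset.mul_sum]
    refine Finset.sum_le_sum fun x hx => ?_
    obtain ⟨hx1, hx2⟩ := Finset.mem_Ico.1 hx
    exact LI_le h hM hj hx2.le (h.ψ_mem x hx1 hx2)
  -- the terms with dw
  have hdw : |∑ x ∈ Finset.Ico 1 n, (D.w x true - D.w (x - 1) true) *
      LI D K m L ε M v j x (D.y (x - 1) false + D.y (x - 1) true)| ≤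
      C1 * (4 * (D.Wx * D.TV) + 2 * D.SE) := by
    refine (Finset.abs_sum_le_sum_abs _ _).trans ?_
    have h1 : ∀ x ∈ Finset.Ico 1 n, |(D.w x true - D.w (x - 1) true) *
        LI D K m L ε M v j x (D.y (x - 1) false + D.y (x - 1) true)| ≤
        C1 * (4 * (D.Wx * |D.w x true - D.w (x - 1) true|) +
          2 * (if x - 1 ∈ D.ex then D.S (x - 1) else 0)) := by
      intro x hx
      obtain ⟨hx1, hx2⟩ := Finset.mem_Ico.1 hx
      have hx3 : x - 1 < 2 ^ D.d := by omega
      have h2 := LI_le h hM hj hx2.le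
        ((Vs N K).add_mem (h.y_mem (x - 1) hx3 false) (h.y_mem (x - 1) hx3 true))
      have h3 := nr_add_le (K := K) (D.y (x - 1) false) (D.y (x - 1) true)
      have h4 := mul_le_mul_of_nonneg_left h3 hC
      have hWx := Wx_nonneg h
      have habs := abs_nonneg (D.w x true - D.w (x - 1) true)
      rw [abs_mul]
      have h5 := mul_le_mul_of_nonneg_left (h2.trans h4) habs
      refine h5.trans ?_
      by_cases he : x - 1 ∈ D.ex
      · rw [if_pos he]
        have h6 : |D.w x true - D.w (x - 1) true| ≤ 1 := by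
          rw [abs_le]
          have a1 := h.w_nonneg x true
          have a2 := h.w_nonneg (x - 1) true
          have a3 := w_le_one h x true
          have a4 := w_le_one h (x - 1) true
          constructor <;> linarith
        have h7 := h.y_ex (x - 1) he
        have h8 := mul_le_mul_of_nonneg_left h7 hC
        have h9 : 0 ≤ C1 * (nr K (D.y (x - 1) false) + nr K (D.y (x - 1) true)) :=
          mul_nonneg hC (add_nonneg (nr_nonneg _) (nr_nonneg _))
        have h10 := mul_le_mul_of_nonneg_right h6 h9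
        have h11 : 0 ≤ C1 * (4 * (D.Wx * |D.w x true - D.w (x - 1) true|)) := by positivity
        linarith
      · rw [if_neg he]
        have h6 := h.y_le (x - 1) hx3 he false
        have h7 := h.y_le (x - 1) hx3 he true
        have h8 := h.w_sum (x - 1)
        have h9 : nr K (D.y (x - 1) false) + nr K (D.y (x - 1) true) ≤ 4 * D.Wx := by
          calc nr K (D.y (x - 1) false) + nr K (D.y (x - 1) true)
              ≤ 4 * (D.Wx * D.w (x - 1) false) + 4 * (D.Wx * D.w (x - 1) true) := add_le_add h6 h7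
            _ = 4 * (D.Wx * (D.w (x - 1) false + D.w (x - 1) true)) := by ring
            _ = 4 * D.Wx := by rw [h8, mul_one]
        have h10 := mul_le_mul_of_nonneg_left (mul_le_mul_of_nonneg_left h9 hC) habs
        linarith
    refine (Finset.sum_le_sum h1).trans ?_
    rw [← Finset.mul_sum]
    refine mul_le_mul_of_nonneg_left ?_ hC
    rw [Finset.sum_add_distrib, ← Finset.mul_sum, ← Finset.mul_sum, ← Finset.mul_sum]
    have h2 : ∑ x ∈ Finset.Ico 1 n, (if x - 1 ∈ D.ex then D.S (x - 1) else 0) ≤ D.SE := by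
      rw [Finset.sum_Ico_eq_sum_range]
      have h3 : ∀ i ∈ Finset.range (n - 1), (if 1 + i - 1 ∈ D.ex then D.S (1 + i - 1) else 0) =
          (if i ∈ D.ex then D.S i else 0) := by
        intro i _
        rw [Nat.add_sub_cancel_left]
      rw [Finset.sum_congr rfl h3]
      have h4 : ∑ i ∈ Finset.range (n - 1), (if i ∈ D.ex then D.S i else 0) ≤
          ∑ i ∈ Finset.range n, (if i ∈ D.ex then D.S i else 0) := by
        refine Finset.sum_le_sum_of_subset_of_nonneg (Finset.range_subset_range.2 (Nat.sub_le _ _)) ?_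
        intro i _ _
        split_ifs
        · exact h.S_nonneg i
        · exact le_rfl
      refine h4.trans (le_of_eq ?_)
      unfold SE
      rw [← Finset.sum_filter]
      congr 1
      ext i
      simp only [Finset.mem_filter, Finset.mem_range]
      exact ⟨fun hi => hi.2, fun hi => ⟨Finset.mem_range.1 (h.ex_sub hi), hi⟩⟩
    unfold TV
    linarith
  rw [Finset.sum_congr rfl hterm, Finset.sum_sub_distrib, Finset.sum_add_distrib, hsum, hspl]
  have hV := V_nonneg (K := K) D
  have hSE := SE_nonneg h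
  have htv := mul_le_mul_of_nonneg_left h.tv_le hC
  have hCV : 0 ≤ C1 * D.V K := mul_nonneg hC hV
  have hCS : 0 ≤ C1 * D.SE := mul_nonneg hC hSE
  have b1 := abs_le.1 hne
  have b2 := abs_le.1 hex
  have b3 := abs_le.1 hψ
  have b4 := abs_le.1 hdw
  rw [abs_le]
  constructor <;> linarith

end Wd

end H50RC
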