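import Pool.Agent.H83.RC.Flf

/-!
S05864 [H83 RC FCI] (PART C4 of proofs 322, (4.4)): subtracting the mean `phI` over the interval.
-/

set_option autoImplicit false

namespace H50RC

namespace Wd

variable {N K m L : ℕ} {D : Wd N} {ε C1 : ℝ} {M : ℕ → Finset (Nd N)} {v : ℕ → Nd N → ℂ}

/-- difference of the functionals at the two ends of the cell `x` -/
noncomputable def fciD (D : Wd N) (K m L : ℕ) (ε : ℝ) (M : ℕ → Finset (Nd N)) (v : ℕ → Nd N → ℂ) (j x : ℕ)
    (y : Y N) : ℝ := D.LF K m L ε M v j (x + 1) y - D.LF K m L ε M v j x y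

theorem fciD_sub (D : Wd N) (j x : ℕ) (y z : Y N) :
    D.fciD K m L ε M v j x (y - z) = D.fciD K m L ε M v j x y - D.fciD K m L ε M v j x z := by
  rw [fciD, fciD, fciD, LF_sub, LF_sub]
  ring

theorem fciD_smul (D : Wd N) (j x : ℕ) (c : ℝ) (y : Y N) :
    D.fciD K m L ε M v j x (c • y) = c * D.fciD K m L ε M v j x y := by
  rw [fciD, fciD, LF_smul, LF_smul]
  ring

theorem fciD_le (h : D.OK K m) (hC : 0 ≤ C1) (hM : ∀ a, LOK K m L ε C1 (M a) (v a)) {j : ℕ} (hj : j ≤ D.d) {x : ℕ}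
    (hx : x < 2 ^ D.d) {y : Y N} (hy : y ∈ Vs N K) : |D.fciD K m L ε M v j x y| ≤ 2 * C1 * nr K y := by
  have h1 := LF_le h hC hM hj (show x + 1 ≤ 2 ^ D.d from hx) hy
  have h2 := LF_le h hC hM hj (show x ≤ 2 ^ D.d from hx.le) hy
  rw [fciD]
  have h3 := abs_sub (D.LF K m L ε M v j (x + 1) y) (D.LF K m L ε M v j x y)
  linarith

theorem fci_abs_sg (c : Bool) : |sg c| = 1 := by
  cases c with
  | false => simp [sg]
  | true => simp [sg]

theorem fci_nr_y (D : Wd N) (x : ℕ) (c : Bool) : nr K (D.y x c) ≤ nr K (D.y x false) + nr K (D.y x true) := by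
  cases c with
  | false =>
    have := nr_nonneg (K := K) (D.y x true)
    linarith
  | true =>
    have := nr_nonneg (K := K) (D.y x false)
    linarith

/-- the part with the means, summed by parts -/
theorem fci_mean (h : D.OK K m) (hW : 0 < D.W) (hC : 0 ≤ C1) (hM : ∀ a, LOK K m L ε C1 (M a) (v a)) {j : ℕ}
    (hj : j ≤ D.d) :
    |∑ x ∈ Finset.range (2 ^ D.d), sg (sd j D.w x) * (D.w x (sd j D.w x) *
        D.fciD K m L ε M v j x (D.phI j (st j D.w x)))| ≤ 4 * C1 * D.TV := by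
  have h1 := abel
    (fun x => sg (sd j D.w (x - 1)) * (D.w (x - 1) (sd j D.w (x - 1)) *
      D.LF K m L ε M v j x (D.phI j (st j D.w (x - 1)))))
    (fun x => sg (sd j D.w x) * (D.w x (sd j D.w x) * D.LF K m L ε M v j x (D.phI j (st j D.w x))))
    (n := 2 ^ D.d) Nat.one_le_two_pow
  have h2 : D.LF K m L ε M v j (2 ^ D.d) (D.phI j (st j D.w (2 ^ D.d - 1))) = 0 :=
    LF_mul D (pow_dvd_pow 2 hj) _
  have h3 : D.LF K m L ε M v j 0 (D.phI j (st j D.w 0)) = 0 := LF_mul D (dvd_zero _) _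
  simp only [Nat.add_sub_cancel] at h1
  rw [h2, h3, mul_zero, mul_zero, mul_zero, mul_zero, add_zero, sub_zero] at h1
  have h4 : ∑ x ∈ Finset.range (2 ^ D.d), sg (sd j D.w x) * (D.w x (sd j D.w x) *
      D.fciD K m L ε M v j x (D.phI j (st j D.w x))) =
      ∑ x ∈ Finset.range (2 ^ D.d), (sg (sd j D.w x) * (D.w x (sd j D.w x) *
        D.LF K m L ε M v j (x + 1) (D.phI j (st j D.w x))) -
        sg (sd j D.w x) * (D.w x (sd j D.w x) * D.LF K m L ε M v j x (D.phI j (st j D.w x)))) := by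
    refine Finset.sum_congr rfl fun x _ => ?_
    rw [fciD]
    ring
  rw [h4, h1, TV, Finset.mul_sum]
  refine (Finset.abs_sum_le_sum_abs _ _).trans (Finset.sum_le_sum fun x hx => ?_)
  rw [Finset.mem_Ico] at hx
  have hL : ∀ a, |D.LF K m L ε M v j x (D.phI j a)| ≤ 4 * C1 := by
    intro a
    have e1 := LF_le h hC hM hj (x := x) hx.2.le (phI_mem h j a)
    have e2 := mul_le_mul_of_nonneg_left (nr_phI_le h hW j a) hC
    linarith
  have key : st j D.w x = st j D.w (x - 1) → sd j D.w x = sd j D.w (x - 1) →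
      |sg (sd j D.w (x - 1)) * (D.w (x - 1) (sd j D.w (x - 1)) *
        D.LF K m L ε M v j x (D.phI j (st j D.w (x - 1)))) -
        sg (sd j D.w x) * (D.w x (sd j D.w x) * D.LF K m L ε M v j x (D.phI j (st j D.w x)))| ≤
      4 * C1 * |D.w x true - D.w (x - 1) true| := by
    intro e1 e2
    rw [← e1, ← e2]
    have e3 : sg (sd j D.w x) * (D.w (x - 1) (sd j D.w x) * D.LF K m L ε M v j x (D.phI j (st j D.w x))) -
        sg (sd j D.w x) * (D.w x (sd j D.w x) * D.LF K m L ε M v j x (D.phI j (st j D.w x))) =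
        sg (sd j D.w x) * ((D.w (x - 1) (sd j D.w x) - D.w x (sd j D.w x)) *
          D.LF K m L ε M v j x (D.phI j (st j D.w x))) := by ring
    rw [e3, abs_mul, fci_abs_sg, one_mul, abs_mul, abs_sub_comm, abs_dw h.w_sum, mul_comm]
    exact mul_le_mul_of_nonneg_right (hL _) (abs_nonneg _)
  by_cases c1 : D.LF K m L ε M v j x (D.phI j (st j D.w x)) = 0
  · by_cases c2 : D.LF K m L ε M v j x (D.phI j (st j D.w (x - 1))) = 0
    · rw [c1, c2, mul_zero, mul_zero, mul_zero, mul_zero, sub_zero, abs_zero]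
      positivity
    · have e := LF_ne c2
      exact key e.2.2.2.1 e.2.2.2.2
  · have e := LF_ne c1
    exact key e.2.2.2.1 e.2.2.2.2

theorem mean_sub_le (h : D.OK K m) (hW : 0 < D.W) (hC : 0 ≤ C1) (hM : ∀ a, LOK K m L ε C1 (M a) (v a)) {j : ℕ}
    (hj : j ≤ D.d) :
    |∑ x ∈ Finset.range (2 ^ D.d), sg (sd j D.w x) *
        (D.LF K m L ε M v j (x + 1) (D.y x (sd j D.w x)) - D.LF K m L ε M v j x (D.y x (sd j D.w x))) -
      D.Wx * ∑ x ∈ D.ne, sg (sd j D.w x) * (D.w x (sd j D.w x) *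
        (D.LF K m L ε M v j (x + 1) (D.phc x (sd j D.w x) - D.phI j (st j D.w x)) -
          D.LF K m L ε M v j x (D.phc x (sd j D.w x) - D.phI j (st j D.w x))))| ≤
      C1 * (8 * D.SE + 4 * (D.Wx * D.TV)) := by
  have hWx := Wx_nonneg h
  have hmem : ∀ x ∈ D.ne, x < 2 ^ D.d := by
    intro x hx
    rw [ne, Finset.mem_sdiff, Finset.mem_range] at hx
    exact hx.1
  have hexm : ∀ x ∈ D.ex, x < 2 ^ D.d := fun x hx => Finset.mem_range.1 (h.ex_sub hx)
  -- splitting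
  have hsplit : ∀ f : ℕ → ℝ, ∑ x ∈ Finset.range (2 ^ D.d), f x = ∑ x ∈ D.ne, f x + ∑ x ∈ D.ex, f x := by
    intro f
    rw [ne, Finset.sum_sdiff h.ex_sub]
  show |∑ x ∈ Finset.range (2 ^ D.d), sg (sd j D.w x) * D.fciD K m L ε M v j x (D.y x (sd j D.w x)) -
      D.Wx * ∑ x ∈ D.ne, sg (sd j D.w x) * (D.w x (sd j D.w x) *
        D.fciD K m L ε M v j x (D.phc x (sd j D.w x) - D.phI j (st j D.w x)))| ≤ _
  have e1 : ∑ x ∈ Finset.range (2 ^ D.d), sg (sd j D.w x) * D.fciD K m L ε M v j x (D.y x (sd j D.w x)) -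
      D.Wx * ∑ x ∈ D.ne, sg (sd j D.w x) * (D.w x (sd j D.w x) *
        D.fciD K m L ε M v j x (D.phc x (sd j D.w x) - D.phI j (st j D.w x))) =
      ∑ x ∈ D.ex, sg (sd j D.w x) * D.fciD K m L ε M v j x (D.y x (sd j D.w x)) -
      D.Wx * ∑ x ∈ D.ex, sg (sd j D.w x) * (D.w x (sd j D.w x) *
        D.fciD K m L ε M v j x (D.phI j (st j D.w x))) +
      D.Wx * ∑ x ∈ Finset.range (2 ^ D.d), sg (sd j D.w x) * (D.w x (sd j D.w x) *
        D.fciD K m L ε M v j x (D.phI j (st j D.w x))) := by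
    rw [hsplit, hsplit]
    have e2 : ∑ x ∈ D.ne, sg (sd j D.w x) * D.fciD K m L ε M v j x (D.y x (sd j D.w x)) =
        D.Wx * ∑ x ∈ D.ne, sg (sd j D.w x) * (D.w x (sd j D.w x) *
          D.fciD K m L ε M v j x (D.phc x (sd j D.w x) - D.phI j (st j D.w x))) +
        D.Wx * ∑ x ∈ D.ne, sg (sd j D.w x) * (D.w x (sd j D.w x) *
          D.fciD K m L ε M v j x (D.phI j (st j D.w x))) := by
      rw [← mul_add, ← Finset.sum_add_distrib, Finset.mul_sum]
      refine Finset.sum_congr rfl fun x hx => ?_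
      rw [y_eq h hW hx, fciD_smul, fciD_sub]
      ring
    rw [e2]
    ring
  rw [e1]
  have b1 : |∑ x ∈ D.ex, sg (sd j D.w x) * D.fciD K m L ε M v j x (D.y x (sd j D.w x))| ≤ 4 * C1 * D.SE := by
    rw [SE, Finset.mul_sum]
    refine (Finset.abs_sum_le_sum_abs _ _).trans (Finset.sum_le_sum fun x hx => ?_)
    rw [abs_mul, fci_abs_sg, one_mul]
    have e2 := fciD_le h hC hM hj (hexm x hx) (h.y_mem x (hexm x hx) (sd j D.w x))
    have e3 := (fci_nr_y (K := K) D x (sd j D.w x)).trans (h.y_ex x hx)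
    have e4 := mul_le_mul_of_nonneg_left e3 (mul_nonneg (by norm_num : (0 : ℝ) ≤ 2) hC)
    linarith
  have b2 : |∑ x ∈ D.ex, sg (sd j D.w x) * (D.w x (sd j D.w x) *
        D.fciD K m L ε M v j x (D.phI j (st j D.w x)))| ≤ ∑ x ∈ D.ex, 8 * C1 := by
    refine (Finset.abs_sum_le_sum_abs _ _).trans (Finset.sum_le_sum fun x hx => ?_)
    rw [abs_mul, fci_abs_sg, one_mul, abs_mul, abs_of_nonneg (h.w_nonneg x _)]
    have e2 := fciD_le h hC hM hj (hexm x hx) (phI_mem h j (st j D.w x))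
    have e3 := mul_le_mul_of_nonneg_left (nr_phI_le h hW j (st j D.w x)) (mul_nonneg (by norm_num : (0 : ℝ) ≤ 2) hC)
    have e4 := mul_le_mul (w_le_one h x (sd j D.w x)) (e2.trans e3) (abs_nonneg _) zero_le_one
    linarith
  have b2' : D.Wx * ∑ x ∈ D.ex, 8 * C1 ≤ 4 * C1 * D.SE := by
    rw [SE, Finset.mul_sum, Finset.mul_sum]
    refine Finset.sum_le_sum fun x hx => ?_
    have e2 := mul_le_mul_of_nonneg_left (h.ex_le x hx) (mul_nonneg (by norm_num : (0 : ℝ) ≤ 4) hC)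
    linarith
  have b3 := mul_le_mul_of_nonneg_left (fci_mean h hW hC hM hj) hWx
  have b4 := (mul_le_mul_of_nonneg_left b2 hWx).trans b2'
  have t1 := abs_add_le (∑ x ∈ D.ex, sg (sd j D.w x) * D.fciD K m L ε M v j x (D.y x (sd j D.w x)) -
      D.Wx * ∑ x ∈ D.ex, sg (sd j D.w x) * (D.w x (sd j D.w x) *
        D.fciD K m L ε M v j x (D.phI j (st j D.w x))))
    (D.Wx * ∑ x ∈ Finset.range (2 ^ D.d), sg (sd j D.w x) * (D.w x (sd j D.w x) *
        D.fciD K m L ε M v j x (D.phI j (st j D.w x))))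
  have t2 := abs_sub (∑ x ∈ D.ex, sg (sd j D.w x) * D.fciD K m L ε M v j x (D.y x (sd j D.w x)))
    (D.Wx * ∑ x ∈ D.ex, sg (sd j D.w x) * (D.w x (sd j D.w x) *
        D.fciD K m L ε M v j x (D.phI j (st j D.w x))))
  rw [abs_mul, abs_of_nonneg hWx] at t2
  rw [abs_mul D.Wx, abs_of_nonneg hWx] at t1
  linarith

end Wd

end H50RC
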