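import Pool.Agent.H83.RC.Wid

/-!
S05864 [H83 RC FCU] (PART C4 of proofs 322, (4.4)): the terms at the cuts.
-/

set_option autoImplicit false

namespace H50RC

namespace Wd

variable {N K m L : ℕ} {D : Wd N} {ε C1 : ℝ} {M : Finset (Nd N)} {v : Nd N → ℂ}

theorem fcu_abs_sg (c : Bool) : |sg c| = 1 := by
  cases c with
  | false => simp [sg]
  | true => simp [sg]

theorem fcu_nr_Xi (D : Wd N) (x : ℕ) (c : Bool) :
    nr K (D.Xi x c) ≤ nr K (D.ψ x) + nr K (D.y (x - 1) c) + nr K (D.y x c) := by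
  rw [Xi]
  have h1 : nr K (if c then D.ψ x else -D.ψ x) = nr K (D.ψ x) := by
    cases c with
    | false => exact nr_neg _
    | true => rfl
  have h2 := nr_sub_le (K := K) ((if c then D.ψ x else -D.ψ x) + D.y (x - 1) c) (D.y x c)
  have h3 := nr_add_le (K := K) (if c then D.ψ x else -D.ψ x) (D.y (x - 1) c)
  rw [h1] at h3
  linarith

open Classical in
theorem fcu_y_le (h : D.OK K m) {x : ℕ} (hx : x < 2 ^ D.d) (c : Bool) :
    nr K (D.y x c) ≤ 4 * (D.Wx * D.w x c) + (if x ∈ D.ex then 2 * D.S x else 0) := by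
  have hW := Wx_nonneg h
  have hw := h.w_nonneg x c
  by_cases hex : x ∈ D.ex
  · rw [if_pos hex]
    have h1 := h.y_ex x hex
    have h2 : nr K (D.y x c) ≤ nr K (D.y x false) + nr K (D.y x true) := by
      cases c with
      | false =>
        have := nr_nonneg (K := K) (D.y x true)
        linarith
      | true =>
        have := nr_nonneg (K := K) (D.y x false)
        linarith
    have h3 : 0 ≤ 4 * (D.Wx * D.w x c) := by positivity
    linarith
  · rw [if_neg hex, add_zero]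
    exact h.y_le x hx hex c

open Classical in
theorem fcu_sum_ex (h : D.OK K m) (F : Finset ℕ) : ∑ x ∈ F, (if x ∈ D.ex then 2 * D.S x else 0) ≤ 2 * D.SE := by
  rw [← Finset.sum_filter, SE, Finset.mul_sum]
  refine Finset.sum_le_sum_of_subset_of_nonneg ?_ (fun x _ _ => mul_nonneg (by norm_num) (h.S_nonneg x))
  intro x hx
  exact (Finset.mem_filter.1 hx).2

open Classical in
theorem fcu_sum_ex' (h : D.OK K m) (F : Finset ℕ) (hF : ∀ x ∈ F, 1 ≤ x) :
    ∑ x ∈ F, (if x - 1 ∈ D.ex then 2 * D.S (x - 1) else 0) ≤ 2 * D.SE := by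
  have h1 : ∑ x ∈ F, (if x - 1 ∈ D.ex then 2 * D.S (x - 1) else 0) =
      ∑ z ∈ F.image (fun x => x - 1), (if z ∈ D.ex then 2 * D.S z else 0) := by
    rw [Finset.sum_image]
    intro a ha b hb hab
    have ha' := hF a ha
    have hb' := hF b hb
    have hab' : a - 1 = b - 1 := hab
    omega
  rw [h1]
  exact fcu_sum_ex h _

open Classical in
theorem cut_sum_le (h : D.OK K m) (hC : 0 ≤ C1) (hM : LOK K m L ε C1 M v) {j : ℕ} (hj : j ≤ D.d) :
    |∑ x ∈ (Finset.Ico 1 (2 ^ D.d)).filter (fun x => Cut j D.w x),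
        sg (sd j D.w x) * pr K m (omf j D.om x) (D.Xi x (sd j D.w x))| ≤
      C1 * (D.V K + 28 * (D.Wx * D.TV) + 4 * D.SE) := by
  have hW := Wx_nonneg h
  set F := (Finset.Ico 1 (2 ^ D.d)).filter (fun x => Cut j D.w x) with hF
  have hterm : ∀ x ∈ F, |sg (sd j D.w x) * pr K m (omf j D.om x) (D.Xi x (sd j D.w x))| ≤
      C1 * (nr K (D.ψ x) + 28 * (D.Wx * tvi j D.w x) + (if x ∈ D.ex then 2 * D.S x else 0) +
        (if x - 1 ∈ D.ex then 2 * D.S (x - 1) else 0)) := by
    intro x hx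
    rw [hF, Finset.mem_filter, Finset.mem_Ico] at hx
    obtain ⟨⟨hx1, hx2⟩, hc⟩ := hx
    rw [abs_mul, fcu_abs_sg, one_mul]
    have h1 := M1_four hM ((omf_BB hj h.om_BB hx2.le).mono (by norm_num)) (Xi_mem h hx1 hx2 (sd j D.w x))
    refine h1.trans (mul_le_mul_of_nonneg_left ?_ hC)
    have h2 := fcu_nr_Xi (K := K) D x (sd j D.w x)
    have h3 := fcu_y_le h hx2 (sd j D.w x)
    have h4 := fcu_y_le h (x := x - 1) (by omega) (sd j D.w x)
    have h5 := mul_le_mul_of_nonneg_left (cut_next h.w_nonneg h.w_sum hc) hW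
    have h6 := mul_le_mul_of_nonneg_left (cut_next' h.w_nonneg h.w_sum hc) hW
    linarith
  have hsum : ∑ x ∈ F, |sg (sd j D.w x) * pr K m (omf j D.om x) (D.Xi x (sd j D.w x))| ≤
      C1 * (∑ x ∈ F, nr K (D.ψ x) + 28 * (D.Wx * ∑ x ∈ F, tvi j D.w x) +
        ∑ x ∈ F, (if x ∈ D.ex then 2 * D.S x else 0) +
        ∑ x ∈ F, (if x - 1 ∈ D.ex then 2 * D.S (x - 1) else 0)) := by
    refine (Finset.sum_le_sum hterm).trans (le_of_eq ?_)
    rw [← Finset.mul_sum, Finset.sum_add_distrib, Finset.sum_add_distrib, Finset.sum_add_distrib,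
      Finset.mul_sum, Finset.mul_sum]
  have e1 : ∑ x ∈ F, nr K (D.ψ x) ≤ D.V K := by
    rw [V]
    exact Finset.sum_le_sum_of_subset_of_nonneg (Finset.filter_subset _ _) (fun _ _ _ => nr_nonneg _)
  have e2 : ∑ x ∈ F, tvi j D.w x ≤ D.TV := sum_tvi_le _
  have e3 := fcu_sum_ex h F
  have e4 := fcu_sum_ex' h F (fun x hx => by
    rw [hF, Finset.mem_filter, Finset.mem_Ico] at hx
    exact hx.1.1)
  have e5 := mul_le_mul_of_nonneg_left e2 hW
  refine (Finset.abs_sum_le_sum_abs _ _).trans (hsum.trans (mul_le_mul_of_nonneg_left ?_ hC))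
  linarith

end Wd

end H50RC
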