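import Pool.Agent.H83.RC.Flf

/-!
S05864 [H83 RC FNE] (PART C4 of proofs 322, (4.4)): the cells next to a cut.

`n = 2^d`. Split `ne` into `far` (neither `x` nor `x + 1` is a cut) and the rest. On `far`: `LF_far`, `|sg s| = 1`: the sum is at most `∑_{far} w_s |TF ...|` (times `Wx` this is `fs`).
On the rest: `|w_s (LF (x+1) z - LF x z)| ≤ w_s 2 C1 nr z ≤ 16 C1 w_s` (`LF_le` at `x` and `x + 1 ≤ n`, `nr z ≤ nr (phc x s) + nr (phI a) ≤ 8`, `phc_mem`, `phI_mem`, `Vs` closed under subtraction);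
the rest is contained in `{x < n : Cut x ∨ (x + 1 < n ∧ Cut (x+1))}` (`n` is a multiple of `2^j`, so it is no cut), hence `∑ w_s ≤ 6 TV` (`sum_near_le`, terms `≥ 0`): `≤ 96 C1 TV`. Multiply by `Wx ≥ 0`.
-/

set_option autoImplicit false

namespace H50RC

namespace Wd

variable {N K m L : ℕ} {D : Wd N} {ε C1 : ℝ} {M : ℕ → Finset (Nd N)} {v : ℕ → Nd N → ℂ}

theorem near_le (h : D.OK K m) (hW : 0 < D.W) (hC : 0 ≤ C1) (hM : ∀ a, LOK K m L ε C1 (M a) (v a)) {j : ℕ}
    (hj : j ≤ D.d) :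
    |D.Wx * ∑ x ∈ D.ne, sg (sd j D.w x) * (D.w x (sd j D.w x) *
        (D.LF K m L ε M v j (x + 1) (D.phc x (sd j D.w x) - D.phI j (st j D.w x)) -
          D.LF K m L ε M v j x (D.phc x (sd j D.w x) - D.phI j (st j D.w x))))| ≤
      D.fs K m L ε M v j + 96 * C1 * (D.Wx * D.TV) := by
  classical
  have hW0 := Wx_nonneg h
  have hdvd : 2 ^ j ∣ 2 ^ D.d := pow_dvd_pow 2 hj
  -- abbreviations
  obtain ⟨T, hT⟩ : ∃ T : ℕ → ℝ, T = fun x => sg (sd j D.w x) * (D.w x (sd j D.w x) *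
        (D.LF K m L ε M v j (x + 1) (D.phc x (sd j D.w x) - D.phI j (st j D.w x)) -
          D.LF K m L ε M v j x (D.phc x (sd j D.w x) - D.phI j (st j D.w x)))) := ⟨_, rfl⟩
  have hTe : ∑ x ∈ D.ne, sg (sd j D.w x) * (D.w x (sd j D.w x) *
        (D.LF K m L ε M v j (x + 1) (D.phc x (sd j D.w x) - D.phI j (st j D.w x)) -
          D.LF K m L ε M v j x (D.phc x (sd j D.w x) - D.phI j (st j D.w x)))) =
      ∑ x ∈ D.ne, T x := by rw [hT]
  rw [hTe]
  have hsg : ∀ c : Bool, |sg c| = 1 := by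
    intro c
    cases c
    · simp [sg]
    · simp [sg]
  have hTabs : ∀ x, |T x| = D.w x (sd j D.w x) *
      |D.LF K m L ε M v j (x + 1) (D.phc x (sd j D.w x) - D.phI j (st j D.w x)) -
          D.LF K m L ε M v j x (D.phc x (sd j D.w x) - D.phI j (st j D.w x))| := by
    intro x
    rw [hT]
    simp only
    rw [abs_mul, hsg, one_mul, abs_mul, abs_of_nonneg (h.w_nonneg _ _)]
  -- the cells far from the cuts
  have hfar : D.Wx * ∑ x ∈ D.far j, |T x| = D.fs K m L ε M v j := by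
    unfold fs
    congr 1
    refine Finset.sum_congr rfl fun x hx => ?_
    have hx2 := (Finset.mem_filter.1 hx).2
    rw [hTabs, LF_far hx2.1 hx2.2]
  -- the other cells
  obtain ⟨S, hS⟩ : ∃ S : Finset ℕ, S = (Finset.range (2 ^ D.d)).filter
    (fun x => Cut j D.w x ∨ (x + 1 < 2 ^ D.d ∧ Cut j D.w (x + 1))) := ⟨_, rfl⟩
  have hnear : ∑ x ∈ D.ne \ D.far j, |T x| ≤ ∑ x ∈ S, 16 * C1 * D.w x (sd j D.w x) := by
    have hsub : D.ne \ D.far j ⊆ S := by
      intro x hx
      rw [Finset.mem_sdiff] at hx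
      have hxr : x ∈ Finset.range (2 ^ D.d) := (Finset.mem_sdiff.1 hx.1).1
      rw [hS, Finset.mem_filter]
      refine ⟨hxr, ?_⟩
      have h1 : ¬ (¬ Cut j D.w x ∧ ¬ Cut j D.w (x + 1)) := by
        intro h2
        exact hx.2 (Finset.mem_filter.2 ⟨hx.1, h2⟩)
      by_cases hc : Cut j D.w x
      · exact Or.inl hc
      · right
        have hc2 : Cut j D.w (x + 1) := by
          by_contra hc3
          exact h1 ⟨hc, hc3⟩
        refine ⟨?_, hc2⟩
        have h3 : x < 2 ^ D.d := Finset.mem_range.1 hxr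
        rcases Nat.lt_or_ge (x + 1) (2 ^ D.d) with h4 | h4
        · exact h4
        · have h5 : x + 1 = 2 ^ D.d := by omega
          rw [h5] at hc2
          exact absurd hdvd hc2.2
    calc ∑ x ∈ D.ne \ D.far j, |T x| ≤ ∑ x ∈ D.ne \ D.far j, 16 * C1 * D.w x (sd j D.w x) := by
          refine Finset.sum_le_sum fun x hx => ?_
          have hxne : x ∈ D.ne := (Finset.mem_sdiff.1 hx).1
          have hxr : x < 2 ^ D.d := Finset.mem_range.1 (Finset.mem_sdiff.1 hxne).1
          obtain ⟨z, hz⟩ : ∃ z, z = D.phc x (sd j D.w x) - D.phI j (st j D.w x) := ⟨_, rfl⟩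
          rw [hTabs, ← hz]
          have hzV : z ∈ Vs N K := by
            rw [hz]
            exact Submodule.sub_mem _ (phc_mem h hxr _) (phI_mem h _ _)
          have hznr : nr K z ≤ 8 := by
            rw [hz]
            have h1 := nr_sub_le (K := K) (D.phc x (sd j D.w x)) (D.phI j (st j D.w x))
            have h2 := nr_phc_le h hW hxne (sd j D.w x)
            have h3 := nr_phI_le h hW j (st j D.w x)
            linarith
          have h1 := LF_le h hC hM hj (x := x) hxr.le hzV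
          have h2 := LF_le h hC hM hj (x := x + 1) hxr hzV
          have h3 : |D.LF K m L ε M v j (x + 1) z - D.LF K m L ε M v j x z| ≤ 16 * C1 := by
            have h4 := abs_sub (D.LF K m L ε M v j (x + 1) z) (D.LF K m L ε M v j x z)
            have h5 : C1 * nr K z ≤ C1 * 8 := mul_le_mul_of_nonneg_left hznr hC
            linarith
          calc D.w x (sd j D.w x) * |D.LF K m L ε M v j (x + 1) z - D.LF K m L ε M v j x z|
              ≤ D.w x (sd j D.w x) * (16 * C1) :=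
                mul_le_mul_of_nonneg_left h3 (h.w_nonneg _ _)
            _ = 16 * C1 * D.w x (sd j D.w x) := by ring
      _ ≤ ∑ x ∈ S, 16 * C1 * D.w x (sd j D.w x) := by
          refine Finset.sum_le_sum_of_subset_of_nonneg hsub fun x _ _ => ?_
          have := h.w_nonneg x (sd j D.w x)
          positivity
  have hS2 : ∑ x ∈ S, D.w x (sd j D.w x) ≤ 6 * D.TV := by
    have h1 := sum_near_le (j := j) h.w_nonneg h.w_sum (2 ^ D.d)
    rw [hS]
    exact h1
  have hsplit : ∑ x ∈ D.ne, |T x| = ∑ x ∈ D.ne \ D.far j, |T x| + ∑ x ∈ D.far j, |T x| :=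
    (Finset.sum_sdiff (Finset.filter_subset _ _)).symm
  have habs : |D.Wx * ∑ x ∈ D.ne, T x| ≤ D.Wx * ∑ x ∈ D.ne, |T x| := by
    rw [abs_mul, abs_of_nonneg hW0]
    exact mul_le_mul_of_nonneg_left (Finset.abs_sum_le_sum_abs _ _) hW0
  refine habs.trans ?_
  rw [hsplit, mul_add, hfar]
  have h1 : ∑ x ∈ D.ne \ D.far j, |T x| ≤ 96 * C1 * D.TV := by
    refine hnear.trans ?_
    rw [← Finset.mul_sum]
    have h2 : 16 * C1 * ∑ x ∈ S, D.w x (sd j D.w x) ≤ 16 * C1 * (6 * D.TV) :=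
      mul_le_mul_of_nonneg_left hS2 (by positivity)
    linarith
  have h2 := mul_le_mul_of_nonneg_left h1 hW0
  have h3 : D.Wx * (96 * C1 * D.TV) = 96 * C1 * (D.Wx * D.TV) := by ring
  rw [h3] at h2
  linarith

end Wd

end H50RC
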