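import Pool.Agent.H83.RC.Rdef
import Pool.Agent.H83.RC.Ref

/-!
S05864 [H83 RC PX]: small additions: the partition, `LOK` from the hypotheses on the marks.
-/

set_option autoImplicit false

namespace H50RC

theorem lt_st_add {j : ℕ} {w : ℕ → Bool → ℝ} (x : ℕ) : x < st j w x + 2 ^ j := by
  have h1 := st_block (j := j) (w := w) x
  have h2 : 0 < 2 ^ j := by positivity
  have h3 := Nat.div_add_mod x (2 ^ j)
  have h4 := Nat.mod_lt x h2
  have h5 := Nat.div_mul_le_self (st j w x) (2 ^ j)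
  rw [h1] at h5
  have h6 : 2 ^ j * (x / 2 ^ j) = x / 2 ^ j * 2 ^ j := Nat.mul_comm _ _
  omega

theorem w_sd_three {j : ℕ} {w : ℕ → Bool → ℝ} (h0 : ∀ x c, 0 ≤ w x c) {x x' : ℕ} (h : st j w x = st j w x') :
    w x (sd j w x) ≤ 3 * w x' (sd j w x) := by
  have hs : sd j w x = sd j w x' := by
    unfold sd
    rw [h]
  have h1 := w_close (j := j) h0 x
  have h2 := w_close (j := j) h0 x'
  rw [← hs, ← h] at h2
  have h3 := h0 (st j w x) (sd j w x)
  rw [abs_le] at h1 h2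
  linarith [h1.1, h1.2, h2.1, h2.2]

theorem LOK_of {N K m L R : ℕ} {ε C1 : ℝ} (hK : 1 ≤ K) (hm : 2 ≤ m) (hL : 0 < L) (hmL : m ∣ L) (hε : 0 < ε)
    (hε1 : ε ≤ 1) (hN : bigN K R m ε ≤ N) {M : Finset (Nd N)} (hM : PC M) (hM' : ∀ q ∈ M, q.length ≤ K)
    (hR : M.card ≤ R + 1) (v : Nd N → ℂ) (hC : C1c m L ε ≤ C1) : LOK K m L ε C1 M v := by
  refine ⟨fun ω χ hχ => Lam_X hM' v ω hχ, fun ω y hω hy => ?_⟩
  refine (abs_Lam_le hK hm hL hmL hε hε1 hN hy hM hM' hR v hω).trans ?_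
  exact mul_le_mul_of_nonneg_right hC (nr_nonneg _)

end H50RC
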