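import Pool.Agent.H83.RC.Gsm
import Pool.Agent.H83.RC.Coa
import Pool.Agent.H83.RC.Fcu
import Pool.Agent.H83.RC.Fci
import Pool.Agent.H83.RC.Fne
import Pool.Agent.H83.RC.Px

/-!
S05864 [H83 RC WM] (PART C4 of proofs 322): the window term: assembly.
-/

set_option autoImplicit false

namespace H50RC

namespace Wd

variable {N K m L : ℕ} {D : Wd N} {ε C1 : ℝ}

theorem dco_nonneg (D : Wd N) (K m J : ℕ) : 0 ≤ D.dco K m J := by
  unfold dco
  split
  · exact abs_nonneg _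
  · exact le_rfl

theorem dfi_nonneg (D : Wd N) (K m J : ℕ) : 0 ≤ D.dfi K m J := by
  unfold dfi
  split
  · exact abs_nonneg _
  · exact le_rfl

theorem dco_le (h : D.OK K m) (hW : 0 < D.W) (hC : 0 ≤ C1) {M : Finset (Nd N)} {v : Nd N → ℂ}
    (hM : LOK K m L ε C1 M v) {J : ℕ} (hJ : J ≤ D.d) :
    D.dco K m J ≤ D.cs K m L ε M v J + 20 * C1 * (D.V K + D.SE) := by
  unfold dco
  rw [if_pos hJ]
  exact coa_le h hW hC hM hJ

theorem dfi_le (h : D.OK K m) (hW : 0 < D.W) (hC : 0 ≤ C1) {M : ℕ → Finset (Nd N)} {v : ℕ → Nd N → ℂ}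
    (hM : ∀ a, LOK K m L ε C1 (M a) (v a)) {J : ℕ} (hJ : J ≤ D.d) :
    D.dfi K m J ≤ D.fs K m L ε M v J + 450 * C1 * (D.V K + D.SE) := by
  classical
  unfold dfi
  rw [if_pos hJ, fine_abel h hM hJ]
  have h1 := cut_sum_le h hC (hM 0) hJ
  have h2 := mean_sub_le h hW hC hM hJ
  have h3 := near_le h hW hC hM hJ
  have h4 : |∑ x ∈ Finset.Ico 1 (2 ^ D.d), sg (sd J D.w x) *
      D.LF K m L ε M v J x (if sd J D.w x then D.ψ x else -D.ψ x)| ≤ C1 * D.V K := by
    refine (Finset.abs_sum_le_sum_abs _ _).trans ?_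
    unfold Wd.V
    rw [Finset.mul_sum]
    refine Finset.sum_le_sum fun x hx => ?_
    rw [Finset.mem_Ico] at hx
    have e1 : |sg (sd J D.w x)| = 1 := by
      unfold sg
      split <;> simp
    rw [abs_mul, e1, one_mul]
    split
    · exact LF_le h hC hM hJ hx.2.le (h.ψ_mem x hx.1 hx.2)
    · rw [← nr_neg (D.ψ x)]
      exact LF_le h hC hM hJ hx.2.le ((Vs N K).neg_mem (h.ψ_mem x hx.1 hx.2))
  have hTV := h.tv_le
  have hV := D.V_nonneg (K := K)
  have hS := SE_nonneg h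
  have hTV' : C1 * (D.Wx * D.TV) ≤ C1 * (3 * D.V K + D.SE) := mul_le_mul_of_nonneg_left hTV hC
  have hCV : 0 ≤ C1 * D.V K := mul_nonneg hC hV
  have hCS : 0 ≤ C1 * D.SE := mul_nonneg hC hS
  rw [abs_le] at h1 h2 h3 h4 ⊢
  constructor <;> nlinarith [h1.1, h1.2, h2.1, h2.2, h3.1, h3.2, h4.1, h4.2]

theorem win_le (h : D.OK K m) (hW : 0 < D.W) (hC : 0 ≤ C1) {M : Finset (Nd N)} {v : Nd N → ℂ}
    (hM : LOK K m L ε C1 M v) (J : ℕ) :
    |D.win K m| ≤ D.gs K m (D.jj J) + D.dco K m J + D.dfi K m J + (if J ≤ D.d then 0 else 8 * C1 * D.W) +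
      500 * C1 * (D.V K + D.SE) := by
  have h0 := D.jj_le J
  rw [win_eq h h0]
  have h1 := G_le h hW h0
  have h2 := E1_le h hC hM h0
  have hV := D.V_nonneg (K := K)
  have hS := SE_nonneg h
  have hCV : 0 ≤ C1 * D.V K := mul_nonneg hC hV
  have hCS : 0 ≤ C1 * D.SE := mul_nonneg hC hS
  by_cases hJ : J ≤ D.d
  · have hj : D.jj J = J := by
      unfold jj
      rw [if_pos hJ]
    rw [hj] at h1 h2 ⊢
    have h3 : |∑ x ∈ Finset.Ico 1 (2 ^ D.d),
        pr K m (omc J D.om x) (D.w x false • D.Xi x true - D.w x true • D.Xi x false)| = D.dco K m J := by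
      unfold dco
      rw [if_pos hJ]
    have h4 : |∑ x ∈ Finset.Ico 1 (2 ^ D.d),
        sg (sd J D.w x) * pr K m (omf J D.om x) (D.Xi x (sd J D.w x))| = D.dfi K m J := by
      unfold dfi
      rw [if_pos hJ]
    rw [if_pos hJ]
    have h5 := h3.le
    have h6 := h4.le
    rw [abs_le] at h1 h2 h5 h6 ⊢
    constructor <;> nlinarith [h1.1, h1.2, h2.1, h2.2, h5.1, h5.2, h6.1, h6.2]
  · have hj : D.jj J = 0 := by
      unfold jj
      rw [if_neg hJ]
    rw [hj] at h1 h2 ⊢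
    have h3 : D.dco K m J = 0 := by
      unfold dco
      rw [if_neg hJ]
    have h4 : D.dfi K m J = 0 := by
      unfold dfi
      rw [if_neg hJ]
    have h5 : ∑ x ∈ Finset.Ico 1 (2 ^ D.d),
        sg (sd 0 D.w x) * pr K m (omf 0 D.om x) (D.Xi x (sd 0 D.w x)) = 0 := by
      refine Finset.sum_eq_zero fun x _ => ?_
      rw [omf_zero_exp, pr_zero_left, mul_zero]
    have h6 : ∑ x ∈ Finset.Ico 1 (2 ^ D.d),
        pr K m (omc 0 D.om x) (D.w x false • D.Xi x true - D.w x true • D.Xi x false) =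
        ∑ x ∈ Finset.Ico 1 (2 ^ D.d),
          pr K m (D.om x) (D.w x false • D.Xi x true - D.w x true • D.Xi x false) := by
      refine Finset.sum_congr rfl fun x _ => ?_
      rw [omc_zero_exp]
    have h7 := Dco_triv h hC hM
    rw [h3, h4, h5, h6, if_neg hJ]
    rw [abs_le] at h1 h2 h7 ⊢
    constructor <;> nlinarith [h1.1, h1.2, h2.1, h2.2, h7.1, h7.2]

end Wd

end H50RC
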