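import Pool.Agent.H83.RC.Edef
import Pool.Agent.H83.RC.Ref

/-!
S05864 [H83 RC EB] (PART C5 of proofs 322, (5.2)): energies of the coarse and the fine part.

`B = 2^j`, `n = 2^d = B 2^(d-j)`. `vv_lip`: `v = w(1-w)`, `|v - v'| = |w - w'| |1 - w - w'| ≤ |w - w'|`.
`coarse_le`: in every block `{bB, …, bB + B - 1}` (`b < 2^(d-j)`) the slope `ds = dsl j om` is constant, `ds = B⁻¹ ∑_r dd (bB + r)` (`dsl_avg`), so `nq ds ≤ B⁻¹ ∑_r nq (dd (bB + r))` (`nq_sum_le`, `nq_smul`), and `nq ds ≤ 4 K B⁻²` (`nq_dsl_le`).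
Let `μ = min_r vv (bB + r)` and `T_b = ∑_{bB < x < bB + B} |w x true - w (x-1) true|`; `vv (bB + r) ≤ μ + T_b`. Hence `∑_r vv nq ds ≤ B μ nq ds + B T_b nq ds ≤ μ ∑_r nq (dd) + B T_b 4 K B⁻² ≤ ∑_r vv nq (dd) + 4 K B⁻¹ T_b`.
Sum over the blocks (`∑_{x<n} f x = ∑_{b<2^(d-j)} ∑_{r<B} f (bB + r)`, `Finset.sum_range_mul`-like or `Nat.sum_range_...`, `∑_b T_b ≤ TV`).
`fine_le`: `omf (x+1) - omf x = dd x - dsl j om x` (`omc_succ`), `nq ≤ 2 nq dd + 2 nq dsl`, `w_s ≤ 4 vv` (`w_sd_le4`): `∑ w_s nq ≤ 8 ∑ vv nq dd + 8 ∑ vv nq dsl ≤ 16 ∑ vv nq dd + 32 K B⁻¹ TV`.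
-/

set_option autoImplicit false

namespace H50RC

private theorem sum_blk (f : ℕ → ℝ) (B m : ℕ) :
    ∑ x ∈ Finset.range (m * B), f x = ∑ b ∈ Finset.range m, ∑ r ∈ Finset.range B, f (b * B + r) := by
  induction m with
  | zero => simp
  | succ m ih => rw [Nat.succ_mul, Finset.sum_range_add, ih, Finset.sum_range_succ]

private theorem tele (w : ℕ → ℝ) (a r : ℕ) {r' : ℕ} (hr : r ≤ r') :
    |w (a + r') - w (a + r)| ≤ ∑ k ∈ Finset.range (r' + 1), |w (a + k) - w (a + k - 1)| := by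
  induction r', hr using Nat.le_induction with
  | base =>
    rw [sub_self, abs_zero]
    exact Finset.sum_nonneg fun _ _ => abs_nonneg _
  | succ r' hr ih =>
    rw [Finset.sum_range_succ]
    have h1 : a + (r' + 1) - 1 = a + r' := by omega
    rw [h1]
    have h2 := abs_add_le (w (a + r') - w (a + r)) (w (a + (r' + 1)) - w (a + r'))
    have h3 : w (a + r') - w (a + r) + (w (a + (r' + 1)) - w (a + r')) = w (a + (r' + 1)) - w (a + r) := by ring
    rw [h3] at h2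
    linarith

private theorem tele2 (w : ℕ → ℝ) (a B : ℕ) {r r' : ℕ} (hr : r < B) (hr' : r' < B) :
    |w (a + r') - w (a + r)| ≤ ∑ k ∈ Finset.range B, |w (a + k) - w (a + k - 1)| := by
  have hm : ∀ s, s < B → ∑ k ∈ Finset.range (s + 1), |w (a + k) - w (a + k - 1)| ≤
      ∑ k ∈ Finset.range B, |w (a + k) - w (a + k - 1)| := by
    intro s hs
    refine Finset.sum_le_sum_of_subset_of_nonneg ?_ fun _ _ _ => abs_nonneg _
    intro k hk
    have := Finset.mem_range.1 hk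
    exact Finset.mem_range.2 (by omega)
  rcases le_total r r' with h | h
  · exact (tele w a r h).trans (hm r' hr')
  · rw [abs_sub_comm]
    exact (tele w a r' h).trans (hm r hr)

namespace Wd

variable {N K m : ℕ} {D : Wd N}

theorem vv_nonneg (h : D.OK K m) (x : ℕ) : 0 ≤ D.vv x := by
  exact mul_nonneg (h.w_nonneg x false) (h.w_nonneg x true)

theorem vv_lip (h : D.OK K m) (x x' : ℕ) : |D.vv x - D.vv x'| ≤ |D.w x true - D.w x' true| := by
  have e : D.vv x - D.vv x' = (D.w x true - D.w x' true) * (1 - D.w x true - D.w x' true) := by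
    unfold vv
    have e1 : D.w x false = 1 - D.w x true := by linarith [h.w_sum x]
    have e2 : D.w x' false = 1 - D.w x' true := by linarith [h.w_sum x']
    rw [e1, e2]
    ring
  rw [e, abs_mul]
  have h1 : |1 - D.w x true - D.w x' true| ≤ 1 := by
    rw [abs_le]
    constructor <;> linarith [h.w_nonneg x true, h.w_nonneg x' true, w_le_one h x true, w_le_one h x' true]
  calc |D.w x true - D.w x' true| * |1 - D.w x true - D.w x' true|
      ≤ |D.w x true - D.w x' true| * 1 := mul_le_mul_of_nonneg_left h1 (abs_nonneg _)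
    _ = |D.w x true - D.w x' true| := mul_one _

theorem coarse_le (h : D.OK K m) {j : ℕ} (hj : j ≤ D.d) :
    ∑ x ∈ Finset.range (2 ^ D.d), D.vv x * nq K (dsl j D.om x) ≤
      ∑ x ∈ Finset.range (2 ^ D.d), D.vv x * nq K (D.dd x) + 4 * K * ((2 : ℝ) ^ j)⁻¹ * D.TV := by
  have hd : 2 ^ D.d = 2 ^ (D.d - j) * 2 ^ j := by
    rw [← pow_add]
    congr 1
    omega
  have hBn : 0 < 2 ^ j := by positivity
  have hB : (0 : ℝ) < 2 ^ j := by positivity
  -- the total variation as a sum over all cells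
  have hTV : D.TV = ∑ b ∈ Finset.range (2 ^ (D.d - j)), ∑ r ∈ Finset.range (2 ^ j),
      |D.w (b * 2 ^ j + r) true - D.w (b * 2 ^ j + r - 1) true| := by
    rw [← sum_blk (fun x => |D.w x true - D.w (x - 1) true|) (2 ^ j) (2 ^ (D.d - j)), ← hd]
    unfold TV
    obtain ⟨n, hn⟩ : ∃ n, 2 ^ D.d = n + 1 := ⟨2 ^ D.d - 1, by
      have := Nat.one_le_two_pow (n := D.d)
      omega⟩
    rw [hn, Finset.range_eq_Ico, Finset.sum_eq_sum_Ico_succ_bot (Nat.succ_pos n)]
    simp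
  -- a block
  have hblk : ∀ b ∈ Finset.range (2 ^ (D.d - j)),
      ∑ r ∈ Finset.range (2 ^ j), D.vv (b * 2 ^ j + r) * nq K (dsl j D.om (b * 2 ^ j + r)) ≤
        ∑ r ∈ Finset.range (2 ^ j), D.vv (b * 2 ^ j + r) * nq K (D.dd (b * 2 ^ j + r)) +
          4 * K * ((2 : ℝ) ^ j)⁻¹ * ∑ r ∈ Finset.range (2 ^ j),
            |D.w (b * 2 ^ j + r) true - D.w (b * 2 ^ j + r - 1) true| := by
    intro b hb
    have hb' := Finset.mem_range.1 hb
    have hin : ∀ r, r < 2 ^ j → b * 2 ^ j + r < 2 ^ D.d := by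
      intro r hr
      rw [hd]
      calc b * 2 ^ j + r < b * 2 ^ j + 2 ^ j := by omega
        _ = (b + 1) * 2 ^ j := by ring
        _ ≤ 2 ^ (D.d - j) * 2 ^ j := Nat.mul_le_mul_right _ hb'
    obtain ⟨T, hT⟩ : ∃ T : ℝ, T = ∑ r ∈ Finset.range (2 ^ j),
      |D.w (b * 2 ^ j + r) true - D.w (b * 2 ^ j + r - 1) true| := ⟨_, rfl⟩
    have hT0 : 0 ≤ T := by
      rw [hT]
      exact Finset.sum_nonneg fun _ _ => abs_nonneg _
    rw [← hT]
    obtain ⟨r0, hr0, hmin⟩ := Finset.exists_min_image (Finset.range (2 ^ j))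
      (fun r => D.vv (b * 2 ^ j + r)) ⟨0, Finset.mem_range.2 hBn⟩
    have hr0' := Finset.mem_range.1 hr0
    have hup : ∀ r ∈ Finset.range (2 ^ j), D.vv (b * 2 ^ j + r) ≤ D.vv (b * 2 ^ j + r0) + T := by
      intro r hr
      have a1 := vv_lip h (b * 2 ^ j + r) (b * 2 ^ j + r0)
      have a2 := tele2 (fun x => D.w x true) (b * 2 ^ j) (2 ^ j) hr0' (Finset.mem_range.1 hr)
      rw [← hT] at a2
      have a3 := (abs_le.1 (a1.trans a2)).2
      linarith
    -- the slope of the block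
    obtain ⟨q, hq⟩ : ∃ q : ℝ, q = nq K (dsl j D.om (b * 2 ^ j + 0)) := ⟨_, rfl⟩
    have hqr : ∀ r ∈ Finset.range (2 ^ j), nq K (dsl j D.om (b * 2 ^ j + r)) = q := by
      intro r hr
      rw [hq, dsl_block j D.om (Finset.mem_range.1 hr), dsl_block j D.om hBn]
    have hq0 : 0 ≤ q := by
      rw [hq]
      exact nq_nonneg _
    have hq1 : q ≤ 4 * K * (((2 : ℝ) ^ j)⁻¹) ^ 2 := by
      rw [hq]
      exact nq_dsl_le hj h.om_BB (hin 0 hBn)
    have hq2 : (2 : ℝ) ^ j * q ≤ ∑ r ∈ Finset.range (2 ^ j), nq K (D.dd (b * 2 ^ j + r)) := by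
      have a1 := nq_sum_le (K := K) (Finset.range (2 ^ j)) (fun r => D.om (b * 2 ^ j + r + 1) - D.om (b * 2 ^ j + r))
      rw [Finset.card_range] at a1
      push_cast at a1
      have a2 : q = (((2 : ℝ) ^ j)⁻¹) ^ 2 *
          nq K (∑ r ∈ Finset.range (2 ^ j), (D.om (b * 2 ^ j + r + 1) - D.om (b * 2 ^ j + r))) := by
        rw [hq, dsl_avg j D.om hBn, nq_smul]
      have a3 : (2 : ℝ) ^ j * q ≤ (2 : ℝ) ^ j * ((((2 : ℝ) ^ j)⁻¹) ^ 2 * ((2 : ℝ) ^ j *
          ∑ r ∈ Finset.range (2 ^ j), nq K (D.om (b * 2 ^ j + r + 1) - D.om (b * 2 ^ j + r)))) := by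
        rw [a2]
        exact mul_le_mul_of_nonneg_left (mul_le_mul_of_nonneg_left a1 (by positivity)) hB.le
      have a4 : (2 : ℝ) ^ j * ((((2 : ℝ) ^ j)⁻¹) ^ 2 * ((2 : ℝ) ^ j *
          ∑ r ∈ Finset.range (2 ^ j), nq K (D.om (b * 2 ^ j + r + 1) - D.om (b * 2 ^ j + r)))) =
          ∑ r ∈ Finset.range (2 ^ j), nq K (D.om (b * 2 ^ j + r + 1) - D.om (b * 2 ^ j + r)) := by
        field_simp
      rw [a4] at a3
      exact a3
    calc ∑ r ∈ Finset.range (2 ^ j), D.vv (b * 2 ^ j + r) * nq K (dsl j D.om (b * 2 ^ j + r))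
        ≤ ∑ r ∈ Finset.range (2 ^ j), (D.vv (b * 2 ^ j + r0) + T) * q := by
          refine Finset.sum_le_sum fun r hr => ?_
          rw [hqr r hr]
          exact mul_le_mul_of_nonneg_right (hup r hr) hq0
      _ = D.vv (b * 2 ^ j + r0) * ((2 : ℝ) ^ j * q) + (2 : ℝ) ^ j * T * q := by
          rw [Finset.sum_const, Finset.card_range, nsmul_eq_mul]
          push_cast
          ring
      _ ≤ D.vv (b * 2 ^ j + r0) * ∑ r ∈ Finset.range (2 ^ j), nq K (D.dd (b * 2 ^ j + r)) +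
          (2 : ℝ) ^ j * T * (4 * K * (((2 : ℝ) ^ j)⁻¹) ^ 2) :=
          add_le_add (mul_le_mul_of_nonneg_left hq2 (vv_nonneg h _))
            (mul_le_mul_of_nonneg_left hq1 (mul_nonneg hB.le hT0))
      _ ≤ ∑ r ∈ Finset.range (2 ^ j), D.vv (b * 2 ^ j + r) * nq K (D.dd (b * 2 ^ j + r)) +
          4 * K * ((2 : ℝ) ^ j)⁻¹ * T := by
          refine add_le_add ?_ (le_of_eq ?_)
          · rw [Finset.mul_sum]
            exact Finset.sum_le_sum fun r hr => mul_le_mul_of_nonneg_right (hmin r hr) (nq_nonneg _)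
          · field_simp
  rw [hd, sum_blk (fun x => D.vv x * nq K (dsl j D.om x)) (2 ^ j) (2 ^ (D.d - j)),
    sum_blk (fun x => D.vv x * nq K (D.dd x)) (2 ^ j) (2 ^ (D.d - j)), hTV, Finset.mul_sum,
    ← Finset.sum_add_distrib]
  exact Finset.sum_le_sum hblk

theorem fine_le (h : D.OK K m) {j : ℕ} (hj : j ≤ D.d) :
    ∑ x ∈ Finset.range (2 ^ D.d), D.w x (sd j D.w x) * nq K (omf j D.om (x + 1) - omf j D.om x) ≤
      16 * ∑ x ∈ Finset.range (2 ^ D.d), D.vv x * nq K (D.dd x) + 32 * K * ((2 : ℝ) ^ j)⁻¹ * D.TV := by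
  have h1 := coarse_le h hj
  have h2 : ∀ x ∈ Finset.range (2 ^ D.d), D.w x (sd j D.w x) * nq K (omf j D.om (x + 1) - omf j D.om x) ≤
      8 * (D.vv x * nq K (D.dd x)) + 8 * (D.vv x * nq K (dsl j D.om x)) := by
    intro x _
    have e : omf j D.om (x + 1) - omf j D.om x = D.dd x - dsl j D.om x := by
      unfold omf dd
      rw [omc_succ]
      abel
    rw [e]
    have a1 := nq_sub_le (K := K) (D.dd x) (dsl j D.om x)
    have a2 := w_sd_le4 (j := j) h.w_nonneg h.w_sum x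
    have a3 : 0 ≤ nq K (D.dd x - dsl j D.om x) := nq_nonneg _
    have a4 : 0 ≤ D.vv x := vv_nonneg h x
    calc D.w x (sd j D.w x) * nq K (D.dd x - dsl j D.om x)
        ≤ 4 * D.vv x * nq K (D.dd x - dsl j D.om x) := mul_le_mul_of_nonneg_right a2 a3
      _ ≤ 4 * D.vv x * (2 * nq K (D.dd x) + 2 * nq K (dsl j D.om x)) :=
          mul_le_mul_of_nonneg_left a1 (by linarith)
      _ = 8 * (D.vv x * nq K (D.dd x)) + 8 * (D.vv x * nq K (dsl j D.om x)) := by ring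
  have h3 := Finset.sum_le_sum h2
  rw [Finset.sum_add_distrib, ← Finset.mul_sum, ← Finset.mul_sum] at h3
  linarith

end Wd

end H50RC
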