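import Pool.Agent.H83.RC.Rdef

/-!
S05864 [H83 RC EDEF]: definitions of the energies (PART C5 of proofs 322). No gaps.
-/

set_option autoImplicit false

namespace H50RC

namespace Wd

variable {N : ℕ}

/-- `m_x = w_0 ν^0_x + w_1 ν^1_x` -/
noncomputable def mm (D : Wd N) (x : ℕ) : Om N := D.w x false • D.nu x false + D.w x true • D.nu x true

/-- `d_x = ω_(x+1) - ω_x` -/
def dd (D : Wd N) (x : ℕ) : Om N := D.om (x + 1) - D.om x

/-- the quantity of (5.1) -/
noncomputable def e0 (D : Wd N) (K : ℕ) : ℝ :=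
  D.Wx * (dy (fun i k => nq K (hd D.mm i k)) D.d 0 + ∑ x ∈ Finset.range (2 ^ D.d), D.vv x * nq K (D.dd x))

/-- energy of the reference slopes -/
noncomputable def en1 (D : Wd N) (K J : ℕ) : ℝ :=
  D.Wx * dy (fun i k => nq K (hd (D.nuref (D.jj J)) i k)) D.d 0

/-- energy of the fine part -/
noncomputable def en2 (D : Wd N) (K J : ℕ) : ℝ :=
  if J ≤ D.d then D.Wx * ∑ x ∈ D.far J, D.w x (sd J D.w x) * nq K (omf J D.om (x + 1) - omf J D.om x) else 0

/-- energy of the coarse part -/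
noncomputable def en3 (D : Wd N) (K J : ℕ) : ℝ :=
  if J ≤ D.d then D.Wx * ∑ x ∈ D.ne, D.vv x * nq K (dsl J D.om x) else 0

end Wd

end H50RC
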