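import Pool.Agent.H83.RC.Wid

/-!
S05864 [H83 RC FLF] (PART C4 of proofs 322, (4.4)): the fine part: properties of the functionals `LF` and summation by parts.
-/

set_option autoImplicit false

namespace H50RC

namespace Wd

variable {N K m L : ℕ} {D : Wd N} {ε C1 : ℝ} {M : ℕ → Finset (Nd N)} {v : ℕ → Nd N → ℂ}

theorem LF_add (D : Wd N) (j x : ℕ) (y z : Y N) :
    D.LF K m L ε M v j x (y + z) = D.LF K m L ε M v j x y + D.LF K m L ε M v j x z := by
  rw [LF, LF, LF]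
  split_ifs
  · rw [add_zero]
  · exact Lam_add _ _ _ _ _

theorem LF_smul (D : Wd N) (j x : ℕ) (c : ℝ) (y : Y N) :
    D.LF K m L ε M v j x (c • y) = c * D.LF K m L ε M v j x y := by
  rw [LF, LF]
  split_ifs
  · rw [mul_zero]
  · exact Lam_smul _ _ _ _ _

theorem LF_neg (D : Wd N) (j x : ℕ) (y : Y N) : D.LF K m L ε M v j x (-y) = -D.LF K m L ε M v j x y := by
  rw [← neg_one_smul ℝ y, LF_smul, neg_one_mul]

theorem LF_sub (D : Wd N) (j x : ℕ) (y z : Y N) :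
    D.LF K m L ε M v j x (y - z) = D.LF K m L ε M v j x y - D.LF K m L ε M v j x z := by
  rw [sub_eq_add_neg, LF_add, LF_neg, ← sub_eq_add_neg]

theorem LF_le (h : D.OK K m) (hC : 0 ≤ C1) (hM : ∀ a, LOK K m L ε C1 (M a) (v a)) {j : ℕ} (hj : j ≤ D.d) {x : ℕ}
    (hx : x ≤ 2 ^ D.d) {y : Y N} (hy : y ∈ Vs N K) : |D.LF K m L ε M v j x y| ≤ C1 * nr K y := by
  rw [LF]
  split_ifs
  · rw [abs_zero]
    exact mul_nonneg hC (nr_nonneg _)
  · exact (hM _).2 _ _ ((omf_BB hj h.om_BB hx).mono (by norm_num)) hy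

theorem LF_mul (D : Wd N) {j x : ℕ} (hx : 2 ^ j ∣ x) (y : Y N) : D.LF K m L ε M v j x y = 0 := by
  rw [LF, if_neg (fun h => h.2 hx), omf_mul _ hx]
  exact Lam_zero _ _ _

theorem LF_ne {j x : ℕ} {y : Y N} (h : D.LF K m L ε M v j x y ≠ 0) :
    1 ≤ x ∧ ¬ 2 ^ j ∣ x ∧ ¬ Cut j D.w x ∧ st j D.w x = st j D.w (x - 1) ∧ sd j D.w x = sd j D.w (x - 1) := by
  have h1 : ¬ 2 ^ j ∣ x := fun h2 => h (LF_mul D h2 y)
  have h2 : ¬ Cut j D.w x := by
    intro h3
    apply h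
    rw [LF, if_pos h3]
  have h3 : 1 ≤ x := by
    rcases Nat.eq_zero_or_pos x with h4 | h4
    · exact absurd (h4 ▸ dvd_zero _) h1
    · exact h4
  obtain ⟨z, rfl⟩ : ∃ z, x = z + 1 := ⟨x - 1, by omega⟩
  have h4 := st_succ_of h1 h2
  rw [Nat.add_sub_cancel]
  refine ⟨h3, h1, h2, h4, ?_⟩
  rw [sd, sd, h4]

/-- at a cell which is not next to a cut the two functionals have the same marks -/
theorem LF_far {j x : ℕ} (h1 : ¬ Cut j D.w x) (h2 : ¬ Cut j D.w (x + 1)) (y : Y N) :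
    D.LF K m L ε M v j (x + 1) y - D.LF K m L ε M v j x y =
      D.TF K m L ε (M (st j D.w x)) (v (st j D.w x)) j x y := by
  rw [LF, LF, if_neg h1, if_neg h2, TF]
  congr 1
  by_cases h3 : 2 ^ j ∣ x + 1
  · rw [omf_mul _ h3, Lam_zero, Lam_zero]
  · rw [st_succ_of h3 h2]

theorem flf_swap (D : Wd N) (j x : ℕ) (g : Bool → Y N) :
    sg (sd j D.w x) * D.LF K m L ε M v j x (g (sd j D.w x)) =
      sg (sd j D.w (x - 1)) * D.LF K m L ε M v j x (g (sd j D.w (x - 1))) := by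
  by_cases h : sd j D.w x = sd j D.w (x - 1)
  · rw [h]
  · have h1 : ∀ y : Y N, D.LF K m L ε M v j x y = 0 := by
      intro y
      by_contra h2
      exact h (LF_ne h2).2.2.2.2
    rw [h1, h1, mul_zero, mul_zero]

open Classical in
theorem fine_abel (h : D.OK K m) (hM : ∀ a, LOK K m L ε C1 (M a) (v a)) {j : ℕ} (hj : j ≤ D.d) :
    ∑ x ∈ Finset.Ico 1 (2 ^ D.d), sg (sd j D.w x) * pr K m (omf j D.om x) (D.Xi x (sd j D.w x)) =
      ∑ x ∈ (Finset.Ico 1 (2 ^ D.d)).filter (fun x => Cut j D.w x),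
        sg (sd j D.w x) * pr K m (omf j D.om x) (D.Xi x (sd j D.w x)) +
      ∑ x ∈ Finset.Ico 1 (2 ^ D.d), sg (sd j D.w x) * D.LF K m L ε M v j x (if sd j D.w x then D.ψ x else -D.ψ x) +
      ∑ x ∈ Finset.range (2 ^ D.d), sg (sd j D.w x) *
        (D.LF K m L ε M v j (x + 1) (D.y x (sd j D.w x)) - D.LF K m L ε M v j x (D.y x (sd j D.w x))) := by
  have h1 : ∀ x ∈ Finset.Ico 1 (2 ^ D.d), sg (sd j D.w x) * pr K m (omf j D.om x) (D.Xi x (sd j D.w x)) =
      (if Cut j D.w x then sg (sd j D.w x) * pr K m (omf j D.om x) (D.Xi x (sd j D.w x)) else 0) +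
      (sg (sd j D.w x) * D.LF K m L ε M v j x (if sd j D.w x then D.ψ x else -D.ψ x) +
      (sg (sd j D.w (x - 1)) * D.LF K m L ε M v j x (D.y (x - 1) (sd j D.w (x - 1))) -
        sg (sd j D.w x) * D.LF K m L ε M v j x (D.y x (sd j D.w x)))) := by
    intro x hx
    rw [Finset.mem_Ico] at hx
    rw [← flf_swap D j x (fun c => D.y (x - 1) c)]
    by_cases hc : Cut j D.w x
    · have h2 : ∀ y : Y N, D.LF K m L ε M v j x y = 0 := by
        intro y
        rw [LF, if_pos hc]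
      rw [if_pos hc, h2, h2, h2, mul_zero]
      ring
    · have h3 : pr K m (omf j D.om x) (D.Xi x (sd j D.w x)) = D.LF K m L ε M v j x (D.Xi x (sd j D.w x)) := by
        rw [LF, if_neg hc]
        exact ((hM _).1 _ _ (Xi_mem h hx.1 hx.2 _)).symm
      rw [if_neg hc, h3, Xi, LF_sub, LF_add]
      ring
  rw [Finset.sum_congr rfl h1, Finset.sum_add_distrib, Finset.sum_add_distrib, ← Finset.sum_filter, ← add_assoc]
  congr 1
  have h4 := abel (fun x => sg (sd j D.w (x - 1)) * D.LF K m L ε M v j x (D.y (x - 1) (sd j D.w (x - 1))))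
    (fun x => sg (sd j D.w x) * D.LF K m L ε M v j x (D.y x (sd j D.w x))) (n := 2 ^ D.d) Nat.one_le_two_pow
  have h5 : D.LF K m L ε M v j (2 ^ D.d) (D.y (2 ^ D.d - 1) (sd j D.w (2 ^ D.d - 1))) = 0 :=
    LF_mul D (pow_dvd_pow 2 hj) _
  have h6 : D.LF K m L ε M v j 0 (D.y 0 (sd j D.w 0)) = 0 := LF_mul D (dvd_zero _) _
  simp only [Nat.add_sub_cancel] at h4
  rw [h5, h6, mul_zero, mul_zero, add_zero, sub_zero] at h4
  rw [← h4]
  refine Finset.sum_congr rfl fun x _ => ?_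
  ring

end Wd

end H50RC
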