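import Pool.Agent.H83.RC.Wid

/-!
S05864 [H83 RC GSM] (PART C4 of proofs 322): the parts `G` and `E1` of the window term, and the case `W = 0`.

`prL`: `pr K m` as a bilinear map (`LinearMap.mk₂ ℝ (pr K m)` with `pr_add_left`, `pr_smul_left`, `pr_add_right`, `pr_smul_right`).
`G_le`: `∑_x pr (nuref x - ν) (yt x) = Wx ∑_x pr (nuref x - av nuref d 0) (ph x)` (`yt_eq'`, `av_nuref`) `= Wx dy (pr (hd nuref) (hd ph)) d 0` (`dy_identity` with `i = 0`), then `abs_dy_le`.
`hd_ph_mem`: `hd_mem` with `n = 2^d` and `ph_sub_mem`. `E1_le`: for non-exits `Y - yt = 0` (`yt_eq`); for exits `Y - yt ∈ Xs` (`yt_rel`, negative), `nr ≤ nr (y false) + nr (y true) + nr (yt) ≤ 2 S + 4 Wx ≤ 4 S`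
(`y_ex`, `yt_le`, `ex_le`), `nuref ∈ BB 8` and `M1_eight`: `≤ 2 C1 4 S_x`.
`win_zero` (`W = 0`, all cells are exits, `Wx = 0`): by `yt_le` all `nr (yt x) = 0`; use formula (A) of `Wid`: `win = ∑ pr (ν0 x) (Y x) + ∑ pr (om x) (Xi x true) - pr ν (∑ yt)`. It is easiest to take `win_eq` with `j = 0`:
`omf = 0`, `omc = om`; the first sum vanishes (`abs_pr_le` and `nr (yt x) = 0`), the second is `≤ 8 C1 SE` (`E1_le` also for `W = 0`), the third: `om ∈ BB 1`, `Xi ∈ Xs`,
`nr (w_0 Xi true - w_1 Xi false) ≤ nr ψ x + nr (y (x-1) false) + nr (y (x-1) true) + nr (y x false) + nr (y x true) ≤ nr ψ x + 2 S_(x-1) + 2 S_x`, with `M1_four` in total `≤ C1 (V + 4 SE)`.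
`Dco_triv`: same estimate for `W > 0`: `y_le` for non-exits gives `nr (y x false) + nr (y x true) ≤ 4 Wx`, so the sum over `x` of `nr (y x false) + nr (y x true)` is `≤ 4 W + 2 SE` (`sum_Wx`); each `x` occurs twice.
-/

set_option autoImplicit false

namespace H50RC

/-- the pairing as a bilinear map -/
noncomputable def prL (K m N : ℕ) : Om N →ₗ[ℝ] Y N →ₗ[ℝ] ℝ :=
  LinearMap.mk₂ ℝ (pr K m) (fun a b y => pr_add_left m a b y) (fun c a y => pr_smul_left m c a y)
    (fun a y z => pr_add_right m a y z) (fun c a y => pr_smul_right m c a y)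

theorem prL_apply (K m N : ℕ) (ω : Om N) (y : Y N) : prL K m N ω y = pr K m ω y := rfl

namespace Wd

variable {N K m L : ℕ} {D : Wd N} {ε C1 : ℝ} {M : Finset (Nd N)} {v : Nd N → ℂ}

theorem G_le (h : D.OK K m) (hW : 0 < D.W) {j : ℕ} (hj : j ≤ D.d) :
    |∑ x ∈ Finset.range (2 ^ D.d), pr K m (D.nuref j x - D.ν) (D.yt x)| ≤ D.gs K m j := by
  have h1 := dy_identity (prL K m N) (D.nuref j) D.ph D.d 0
  simp only [zero_mul, zero_add, prL_apply] at h1
  rw [av_nuref h hj] at h1
  have h2 : ∑ x ∈ Finset.range (2 ^ D.d), pr K m (D.nuref j x - D.ν) (D.yt x) =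
      D.Wx * ∑ x ∈ Finset.range (2 ^ D.d), pr K m (D.nuref j x - D.ν) (D.ph x) := by
    rw [Finset.mul_sum]
    refine Finset.sum_congr rfl fun x _ => ?_
    rw [yt_eq' hW x, pr_smul_right]
  rw [h2, h1, abs_mul, abs_of_nonneg (Wx_nonneg h)]
  unfold gs
  refine mul_le_mul_of_nonneg_left ?_ (Wx_nonneg h)
  exact abs_dy_le _ _ _

theorem hd_ph_mem (h : D.OK K m) {i k : ℕ} (hk : (k + 1) * 2 ^ (i + 1) ≤ 2 ^ D.d) : hd D.ph i k ∈ Xs N K m := by
  exact hd_mem (Xs N K m) (f := D.ph) (n := 2 ^ D.d) (fun x y hx hy => ph_sub_mem h hx hy) hk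

theorem E1_le (h : D.OK K m) (hC : 0 ≤ C1) (hM : LOK K m L ε C1 M v) {j : ℕ} (hj : j ≤ D.d) :
    |∑ x ∈ Finset.range (2 ^ D.d), pr K m (D.nuref j x) (D.y x false + D.y x true - D.yt x)| ≤ 8 * C1 * D.SE := by
  have hx1 : ∀ x ∈ Finset.range (2 ^ D.d),
      |pr K m (D.nuref j x) (D.y x false + D.y x true - D.yt x)| ≤ if x ∈ D.ex then 8 * C1 * D.S x else 0 := by
    intro x hx
    have hx' := Finset.mem_range.1 hx
    split_ifs with hex
    · have a1 := h.yt_rel x hx'
      have a2 : D.y x false + D.y x true - D.yt x ∈ Xs N K m := by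
        have := Submodule.neg_mem _ a1
        rwa [neg_sub] at this
      have a3 := M1_eight hM (nuref_BB h hj hx') a2
      have a4 := nr_sub_le (K := K) (D.y x false + D.y x true) (D.yt x)
      have a5 := nr_add_le (K := K) (D.y x false) (D.y x true)
      have a6 := h.y_ex x hex
      have a7 := h.ex_le x hex
      have a8 := h.yt_le x hx'
      have a9 : nr K (D.y x false + D.y x true - D.yt x) ≤ 4 * D.S x := by linarith
      have a10 : 2 * C1 * nr K (D.y x false + D.y x true - D.yt x) ≤ 2 * C1 * (4 * D.S x) :=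
        mul_le_mul_of_nonneg_left a9 (by linarith)
      linarith
    · rw [h.yt_eq x hx' hex, sub_self, pr_zero_right, abs_zero]
  calc |∑ x ∈ Finset.range (2 ^ D.d), pr K m (D.nuref j x) (D.y x false + D.y x true - D.yt x)|
      ≤ ∑ x ∈ Finset.range (2 ^ D.d), |pr K m (D.nuref j x) (D.y x false + D.y x true - D.yt x)| :=
        Finset.abs_sum_le_sum_abs _ _
    _ ≤ ∑ x ∈ Finset.range (2 ^ D.d), if x ∈ D.ex then 8 * C1 * D.S x else 0 := Finset.sum_le_sum hx1
    _ = 8 * C1 * D.SE := by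
      rw [← Finset.sum_filter, Finset.filter_mem_eq_inter, Finset.inter_eq_right.2 h.ex_sub, ← Finset.mul_sum]
      rfl

theorem Dco_triv (h : D.OK K m) (hC : 0 ≤ C1) (hM : LOK K m L ε C1 M v) :
    |∑ x ∈ Finset.Ico 1 (2 ^ D.d), pr K m (D.om x) (D.w x false • D.Xi x true - D.w x true • D.Xi x false)| ≤
      C1 * (8 * D.W + D.V K + 4 * D.SE) := by
  have hn : ∀ x, x < 2 ^ D.d →
      nr K (D.y x false) + nr K (D.y x true) ≤ 4 * D.Wx + (if x ∈ D.ex then 2 * D.S x else 0) := by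
    intro x hx
    split_ifs with hex
    · linarith [h.y_ex x hex, Wx_nonneg h]
    · have a1 := h.y_le x hx hex false
      have a2 := h.y_le x hx hex true
      have a3 : 4 * (D.Wx * D.w x false) + 4 * (D.Wx * D.w x true) = 4 * D.Wx := by
        rw [← mul_add, ← mul_add, h.w_sum x, mul_one]
      linarith
  have hs : ∑ x ∈ Finset.range (2 ^ D.d), (nr K (D.y x false) + nr K (D.y x true)) ≤ 4 * D.W + 2 * D.SE := by
    refine (Finset.sum_le_sum fun x hx => hn x (Finset.mem_range.1 hx)).trans (le_of_eq ?_)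
    rw [Finset.sum_add_distrib, Finset.sum_const, Finset.card_range, nsmul_eq_mul, ← Finset.sum_filter,
      Finset.filter_mem_eq_inter, Finset.inter_eq_right.2 h.ex_sub, ← Finset.mul_sum, ← sum_Wx D]
    unfold SE
    push_cast
    ring
  have hx1 : ∀ x ∈ Finset.Ico 1 (2 ^ D.d),
      |pr K m (D.om x) (D.w x false • D.Xi x true - D.w x true • D.Xi x false)| ≤
        C1 * (nr K (D.ψ x) + ((nr K (D.y (x - 1) false) + nr K (D.y (x - 1) true)) +
          (nr K (D.y x false) + nr K (D.y x true)))) := by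
    intro x hx
    obtain ⟨hx0, hx2⟩ := Finset.mem_Ico.1 hx
    have m1 := Xi_mem h hx0 hx2 true
    have m0 := Xi_mem h hx0 hx2 false
    have m2 := Submodule.sub_mem _ (Submodule.smul_mem _ (D.w x false) m1) (Submodule.smul_mem _ (D.w x true) m0)
    have b1 : BB K 4 (D.om x) := (h.om_BB x hx2.le).mono (by norm_num)
    refine (M1_four hM b1 m2).trans (mul_le_mul_of_nonneg_left ?_ hC)
    have c1 := nr_sub_le (K := K) (D.w x false • D.Xi x true) (D.w x true • D.Xi x false)
    rw [nr_smul, nr_smul, abs_of_nonneg (h.w_nonneg x false), abs_of_nonneg (h.w_nonneg x true)] at c1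
    have c2 : nr K (D.Xi x true) ≤ nr K (D.ψ x) + nr K (D.y (x - 1) true) + nr K (D.y x true) := by
      have e1 : D.Xi x true = D.ψ x + D.y (x - 1) true - D.y x true := by
        unfold Xi
        rw [if_pos rfl]
      rw [e1]
      linarith [nr_sub_le (K := K) (D.ψ x + D.y (x - 1) true) (D.y x true),
        nr_add_le (K := K) (D.ψ x) (D.y (x - 1) true)]
    have c3 : nr K (D.Xi x false) ≤ nr K (D.ψ x) + nr K (D.y (x - 1) false) + nr K (D.y x false) := by
      have e1 : D.Xi x false = -D.ψ x + D.y (x - 1) false - D.y x false := by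
        unfold Xi
        rw [if_neg (by simp)]
      rw [e1]
      have e2 := nr_neg (K := K) (D.ψ x)
      linarith [nr_sub_le (K := K) (-D.ψ x + D.y (x - 1) false) (D.y x false),
        nr_add_le (K := K) (-D.ψ x) (D.y (x - 1) false)]
    have w0 := h.w_nonneg x false
    have w1 := h.w_nonneg x true
    have v0 := w_le_one h x false
    have v1 := w_le_one h x true
    have n1 := nr_nonneg (K := K) (D.y (x - 1) true)
    have n2 := nr_nonneg (K := K) (D.y x true)
    have n3 := nr_nonneg (K := K) (D.y (x - 1) false)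
    have n4 := nr_nonneg (K := K) (D.y x false)
    have d1 := mul_le_mul_of_nonneg_left c2 w0
    have d2 := mul_le_mul_of_nonneg_left c3 w1
    have d3 : D.w x false * (nr K (D.y (x - 1) true) + nr K (D.y x true)) ≤
        1 * (nr K (D.y (x - 1) true) + nr K (D.y x true)) := mul_le_mul_of_nonneg_right v0 (by linarith)
    have d4 : D.w x true * (nr K (D.y (x - 1) false) + nr K (D.y x false)) ≤
        1 * (nr K (D.y (x - 1) false) + nr K (D.y x false)) := mul_le_mul_of_nonneg_right v1 (by linarith)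
    have d5 : D.w x false * nr K (D.ψ x) + D.w x true * nr K (D.ψ x) = nr K (D.ψ x) := by
      rw [← add_mul, h.w_sum x, one_mul]
    linarith
  have hz : ∀ x ∈ Finset.range (2 ^ D.d), 0 ≤ nr K (D.y x false) + nr K (D.y x true) :=
    fun x _ => add_nonneg (nr_nonneg _) (nr_nonneg _)
  have s1 : ∑ x ∈ Finset.Ico 1 (2 ^ D.d), (nr K (D.y x false) + nr K (D.y x true)) ≤
      ∑ x ∈ Finset.range (2 ^ D.d), (nr K (D.y x false) + nr K (D.y x true)) := by
    refine Finset.sum_le_sum_of_subset_of_nonneg ?_ fun x hx _ => hz x hx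
    intro x hx
    exact Finset.mem_range.2 (Finset.mem_Ico.1 hx).2
  have s2 : ∑ x ∈ Finset.Ico 1 (2 ^ D.d), (nr K (D.y (x - 1) false) + nr K (D.y (x - 1) true)) ≤
      ∑ x ∈ Finset.range (2 ^ D.d), (nr K (D.y x false) + nr K (D.y x true)) := by
    have e1 : ∑ x ∈ Finset.Ico 1 (2 ^ D.d), (nr K (D.y (x - 1) false) + nr K (D.y (x - 1) true)) =
        ∑ x ∈ Finset.range (2 ^ D.d - 1), (nr K (D.y x false) + nr K (D.y x true)) := by
      rw [Finset.sum_Ico_eq_sum_range]
      refine Finset.sum_congr rfl fun x _ => ?_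
      rw [Nat.add_sub_cancel_left]
    rw [e1]
    refine Finset.sum_le_sum_of_subset_of_nonneg ?_ fun x hx _ => hz x hx
    intro x hx
    have := Finset.mem_range.1 hx
    exact Finset.mem_range.2 (by omega)
  calc |∑ x ∈ Finset.Ico 1 (2 ^ D.d), pr K m (D.om x) (D.w x false • D.Xi x true - D.w x true • D.Xi x false)|
      ≤ ∑ x ∈ Finset.Ico 1 (2 ^ D.d),
          |pr K m (D.om x) (D.w x false • D.Xi x true - D.w x true • D.Xi x false)| :=
        Finset.abs_sum_le_sum_abs _ _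
    _ ≤ ∑ x ∈ Finset.Ico 1 (2 ^ D.d), C1 * (nr K (D.ψ x) + ((nr K (D.y (x - 1) false) + nr K (D.y (x - 1) true)) +
          (nr K (D.y x false) + nr K (D.y x true)))) := Finset.sum_le_sum hx1
    _ = C1 * (D.V K + (∑ x ∈ Finset.Ico 1 (2 ^ D.d), (nr K (D.y (x - 1) false) + nr K (D.y (x - 1) true)) +
          ∑ x ∈ Finset.Ico 1 (2 ^ D.d), (nr K (D.y x false) + nr K (D.y x true)))) := by
      rw [← Finset.mul_sum, Finset.sum_add_distrib (f := fun x => nr K (D.ψ x)),
        Finset.sum_add_distrib (f := fun x => nr K (D.y (x - 1) false) + nr K (D.y (x - 1) true))]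
      rfl
    _ ≤ C1 * (8 * D.W + D.V K + 4 * D.SE) := mul_le_mul_of_nonneg_left (by linarith) hC

/-- the window term for `W = 0` -/
theorem win_zero (h : D.OK K m) (hC : 0 ≤ C1) (hM : LOK K m L ε C1 M v) (hW : D.W = 0) :
    |D.win K m| ≤ C1 * (D.V K + 12 * D.SE) := by
  have e0 : D.Wx = 0 := by
    unfold Wx
    rw [hW, zero_div]
  have e1 : ∑ x ∈ Finset.range (2 ^ D.d), pr K m (D.nuref 0 x - D.ν) (D.yt x) = 0 := by
    refine Finset.sum_eq_zero fun x hx => ?_
    have hx' := Finset.mem_range.1 hx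
    have a1 := h.yt_le x hx'
    rw [e0, mul_zero] at a1
    have a2 : nr K (D.yt x) = 0 := le_antisymm a1 (nr_nonneg _)
    have a3 := abs_pr_le m (nuref_BB h (Nat.zero_le D.d) hx') (h.yt_mem x hx')
    have a4 := abs_pr_le m h.ν_BB (h.yt_mem x hx')
    rw [a2, mul_zero] at a3 a4
    rw [pr_sub_left, abs_nonpos_iff.1 a3, abs_nonpos_iff.1 a4, sub_zero]
  have e2 := win_eq h (Nat.zero_le D.d)
  have e3 : ∑ x ∈ Finset.Ico 1 (2 ^ D.d), sg (sd 0 D.w x) * pr K m (omf 0 D.om x) (D.Xi x (sd 0 D.w x)) = 0 := by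
    refine Finset.sum_eq_zero fun x _ => ?_
    rw [omf_zero_exp, pr_zero_left, mul_zero]
  have e4 : ∑ x ∈ Finset.Ico 1 (2 ^ D.d),
        pr K m (omc 0 D.om x) (D.w x false • D.Xi x true - D.w x true • D.Xi x false) =
      ∑ x ∈ Finset.Ico 1 (2 ^ D.d), pr K m (D.om x) (D.w x false • D.Xi x true - D.w x true • D.Xi x false) := by
    refine Finset.sum_congr rfl fun x _ => ?_
    rw [omc_zero_exp]
  rw [e1, e3, e4, zero_add, add_zero] at e2
  have e5 := E1_le h hC hM (Nat.zero_le D.d)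
  have e6 := Dco_triv h hC hM
  rw [e2]
  refine (abs_add_le _ _).trans ((add_le_add e5 e6).trans (le_of_eq ?_))
  rw [hW]
  ring

end Wd

end H50RC
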