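import Pool.Agent.H83.RC.Lq

/-!
S05864 [H83 RC ITP] (PART C4 of proofs 322): linear interpolation between the multiples of `2^j`.

`omc j om` = linear interpolation of `om` between the multiples of `2^j` (coarse part), `omf = om - omc` (fine part), `dsl j om x` = slope of `omc` on the cell `[x, x+1]`.

PROOFS. `omc_mul`: `x % 2^j = 0`, `x / 2^j * 2^j = x`. `omc_succ`: if `(x+1) % 2^j ≠ 0` then `(x+1)/2^j = x/2^j` and `(x+1) % 2^j = x % 2^j + 1` (`Nat.succ_div`, `Nat.div_add_mod`);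
if `2^j ∣ x+1` then `x = (x/2^j) 2^j + (2^j - 1)` and `x + 1 = (x/2^j + 1) 2^j`. `dsl_avg`: telescoping sum `∑_{r < 2^j} (om (b 2^j + r + 1) - om (b 2^j + r)) = om ((b+1) 2^j) - om (b 2^j)`
(`Finset.sum_range_sub`), and `(b 2^j + r)/2^j = b` for `r < 2^j`.
`omc_BB`: for `x < 2^d` and `j ≤ d` both `X = x/2^j 2^j` and `X' = X + 2^j` are `≤ 2^d` (`2^j ∣ 2^d`), `omc x = (1-θ) om X + θ om X'` with `θ = (x % 2^j)/2^j ∈ [0,1]`; sums over a level are convex; for `x = 2^d`: `omc_mul`.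
`omf_BB`: `BB.add` with `BB.smul (-1)`. `nq_dsl_le`: `nq (om X' - om X) ≤ 2 nq + 2 nq ≤ 4K`, times `2^(-2j)`.
-/

set_option autoImplicit false

namespace H50RC

section general

variable {E : Type} [AddCommGroup E] [Module ℝ E]

/-- linear interpolation of `om` between the multiples of `2^j` -/
noncomputable def omc (j : ℕ) (om : ℕ → E) (x : ℕ) : E :=
  om (x / 2 ^ j * 2 ^ j) + (((x % 2 ^ j : ℕ) : ℝ) / 2 ^ j) • (om ((x / 2 ^ j + 1) * 2 ^ j) - om (x / 2 ^ j * 2 ^ j))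

/-- the fine part -/
noncomputable def omf (j : ℕ) (om : ℕ → E) (x : ℕ) : E := om x - omc j om x

/-- slope of the coarse part on the cell `x` -/
noncomputable def dsl (j : ℕ) (om : ℕ → E) (x : ℕ) : E :=
  ((2 : ℝ) ^ j)⁻¹ • (om ((x / 2 ^ j + 1) * 2 ^ j) - om (x / 2 ^ j * 2 ^ j))

theorem omc_mul {j : ℕ} (om : ℕ → E) {x : ℕ} (h : 2 ^ j ∣ x) : omc j om x = om x := by
  unfold omc
  rw [Nat.div_mul_cancel h, Nat.mod_eq_zero_of_dvd h, Nat.cast_zero, zero_div, zero_smul, add_zero]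

theorem omf_mul {j : ℕ} (om : ℕ → E) {x : ℕ} (h : 2 ^ j ∣ x) : omf j om x = 0 := by
  unfold omf
  rw [omc_mul om h, sub_self]

theorem omc_add_omf (j : ℕ) (om : ℕ → E) (x : ℕ) : omc j om x + omf j om x = om x := by
  simp [omf]

private theorem itp_blk (j : ℕ) (om : ℕ → E) (b : ℕ) {r : ℕ} (hr : r ≤ 2 ^ j) :
    omc j om (b * 2 ^ j + r) = om (b * 2 ^ j) +
      ((r : ℝ) / 2 ^ j) • (om ((b + 1) * 2 ^ j) - om (b * 2 ^ j)) := by
  have hM : 0 < 2 ^ j := by positivity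
  rcases lt_or_eq_of_le hr with h | h
  · have h1 : (b * 2 ^ j + r) / 2 ^ j = b := by
      rw [Nat.add_comm, Nat.add_mul_div_right _ _ hM, Nat.div_eq_of_lt h, zero_add]
    have h2 : (b * 2 ^ j + r) % 2 ^ j = r := by
      rw [Nat.add_comm, Nat.add_mul_mod_self_right, Nat.mod_eq_of_lt h]
    unfold omc
    rw [h1, h2]
  · have h1 : b * 2 ^ j + r = (b + 1) * 2 ^ j := by rw [h]; ring
    rw [h1, omc_mul om (Dvd.intro_left _ rfl), h]
    have h2 : (((2 ^ j : ℕ) : ℝ)) / 2 ^ j = 1 := by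
      push_cast
      exact div_self (by positivity)
    rw [h2, one_smul]
    abel

theorem omc_succ (j : ℕ) (om : ℕ → E) (x : ℕ) : omc j om (x + 1) = omc j om x + dsl j om x := by
  obtain ⟨b, r, hr, hx⟩ : ∃ b r : ℕ, r < 2 ^ j ∧ x = b * 2 ^ j + r :=
    ⟨x / 2 ^ j, x % 2 ^ j, Nat.mod_lt _ (by positivity), (Nat.div_add_mod' x (2 ^ j)).symm⟩
  have hM : 0 < 2 ^ j := by positivity
  have h1 : x / 2 ^ j = b := by
    rw [hx, Nat.add_comm, Nat.add_mul_div_right _ _ hM, Nat.div_eq_of_lt hr, zero_add]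
  unfold dsl
  rw [h1, hx, itp_blk j om b hr.le]
  have h2 : b * 2 ^ j + r + 1 = b * 2 ^ j + (r + 1) := by ring
  rw [h2, itp_blk j om b hr, add_assoc, ← add_smul]
  congr 2
  push_cast
  ring

theorem omc_zero_exp (om : ℕ → E) (x : ℕ) : omc 0 om x = om x := by
  exact omc_mul om (by rw [pow_zero]; exact one_dvd x)

theorem omf_zero_exp (om : ℕ → E) (x : ℕ) : omf 0 om x = 0 := by
  exact omf_mul om (by rw [pow_zero]; exact one_dvd x)

theorem dsl_zero_exp (om : ℕ → E) (x : ℕ) : dsl 0 om x = om (x + 1) - om x := by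
  unfold dsl
  rw [pow_zero, pow_zero, Nat.div_one, mul_one, mul_one, inv_one, one_smul]

/-- the slope is constant on the blocks -/
theorem dsl_block (j : ℕ) (om : ℕ → E) {b r : ℕ} (hr : r < 2 ^ j) :
    dsl j om (b * 2 ^ j + r) = ((2 : ℝ) ^ j)⁻¹ • (om ((b + 1) * 2 ^ j) - om (b * 2 ^ j)) := by
  have hM : 0 < 2 ^ j := by positivity
  have h1 : (b * 2 ^ j + r) / 2 ^ j = b := by
    rw [Nat.add_comm, Nat.add_mul_div_right _ _ hM, Nat.div_eq_of_lt hr, zero_add]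
  unfold dsl
  rw [h1]

/-- the slope is the mean of the increments over the block -/
theorem dsl_avg (j : ℕ) (om : ℕ → E) {b r : ℕ} (hr : r < 2 ^ j) :
    dsl j om (b * 2 ^ j + r) =
      ((2 : ℝ) ^ j)⁻¹ • ∑ r' ∈ Finset.range (2 ^ j), (om (b * 2 ^ j + r' + 1) - om (b * 2 ^ j + r')) := by
  rw [dsl_block j om hr]
  congr 1
  have h1 := Finset.sum_range_sub (fun r => om (b * 2 ^ j + r)) (2 ^ j)
  have h2 : b * 2 ^ j + 2 ^ j = (b + 1) * 2 ^ j := by ring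
  simp only [add_zero, h2] at h1
  rw [← h1]
  rfl

end general

section node

variable {N K : ℕ}

theorem omc_BB {j d : ℕ} (hj : j ≤ d) {om : ℕ → Om N} (h : ∀ x, x ≤ 2 ^ d → BB K 1 (om x)) {x : ℕ} (hx : x ≤ 2 ^ d) :
    BB K 1 (omc j om x) := by
  have hM : 0 < 2 ^ j := by positivity
  rcases lt_or_eq_of_le hx with hlt | heq
  · have hX : x / 2 ^ j * 2 ^ j ≤ 2 ^ d := (Nat.div_mul_le_self x (2 ^ j)).trans hx
    have hd : 2 ^ d = 2 ^ (d - j) * 2 ^ j := by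
      rw [← pow_add]
      congr 1
      omega
    have hX' : (x / 2 ^ j + 1) * 2 ^ j ≤ 2 ^ d := by
      have h1 : x / 2 ^ j < 2 ^ (d - j) := by
        rw [Nat.div_lt_iff_lt_mul hM, ← hd]
        exact hlt
      rw [hd]
      exact Nat.mul_le_mul_right _ h1
    obtain ⟨θ, hθ⟩ : ∃ θ : ℝ, θ = ((x % 2 ^ j : ℕ) : ℝ) / 2 ^ j := ⟨_, rfl⟩
    have h0 : 0 ≤ θ := by rw [hθ]; positivity
    have h1 : θ ≤ 1 := by
      rw [hθ, div_le_one (by positivity)]
      have h2 : x % 2 ^ j ≤ 2 ^ j := (Nat.mod_lt x hM).le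
      exact_mod_cast h2
    have h3 : omc j om x = (1 - θ) • om (x / 2 ^ j * 2 ^ j) +
        θ • om ((x / 2 ^ j + 1) * 2 ^ j) := by
      unfold omc
      rw [← hθ, smul_sub, sub_smul, one_smul]
      abel
    rw [h3]
    have h4 := ((h _ hX).smul (1 - θ)).add ((h _ hX').smul θ)
    have h5 : |1 - θ| * 1 + |θ| * 1 = 1 := by
      rw [abs_of_nonneg (by linarith : 0 ≤ 1 - θ), abs_of_nonneg h0]
      ring
    rwa [h5] at h4
  · rw [omc_mul om (by rw [heq]; exact pow_dvd_pow 2 hj)]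
    exact h x hx

theorem omf_BB {j d : ℕ} (hj : j ≤ d) {om : ℕ → Om N} (h : ∀ x, x ≤ 2 ^ d → BB K 1 (om x)) {x : ℕ} (hx : x ≤ 2 ^ d) :
    BB K 2 (omf j om x) := by
  have h1 := (h x hx).add ((omc_BB hj h hx).smul (-1))
  have h2 : omf j om x = om x + (-1 : ℝ) • omc j om x := by
    unfold omf
    rw [neg_one_smul, sub_eq_add_neg]
  rw [h2]
  refine h1.mono ?_
  rw [abs_neg, abs_one]
  norm_num

theorem nq_dsl_le {j d : ℕ} (hj : j ≤ d) {om : ℕ → Om N} (h : ∀ x, x ≤ 2 ^ d → BB K 1 (om x)) {x : ℕ} (hx : x < 2 ^ d) :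
    nq K (dsl j om x) ≤ 4 * K * (((2 : ℝ) ^ j)⁻¹) ^ 2 := by
  have hM : 0 < 2 ^ j := by positivity
  have hX : x / 2 ^ j * 2 ^ j ≤ 2 ^ d := (Nat.div_mul_le_self x (2 ^ j)).trans hx.le
  have hd : 2 ^ d = 2 ^ (d - j) * 2 ^ j := by
    rw [← pow_add]
    congr 1
    omega
  have hX' : (x / 2 ^ j + 1) * 2 ^ j ≤ 2 ^ d := by
    have h1 : x / 2 ^ j < 2 ^ (d - j) := by
      rw [Nat.div_lt_iff_lt_mul hM, ← hd]
      exact hx
    rw [hd]
    exact Nat.mul_le_mul_right _ h1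
  unfold dsl
  rw [nq_smul]
  have h1 := nq_sub_le (K := K) (om ((x / 2 ^ j + 1) * 2 ^ j)) (om (x / 2 ^ j * 2 ^ j))
  have h2 := nq_le (h _ hX)
  have h3 := nq_le (h _ hX')
  rw [mul_comm]
  apply mul_le_mul_of_nonneg_right _ (sq_nonneg _)
  linarith

end node

end H50RC
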