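import Mathlib

/-!
S05864 [H83 RC PAR] (PART C4 of proofs 322): partition of the blocks of cells into intervals with a side. MATHLIB ONLY.

`w x c ≥ 0`, `w x false + w x true = 1` are the weights of the two lines at the cell `x`. Blocks = `{b 2^j, …, (b+1) 2^j - 1}`. `sid w a = true` iff `w a true ≤ 1/2`, so `w a (sid w a) ≤ 1/2`.
`st j w x` = start of the interval containing `x`: a new interval begins at every multiple of `2^j` and as soon as `|w_s(x+1) - w_s(a)| > w_s(a)/2` for the start `a` and its side `s = sid w a`.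
`sd j w x = sid w (st j w x)` = side of the cell `x`. `rx = 1 - s` as a real number (0 if the side is `true`, 1 if the side is `false`).

PROOFS: all by induction on `x` (unfold `st` at `x + 1`, split the `if`).
`st_le`, `st_st`: immediate (`st a = a` is preserved: invariant `st x ≤ x ∧ st (st x) = st x`; if the new value is `x+1` then `st (x+1) = x+1`).
`st_const`: `st x ≤ z ≤ x` implies `st z = st x` (induction on `x`: if `st (x+1) = x+1` then `z = x+1`; otherwise `st (x+1) = st x` and `z = x+1` or the induction hypothesis).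
`not_dvd`: `st x < z ≤ x` implies that `2^j` does not divide `z` (otherwise `st z = z`, but `st z = st x < z`).
`st_mul`: if `2^j ∣ x` then `st x = x` (for `x = 0` too).
`st_succ_of`: if `x + 1` is neither a multiple of `2^j` nor a start then `st (x+1) = st x`.
`w_close`: induction; at a start the difference is `0` and `w_s ≥ 0`. `w_half`: `w a (sid w a) ≤ 1/2`: from `w a false = 1 - w a true`.
`w_sd_le`: `w_s(x) ≤ (3/2)(1/2)`. `w_sd_le4`: `w_(1-s)(x) ≥ 1/4`, so `w_s ≤ 4 w_s w_(1-s)`. `rx_sub`: if the side is `true` then `|0 - w_1| = w_1`, otherwise `|1 - w_1| = w_0`.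
`abs_dw`: `|w x c - w y c| = |w x true - w y true|` for both `c`.
-/

set_option autoImplicit false

namespace H50RC

open Classical in
/-- the side with the smaller weight -/
noncomputable def sid (w : ℕ → Bool → ℝ) (a : ℕ) : Bool := if w a true ≤ 1 / 2 then true else false

open Classical in
/-- start of the interval which contains the cell `x` -/
noncomputable def st (j : ℕ) (w : ℕ → Bool → ℝ) : ℕ → ℕ
  | 0 => 0
  | x + 1 => if 2 ^ j ∣ x + 1 ∨
      w (st j w x) (sid w (st j w x)) / 2 < |w (x + 1) (sid w (st j w x)) - w (st j w x) (sid w (st j w x))| then x + 1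
      else st j w x

/-- side of the cell `x` -/
noncomputable def sd (j : ℕ) (w : ℕ → Bool → ℝ) (x : ℕ) : Bool := sid w (st j w x)

/-- `r_x = 1 - s_x` -/
noncomputable def rx (j : ℕ) (w : ℕ → Bool → ℝ) (x : ℕ) : ℝ := if sd j w x then 0 else 1

/-- cuts: starts which are not multiples of `2^j` -/
def Cut (j : ℕ) (w : ℕ → Bool → ℝ) (x : ℕ) : Prop := st j w x = x ∧ ¬ 2 ^ j ∣ x

variable {j : ℕ} {w : ℕ → Bool → ℝ}

private theorem st_cases (x : ℕ) : st j w (x + 1) = x + 1 ∨ (st j w (x + 1) = st j w x ∧
    ¬ (2 ^ j ∣ x + 1) ∧ |w (x + 1) (sid w (st j w x)) - w (st j w x) (sid w (st j w x))| ≤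
      w (st j w x) (sid w (st j w x)) / 2) := by
  classical
  by_cases h : 2 ^ j ∣ x + 1 ∨ w (st j w x) (sid w (st j w x)) / 2 <
      |w (x + 1) (sid w (st j w x)) - w (st j w x) (sid w (st j w x))|
  · left
    rw [st, if_pos h]
  · right
    refine ⟨by rw [st, if_neg h], fun h' => h (Or.inl h'), not_lt.1 fun h' => h (Or.inr h')⟩

theorem st_le (x : ℕ) : st j w x ≤ x := by
  induction x with
  | zero => exact le_refl 0
  | succ x ih =>
    rcases st_cases (j := j) (w := w) x with h | ⟨h, -⟩
    · rw [h]
    · rw [h]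
      omega

theorem st_st (x : ℕ) : st j w (st j w x) = st j w x := by
  induction x with
  | zero => rfl
  | succ x ih =>
    rcases st_cases (j := j) (w := w) x with h | ⟨h, -⟩
    · rw [h, h]
    · rw [h, ih]

theorem st_const {x z : ℕ} (h1 : st j w x ≤ z) (h2 : z ≤ x) : st j w z = st j w x := by
  induction x with
  | zero =>
    obtain rfl : z = 0 := by omega
    rfl
  | succ x ih =>
    rcases Nat.lt_or_ge x z with h3 | h3
    · obtain rfl : z = x + 1 := by omega
      rfl
    · rcases st_cases (j := j) (w := w) x with h | ⟨h, -⟩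
      · omega
      · rw [h] at h1 ⊢
        exact ih h1 h3

theorem st_mul {x : ℕ} (h : 2 ^ j ∣ x) : st j w x = x := by
  cases x with
  | zero => rfl
  | succ x =>
    rcases st_cases (j := j) (w := w) x with h' | ⟨-, h', -⟩
    · exact h'
    · exact absurd h h'

theorem not_dvd {x z : ℕ} (h1 : st j w x < z) (h2 : z ≤ x) : ¬ 2 ^ j ∣ z := by
  intro h
  have h3 := st_mul (w := w) h
  have h4 := st_const h1.le h2
  omega

theorem st_succ_of {x : ℕ} (h1 : ¬ 2 ^ j ∣ x + 1) (h2 : ¬ Cut j w (x + 1)) : st j w (x + 1) = st j w x := by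
  rcases st_cases (j := j) (w := w) x with h | ⟨h, -⟩
  · exact absurd ⟨h, h1⟩ h2
  · exact h

/-- `x` and its start are in the same block -/
theorem st_block (x : ℕ) : st j w x / 2 ^ j = x / 2 ^ j := by
  apply le_antisymm (Nat.div_le_div_right (st_le x))
  rw [Nat.le_div_iff_mul_le (by positivity)]
  by_contra h
  exact not_dvd (not_le.1 h) (Nat.div_mul_le_self x (2 ^ j)) (Dvd.intro_left _ rfl)

theorem sd_st (x : ℕ) : sd j w (st j w x) = sd j w x := by
  unfold sd
  rw [st_st]

/-- block length one -/
theorem st_zero_exp (x : ℕ) : st 0 w x = x :=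
  st_mul (by rw [pow_zero]; exact one_dvd x)

theorem not_cut_zero_exp (x : ℕ) : ¬ Cut 0 w x := fun h =>
  h.2 (by rw [pow_zero]; exact one_dvd x)

theorem w_half (h1 : ∀ x, w x false + w x true = 1) (a : ℕ) : w a (sid w a) ≤ 1 / 2 := by
  classical
  unfold sid
  have h := h1 a
  split_ifs with h2
  · exact h2
  · rw [not_le] at h2
    linarith

theorem abs_dw (h1 : ∀ x, w x false + w x true = 1) (x y : ℕ) (c : Bool) :
    |w x c - w y c| = |w x true - w y true| := by
  cases c with
  | true => rfl
  | false =>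
    have hx := h1 x
    have hy := h1 y
    have h : w x false - w y false = -(w x true - w y true) := by linarith
    rw [h, abs_neg]

theorem w_close (h0 : ∀ x c, 0 ≤ w x c) (x : ℕ) :
    |w x (sd j w x) - w (st j w x) (sd j w x)| ≤ w (st j w x) (sd j w x) / 2 := by
  cases x with
  | zero =>
    have h : st j w 0 = 0 := rfl
    rw [h, sub_self, abs_zero]
    exact div_nonneg (h0 _ _) (by norm_num)
  | succ x =>
    rcases st_cases (j := j) (w := w) x with h | ⟨h, -, h2⟩
    · rw [h, sub_self, abs_zero]
      exact div_nonneg (h0 _ _) (by norm_num)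
    · unfold sd
      rw [h]
      exact h2

theorem w_sd_le (h0 : ∀ x c, 0 ≤ w x c) (h1 : ∀ x, w x false + w x true = 1) (x : ℕ) : w x (sd j w x) ≤ 3 / 4 := by
  have h2 := abs_le.1 (w_close (j := j) h0 x)
  have h3 : w (st j w x) (sd j w x) ≤ 1 / 2 := w_half h1 (st j w x)
  linarith [h2.2]

theorem w_sd_le4 (h0 : ∀ x c, 0 ≤ w x c) (h1 : ∀ x, w x false + w x true = 1) (x : ℕ) :
    w x (sd j w x) ≤ 4 * (w x false * w x true) := by
  have h2 := w_sd_le (j := j) h0 h1 x
  have h3 := h1 x
  have h4 := h0 x false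
  have h5 := h0 x true
  cases hs : sd j w x with
  | true =>
    rw [hs] at h2
    nlinarith
  | false =>
    rw [hs] at h2
    nlinarith

theorem rx_sub (h0 : ∀ x c, 0 ≤ w x c) (h1 : ∀ x, w x false + w x true = 1) (x : ℕ) :
    |rx j w x - w x true| = w x (sd j w x) := by
  unfold rx
  have h3 := h1 x
  have h4 := h0 x false
  have h5 := h0 x true
  cases hs : sd j w x with
  | true =>
    rw [if_pos rfl, zero_sub, abs_neg, abs_of_nonneg h5]
  | false =>
    rw [if_neg (by simp), abs_of_nonneg (by linarith)]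
    linarith

theorem rx_cases (x : ℕ) : rx j w x = 0 ∨ rx j w x = 1 := by
  unfold rx
  split_ifs
  · exact Or.inl rfl
  · exact Or.inr rfl

end H50RC
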