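import Pool.Agent.H83.RC.Wd

/-!
S05864 [H83 RC PS] (PART C5 of proofs 322): sums over a phase.
-/

set_option autoImplicit false

namespace H50RC

namespace PTr

variable {N K m : ℕ}

/-- the induction principle -/
theorem sum_le (f g : Wd N → ℝ) (U : PTr N → ℝ) (hU : ∀ P : PTr N, P.OK K m → 0 ≤ U P)
    (hloc : ∀ (D : Wd N) (sub : ℕ → Bool → PTr N), (PTr.node D sub).OK K m →
      f D + ∑ x ∈ Finset.range (2 ^ D.d) \ D.ex,
        ((if D.w x false = 0 then 0 else U (sub x false)) + (if D.w x true = 0 then 0 else U (sub x true))) ≤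
        U (.node D sub) + g D) :
    ∀ P : PTr N, P.OK K m → P.sum f ≤ U P + P.sum g := by
  intro P
  induction P with
  | leaf i W ν y =>
    intro h
    simp only [sum, add_zero]
    exact hU _ h
  | node D sub ih =>
    intro h
    simp only [sum]
    have h1 := hloc D sub h
    have h2 : ∑ x ∈ Finset.range (2 ^ D.d) \ D.ex,
        ((if D.w x false = 0 then 0 else (sub x false).sum f) + (if D.w x true = 0 then 0 else (sub x true).sum f)) ≤
        ∑ x ∈ Finset.range (2 ^ D.d) \ D.ex,
          ((if D.w x false = 0 then 0 else U (sub x false)) + (if D.w x true = 0 then 0 else U (sub x true))) +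
        ∑ x ∈ Finset.range (2 ^ D.d) \ D.ex,
          ((if D.w x false = 0 then 0 else (sub x false).sum g) + (if D.w x true = 0 then 0 else (sub x true).sum g)) := by
      rw [← Finset.sum_add_distrib]
      refine Finset.sum_le_sum fun x hx => ?_
      rw [Finset.mem_sdiff, Finset.mem_range] at hx
      have key : ∀ c, (if D.w x c = 0 then 0 else (sub x c).sum f) ≤
          (if D.w x c = 0 then 0 else U (sub x c)) + (if D.w x c = 0 then 0 else (sub x c).sum g) := by
        intro c
        by_cases hc : D.w x c = 0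
        · simp [hc]
        · simp only [if_neg hc]
          exact ih x c (h.2 x hx.1 hx.2 c hc).1
      linarith [key false, key true]
    linarith

theorem sum_add (f g : Wd N → ℝ) (P : PTr N) : P.sum (fun D => f D + g D) = P.sum f + P.sum g := by
  induction P with
  | leaf i W ν y => simp [sum]
  | node D sub ih =>
    simp only [sum]
    have h2 : ∑ x ∈ Finset.range (2 ^ D.d) \ D.ex,
        ((if D.w x false = 0 then 0 else (sub x false).sum (fun D => f D + g D)) +
          (if D.w x true = 0 then 0 else (sub x true).sum (fun D => f D + g D))) =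
        ∑ x ∈ Finset.range (2 ^ D.d) \ D.ex,
          ((if D.w x false = 0 then 0 else (sub x false).sum f) + (if D.w x true = 0 then 0 else (sub x true).sum f)) +
        ∑ x ∈ Finset.range (2 ^ D.d) \ D.ex,
          ((if D.w x false = 0 then 0 else (sub x false).sum g) + (if D.w x true = 0 then 0 else (sub x true).sum g)) := by
      rw [← Finset.sum_add_distrib]
      refine Finset.sum_congr rfl fun x _ => ?_
      have key : ∀ c, (if D.w x c = 0 then 0 else (sub x c).sum (fun D => f D + g D)) =
          (if D.w x c = 0 then 0 else (sub x c).sum f) + (if D.w x c = 0 then 0 else (sub x c).sum g) := by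
        intro c
        by_cases hc : D.w x c = 0
        · simp [hc]
        · simp only [if_neg hc]
          exact ih x c
      rw [key false, key true]
      ring
    rw [h2]
    ring

theorem sum_mul (c : ℝ) (f : Wd N → ℝ) (P : PTr N) : P.sum (fun D => c * f D) = c * P.sum f := by
  induction P with
  | leaf i W ν y => simp [sum]
  | node D sub ih =>
    simp only [sum]
    rw [mul_add, Finset.mul_sum]
    congr 1
    refine Finset.sum_congr rfl fun x _ => ?_
    have key : ∀ b, (if D.w x b = 0 then 0 else (sub x b).sum (fun D => c * f D)) =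
        c * (if D.w x b = 0 then 0 else (sub x b).sum f) := by
      intro b
      by_cases hc : D.w x b = 0
      · simp [hc]
      · simp only [if_neg hc]
        exact ih x b
    rw [key false, key true]
    ring

/-- monotonicity over the windows which satisfy `OK` -/
theorem sum_mono {f g : Wd N → ℝ} (h : ∀ D : Wd N, D.OK K m → f D ≤ g D) : ∀ P : PTr N, P.OK K m → P.sum f ≤ P.sum g := by
  intro P hP
  have := sum_le (K := K) (m := m) f g (fun _ => 0) (fun _ _ => le_rfl) (fun D sub h' => by
    simp only [ite_self, add_zero, Finset.sum_const_zero, zero_add]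
    exact h D h'.1) P hP
  linarith

theorem sum_zero (P : PTr N) : P.sum (fun _ => 0) = 0 := by
  have := sum_mul 0 (fun _ => (0 : ℝ)) P
  simpa using this

theorem sum_nonneg {f : Wd N → ℝ} (h : ∀ D : Wd N, D.OK K m → 0 ≤ f D) {P : PTr N} (hP : P.OK K m) : 0 ≤ P.sum f := by
  have := sum_mono (K := K) (m := m) (f := fun _ => 0) (g := f) h P hP
  rwa [sum_zero] at this

theorem W_nonneg {P : PTr N} (hP : P.OK K m) : 0 ≤ P.W := by
  cases P with
  | leaf i W ν y => exact hP.1.le
  | node D sub => exact hP.1.W_nonneg

theorem ν_BB {P : PTr N} (hP : P.OK K m) : BB K 1 P.ν := by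
  cases P with
  | leaf i W ν y => exact hP.2.1
  | node D sub => exact hP.1.ν_BB

/-- the weights of the children add up to at most the weight -/
theorem sum_child_W {D : Wd N} (h : D.OK K m) (c : ℕ → Bool → ℝ) (c0 : ℝ) (hc : 0 ≤ c0) (hcc : ∀ x b, c x b ≤ c0) :
    ∑ x ∈ Finset.range (2 ^ D.d) \ D.ex, (D.Wx * D.w x false * c x false + D.Wx * D.w x true * c x true) ≤
      D.W * c0 := by
  have hW : 0 ≤ D.Wx := div_nonneg h.W_nonneg (by positivity)
  have h1 : ∀ x ∈ Finset.range (2 ^ D.d) \ D.ex,
      D.Wx * D.w x false * c x false + D.Wx * D.w x true * c x true ≤ D.Wx * c0 := by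
    intro x _
    have e1 := mul_le_mul_of_nonneg_left (hcc x false) (mul_nonneg hW (h.w_nonneg x false))
    have e2 := mul_le_mul_of_nonneg_left (hcc x true) (mul_nonneg hW (h.w_nonneg x true))
    have e3 : D.Wx * c0 = D.Wx * D.w x false * c0 + D.Wx * D.w x true * c0 := by
      have := h.w_sum x
      linear_combination (-(D.Wx * c0)) * this
    linarith
  refine (Finset.sum_le_sum h1).trans ?_
  rw [Finset.sum_const, nsmul_eq_mul]
  have h2 : ((Finset.range (2 ^ D.d) \ D.ex).card : ℝ) ≤ 2 ^ D.d := by
    have := Finset.card_le_card (Finset.sdiff_subset (s := Finset.range (2 ^ D.d)) (t := D.ex))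
    rw [Finset.card_range] at this
    exact_mod_cast this
  have h3 : D.W * c0 = 2 ^ D.d * (D.Wx * c0) := by
    unfold Wd.Wx
    field_simp
  rw [h3]
  exact mul_le_mul_of_nonneg_right h2 (mul_nonneg hW hc)

/-- the windows with `d < J`: at most `J` levels -/
theorem sum_triv_le (J : ℕ) {P : PTr N} (hP : P.OK K m) :
    P.sum (fun D => if J ≤ D.d then 0 else D.W) ≤ J * P.W := by
  have key := sum_le (K := K) (m := m) (fun D : Wd N => if J ≤ D.d then 0 else D.W) (fun _ => 0)
    (fun P => P.W * ((J - P.lv : ℕ) : ℝ)) (fun P hP => mul_nonneg (W_nonneg hP) (Nat.cast_nonneg _)) (by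
      intro D sub h
      have h1 : ∑ x ∈ Finset.range (2 ^ D.d) \ D.ex,
          ((if D.w x false = 0 then 0 else (sub x false).W * ((J - (sub x false).lv : ℕ) : ℝ)) +
            (if D.w x true = 0 then 0 else (sub x true).W * ((J - (sub x true).lv : ℕ) : ℝ))) ≤
          D.W * ((J - (D.lv + 1) : ℕ) : ℝ) := by
        refine le_trans (Finset.sum_le_sum fun x hx => ?_)
          (sum_child_W h.1 (fun _ _ => ((J - (D.lv + 1) : ℕ) : ℝ)) _ (Nat.cast_nonneg _) fun _ _ => le_rfl)
        rw [Finset.mem_sdiff, Finset.mem_range] at hx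
        have e : ∀ c, (if D.w x c = 0 then 0 else (sub x c).W * ((J - (sub x c).lv : ℕ) : ℝ)) =
            D.Wx * D.w x c * ((J - (D.lv + 1) : ℕ) : ℝ) := by
          intro c
          by_cases hc : D.w x c = 0
          · simp [hc]
          · obtain ⟨-, e1, e2, -, -⟩ := h.2 x hx.1 hx.2 c hc
            rw [if_neg hc, e1, e2]
        rw [e false, e true]
      show (if J ≤ D.d then 0 else D.W) + _ ≤ D.W * ((J - D.lv : ℕ) : ℝ) + 0
      have hW := h.1.W_nonneg
      by_cases hJ : J ≤ D.d
      · rw [if_pos hJ]
        have : ((J - (D.lv + 1) : ℕ) : ℝ) ≤ ((J - D.lv : ℕ) : ℝ) := by exact_mod_cast (by omega)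
        have := mul_le_mul_of_nonneg_left this hW
        linarith
      · rw [if_neg hJ]
        have hlv := h.1.lv_le
        have : ((J - (D.lv + 1) : ℕ) : ℝ) + 1 = ((J - D.lv : ℕ) : ℝ) := by
          have : J - (D.lv + 1) + 1 = J - D.lv := by omega
          exact_mod_cast this
        rw [← this]
        linarith [h1]) P hP
  rw [sum_zero, add_zero] at key
  refine key.trans ?_
  rw [mul_comm]
  refine mul_le_mul_of_nonneg_right ?_ (W_nonneg hP)
  exact_mod_cast Nat.sub_le _ _

end PTr

end H50RC
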