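import Pool.Agent.H83.RC.Par

/-!
S05864 [H83 RC TVI] (PART C4 of proofs 322): the cuts and the total variation of the weights. MATHLIB ONLY (and Par.lean).

`tvi j w c = ∑_{st (c-1) < x ≤ c} |w_1(x) - w_1(x-1)|` for a cut `c` (`c ≥ 1` since `2^j ∣ 0`). Let `a = st (c-1)`, `s = sid w a = sd (c-1)`, `T = tvi c`.
By the definition of `st` at `c = (c-1)+1` (the value is `c`, `2^j` does not divide `c`, and `a ≤ c - 1 < c`): `w_s(a)/2 < |w_s(c) - w_s(a)| ≤ T` (telescoping, `abs_dw`, `Finset.sum_Ioc_consecutive`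
or induction; `Finset.abs_sum_le_sum_abs`).
`cut_prev`: `w_s(c-1) ≤ (3/2) w_s(a) ≤ 3T` (`w_close`). `cut_next`: `w_s(c) ≤ w_s(a) + T ≤ 3T`; `s' = sid w c`: if `s' = s` done; otherwise `w_(s')(c) ≤ 1/2` (`w_half`) and `w_s(c) = 1 - w_(s')(c) ≥ 1/2 ≥ w_(s')(c)`.
`cut_next'`: `w_(s')(c-1) ≤ w_(s')(c) + |w_1(c) - w_1(c-1)| ≤ 3T + T`.
`cut_side`: if `s' ≠ s` then `w_s(c) ≥ 1/2` and `w_s(a) ≤ 1/2`; if `w_s(a) ≤ 1/3` then `T ≥ 1/2 - 1/3 = 1/6`, otherwise `T > w_s(a)/2 > 1/6`.
`sum_tvi_le`: the intervals `(st (c-1), c]` of different cuts `c` are disjoint: if `x` is in two of them with `c < c'` then `st (c'-1) < x ≤ c ≤ c' - 1`, so by `st_const` `st c = st (c'-1) < c`, but `st c = c`.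
(`Finset.sum_biUnion` or `Finset.sum_comm'` and counting: every `x` occurs for at most one `c`.)
`rx_change`: for `x` not a multiple of `2^j`: if `x` is no cut then `st x = st (x-1)` (`st_succ_of`) and `rx x = rx (x-1)`; if `x` is a cut and `rx x ≠ rx (x-1)` then the sides are different (`cut_side`) and the term is `1 ≤ 6 tvi x`.
`sum_near_le`: a cell `x` which is a cut has `w_s(x) ≤ 3 tvi x` (`cut_next`), a cell `x` such that `x + 1` is a cut has `w_s(x) ≤ 3 tvi (x+1)` (`cut_prev` with `c = x + 1`); so the sum is at most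
`∑_{cuts c in [1,n)} 3 tvi c + ∑_{cuts c in [1,n)} 3 tvi c`, then `sum_tvi_le`.
-/

set_option autoImplicit false

namespace H50RC

/-- variation of the weights over the interval which ends at the cut `c` (including the step to `c`) -/
noncomputable def tvi (j : ℕ) (w : ℕ → Bool → ℝ) (c : ℕ) : ℝ :=
  ∑ x ∈ Finset.Ioc (st j w (c - 1)) c, |w x true - w (x - 1) true|

variable {j : ℕ} {w : ℕ → Bool → ℝ}

private theorem tel (f : ℕ → ℝ) (a b : ℕ) (h : a ≤ b) :
    |f b - f a| ≤ ∑ x ∈ Finset.Ioc a b, |f x - f (x - 1)| := by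
  induction b, h using Nat.le_induction with
  | base => simp
  | succ b hab ih =>
    have h1 : Finset.Ioc a (b + 1) = insert (b + 1) (Finset.Ioc a b) := by
      ext x
      simp only [Finset.mem_Ioc, Finset.mem_insert]
      omega
    have h2 : b + 1 ∉ Finset.Ioc a b := by
      simp only [Finset.mem_Ioc]
      omega
    rw [h1, Finset.sum_insert h2, Nat.add_sub_cancel]
    have h3 : f (b + 1) - f a = (f (b + 1) - f b) + (f b - f a) := by ring
    rw [h3]
    exact (abs_add_le _ _).trans (add_le_add_right ih _)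

private theorem other_add (h1 : ∀ x, w x false + w x true = 1) (x : ℕ) {c c' : Bool} (h : c' ≠ c) :
    w x c + w x c' = 1 := by
  have h2 := h1 x
  cases c <;> cases c'
  · exact absurd rfl h
  · exact h2
  · rw [add_comm]
    exact h2
  · exact absurd rfl h

theorem tvi_nonneg (c : ℕ) : 0 ≤ tvi j w c := Finset.sum_nonneg fun _ _ => abs_nonneg _

theorem cut_pos {c : ℕ} (hc : Cut j w c) : 1 ≤ c := by
  rcases Nat.eq_zero_or_pos c with h | h
  · exact absurd (h ▸ dvd_zero _) hc.2
  · exact h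

theorem cut_jump (h1 : ∀ x, w x false + w x true = 1) {c : ℕ} (hc : Cut j w c) :
    w (st j w (c - 1)) (sd j w (c - 1)) < 2 * tvi j w c ∧
      |w c (sd j w (c - 1)) - w (st j w (c - 1)) (sd j w (c - 1))| ≤ tvi j w c := by
  classical
  have hc1 := cut_pos hc
  obtain ⟨x, rfl⟩ : ∃ x, c = x + 1 := ⟨c - 1, by omega⟩
  have hx : x + 1 - 1 = x := Nat.add_sub_cancel x 1
  have h2 : |w (x + 1) (sd j w x) - w (st j w x) (sd j w x)| ≤ tvi j w (x + 1) := by
    rw [abs_dw h1]
    have h3 := tel (fun y => w y true) (st j w x) (x + 1) ((st_le x).trans (Nat.le_succ x))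
    unfold tvi
    rw [hx]
    exact h3
  rw [hx]
  refine ⟨?_, h2⟩
  have h4 : st j w (x + 1) = x + 1 := hc.1
  rw [st] at h4
  split_ifs at h4 with h5
  · rcases h5 with h5 | h5
    · exact absurd h5 hc.2
    · have h6 : w (st j w x) (sd j w x) / 2 < |w (x + 1) (sd j w x) - w (st j w x) (sd j w x)| := h5
      linarith
  · have := st_le (j := j) (w := w) x
    omega

theorem cut_prev (h0 : ∀ x c, 0 ≤ w x c) (h1 : ∀ x, w x false + w x true = 1) {c : ℕ} (hc : Cut j w c) :
    w (c - 1) (sd j w (c - 1)) ≤ 3 * tvi j w c := by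
  have h2 := (cut_jump h1 hc).1
  have h3 := w_close h0 (j := j) (w := w) (c - 1)
  have h4 := (abs_le.1 h3).2
  linarith

theorem cut_next (h0 : ∀ x c, 0 ≤ w x c) (h1 : ∀ x, w x false + w x true = 1) {c : ℕ} (hc : Cut j w c) :
    w c (sd j w c) ≤ 3 * tvi j w c := by
  obtain ⟨h2, h3⟩ := cut_jump h1 hc
  have h4 := (abs_le.1 h3).2
  by_cases h : sd j w c = sd j w (c - 1)
  · rw [h]
    linarith
  · have h5 := other_add h1 c h
    have h6 : w c (sd j w c) ≤ 1 / 2 := by
      have h7 : sd j w c = sid w c := by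
        unfold sd
        rw [hc.1]
      rw [h7]
      exact w_half h1 c
    linarith

private theorem step_le {c : ℕ} (hc : Cut j w c) : |w c true - w (c - 1) true| ≤ tvi j w c := by
  have hc1 := cut_pos hc
  have h2 := st_le (j := j) (w := w) (c - 1)
  exact Finset.single_le_sum (f := fun x => |w x true - w (x - 1) true|) (fun _ _ => abs_nonneg _)
    (Finset.mem_Ioc.2 ⟨by omega, le_rfl⟩)

theorem cut_next' (h0 : ∀ x c, 0 ≤ w x c) (h1 : ∀ x, w x false + w x true = 1) {c : ℕ} (hc : Cut j w c) :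
    w (c - 1) (sd j w c) ≤ 4 * tvi j w c := by
  have h2 := cut_next h0 h1 hc
  have h3 := step_le hc
  have h4 := abs_dw h1 c (c - 1) (sd j w c)
  have h5 := (abs_le.1 (le_of_eq h4)).1
  linarith

theorem cut_side (h0 : ∀ x c, 0 ≤ w x c) (h1 : ∀ x, w x false + w x true = 1) {c : ℕ} (hc : Cut j w c)
    (h : sd j w c ≠ sd j w (c - 1)) : 1 ≤ 6 * tvi j w c := by
  obtain ⟨h2, h3⟩ := cut_jump h1 hc
  have h4 := (abs_le.1 h3).2
  have h5 := other_add h1 c h
  have h6 : w c (sd j w c) ≤ 1 / 2 := by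
    have h7 : sd j w c = sid w c := by
      unfold sd
      rw [hc.1]
    rw [h7]
    exact w_half h1 c
  by_cases h8 : w (st j w (c - 1)) (sd j w (c - 1)) ≤ 1 / 3
  · linarith
  · push Not at h8
    linarith

open Classical in
theorem sum_tvi_le (n : ℕ) :
    ∑ c ∈ (Finset.Ico 1 n).filter (fun c => Cut j w c), tvi j w c ≤
      ∑ x ∈ Finset.Ico 1 n, |w x true - w (x - 1) true| := by
  unfold tvi
  rw [← Finset.sum_biUnion]
  · refine Finset.sum_le_sum_of_subset_of_nonneg ?_ (fun _ _ _ => abs_nonneg _)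
    intro x hx
    rw [Finset.mem_biUnion] at hx
    obtain ⟨c, hc, hx⟩ := hx
    rw [Finset.mem_filter, Finset.mem_Ico] at hc
    rw [Finset.mem_Ioc] at hx
    rw [Finset.mem_Ico]
    omega
  · have key : ∀ c c' : ℕ, Cut j w c → Cut j w c' → c < c' →
        Disjoint (Finset.Ioc (st j w (c - 1)) c) (Finset.Ioc (st j w (c' - 1)) c') := by
      intro c c' hc hc' hlt
      rw [Finset.disjoint_left]
      intro x h1 h2
      rw [Finset.mem_Ioc] at h1 h2
      have h3 := st_const (j := j) (w := w) (x := c' - 1) (z := c) (by omega) (by omega)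
      rw [hc.1] at h3
      omega
    intro c hc c' hc' hne
    rw [Finset.mem_coe, Finset.mem_filter] at hc hc'
    rcases lt_or_gt_of_ne hne with h | h
    · exact key c c' hc.2 hc'.2 h
    · exact (key c' c hc'.2 hc.2 h).symm

theorem rx_change (h0 : ∀ x c, 0 ≤ w x c) (h1 : ∀ x, w x false + w x true = 1) (n : ℕ) :
    ∑ x ∈ Finset.Ico 1 n, (if 2 ^ j ∣ x then 0 else (rx j w x - rx j w (x - 1)) ^ 2) ≤
      6 * ∑ x ∈ Finset.Ico 1 n, |w x true - w (x - 1) true| := by
  classical
  have h2 := sum_tvi_le (j := j) (w := w) n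
  have h3 : ∑ x ∈ Finset.Ico 1 n, (if 2 ^ j ∣ x then 0 else (rx j w x - rx j w (x - 1)) ^ 2) ≤
      ∑ x ∈ Finset.Ico 1 n, (if Cut j w x then 6 * tvi j w x else 0) := by
    refine Finset.sum_le_sum fun x hx => ?_
    have hx1 := (Finset.mem_Ico.1 hx).1
    by_cases hd : 2 ^ j ∣ x
    · rw [if_pos hd]
      split_ifs
      · exact mul_nonneg (by norm_num) (tvi_nonneg x)
      · exact le_rfl
    · rw [if_neg hd]
      by_cases hc : Cut j w x
      · rw [if_pos hc]
        by_cases hs : sd j w x = sd j w (x - 1)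
        · have : rx j w x = rx j w (x - 1) := by
            unfold rx
            rw [hs]
          rw [this, sub_self]
          have := tvi_nonneg (j := j) (w := w) x
          nlinarith
        · refine le_trans ?_ (cut_side h0 h1 hc hs)
          rcases rx_cases (j := j) (w := w) x with h | h <;>
            rcases rx_cases (j := j) (w := w) (x - 1) with h' | h' <;> rw [h, h'] <;> norm_num
      · rw [if_neg hc]
        obtain ⟨y, rfl⟩ : ∃ y, x = y + 1 := ⟨x - 1, by omega⟩
        have h4 := st_succ_of hd hc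
        have h5 : rx j w (y + 1) = rx j w (y + 1 - 1) := by
          rw [Nat.add_sub_cancel]
          unfold rx sd
          rw [h4]
        rw [h5, sub_self]
        norm_num
  refine h3.trans ?_
  rw [← Finset.sum_filter, ← Finset.mul_sum]
  exact mul_le_mul_of_nonneg_left h2 (by norm_num)

open Classical in
/-- the cells next to a cut have small weight -/
theorem sum_near_le (h0 : ∀ x c, 0 ≤ w x c) (h1 : ∀ x, w x false + w x true = 1) (n : ℕ) :
    ∑ x ∈ (Finset.range n).filter (fun x => Cut j w x ∨ (x + 1 < n ∧ Cut j w (x + 1))), w x (sd j w x) ≤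
      6 * ∑ x ∈ Finset.Ico 1 n, |w x true - w (x - 1) true| := by
  have h2 := sum_tvi_le (j := j) (w := w) n
  have h3 : ∑ x ∈ (Finset.range n).filter (fun x => Cut j w x ∨ (x + 1 < n ∧ Cut j w (x + 1))),
      w x (sd j w x) ≤ ∑ x ∈ (Finset.range n).filter (fun x => Cut j w x), w x (sd j w x) +
        ∑ x ∈ (Finset.range n).filter (fun x => x + 1 < n ∧ Cut j w (x + 1)), w x (sd j w x) := by
    rw [Finset.filter_or]
    rw [← Finset.sum_union_inter]
    have : 0 ≤ ∑ x ∈ (Finset.range n).filter (fun x => Cut j w x) ∩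
        (Finset.range n).filter (fun x => x + 1 < n ∧ Cut j w (x + 1)), w x (sd j w x) :=
      Finset.sum_nonneg fun x _ => h0 _ _
    linarith
  have h4 : ∑ x ∈ (Finset.range n).filter (fun x => Cut j w x), w x (sd j w x) ≤
      3 * ∑ c ∈ (Finset.Ico 1 n).filter (fun c => Cut j w c), tvi j w c := by
    rw [Finset.mul_sum]
    refine (Finset.sum_le_sum fun x hx => cut_next h0 h1 (Finset.mem_filter.1 hx).2).trans ?_
    refine Finset.sum_le_sum_of_subset_of_nonneg ?_ (fun c _ _ => mul_nonneg (by norm_num) (tvi_nonneg c))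
    intro x hx
    rw [Finset.mem_filter, Finset.mem_range] at hx
    rw [Finset.mem_filter, Finset.mem_Ico]
    exact ⟨⟨cut_pos hx.2, hx.1⟩, hx.2⟩
  have h5 : ∑ x ∈ (Finset.range n).filter (fun x => x + 1 < n ∧ Cut j w (x + 1)), w x (sd j w x) ≤
      3 * ∑ c ∈ (Finset.Ico 1 n).filter (fun c => Cut j w c), tvi j w c := by
    rw [Finset.mul_sum]
    have h6 : ∑ x ∈ (Finset.range n).filter (fun x => x + 1 < n ∧ Cut j w (x + 1)), w x (sd j w x) ≤
        ∑ x ∈ (Finset.range n).filter (fun x => x + 1 < n ∧ Cut j w (x + 1)), 3 * tvi j w (x + 1) := by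
      refine Finset.sum_le_sum fun x hx => ?_
      exact cut_prev h0 h1 (Finset.mem_filter.1 hx).2.2
    refine h6.trans ?_
    rw [← Finset.sum_image (s := (Finset.range n).filter (fun x => x + 1 < n ∧ Cut j w (x + 1)))
      (g := fun x => x + 1) (f := fun c => 3 * tvi j w c) (fun a _ b _ h => Nat.succ_injective h)]
    refine Finset.sum_le_sum_of_subset_of_nonneg ?_ (fun c _ _ => mul_nonneg (by norm_num) (tvi_nonneg c))
    intro c hc
    rw [Finset.mem_image] at hc
    obtain ⟨x, hx, rfl⟩ := hc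
    rw [Finset.mem_filter] at hx
    rw [Finset.mem_filter, Finset.mem_Ico]
    exact ⟨⟨by omega, hx.2.1⟩, hx.2.2⟩
  linarith

end H50RC
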