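import Pool.Agent.H83.RC.Wd
import Pool.Agent.H83.RC.Itp
import Pool.Agent.H83.RC.Tvi

/-!
S05864 [H83 RC RDEF]: definitions for the window term (PART C4 of proofs 322). No gaps.
-/

set_option autoImplicit false

namespace H50RC

variable {N : ℕ}

/-- marks for which the functional `Λ` has its two properties with the constant `C1` -/
def LOK (K m L : ℕ) (ε C1 : ℝ) (M : Finset (Nd N)) (v : Nd N → ℂ) : Prop :=
  (∀ (ω : Om N) (χ : Y N), χ ∈ Xs N K m → Lam K m L ε M v ω χ = pr K m ω χ) ∧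
    ∀ (ω : Om N) (y : Y N), BB K 4 ω → y ∈ Vs N K → |Lam K m L ε M v ω y| ≤ C1 * nr K y

namespace Wd

/-- exponent of the block length: `J` if the window is long, else `0` -/
def jj (D : Wd N) (J : ℕ) : ℕ := if J ≤ D.d then J else 0

/-- `v(x) = w_0(x) w_1(x)` -/
def vv (D : Wd N) (x : ℕ) : ℝ := D.w x false * D.w x true

/-- non-exits -/
def ne (D : Wd N) : Finset ℕ := Finset.range (2 ^ D.d) \ D.ex

/-- reference position `ρ_x = w_1 ω^co + r ω^fi` -/
noncomputable def rho (D : Wd N) (j x : ℕ) : Om N := D.w x true • omc j D.om x + rx j D.w x • omf j D.om x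

/-- reference slopes -/
noncomputable def nuref (D : Wd N) (j x : ℕ) : Om N := D.ν0 x + (D.rho j (x + 1) - D.rho j x)

/-- `Ξ^c_x = ±ψ_x + y^c_(x-1) - y^c_x` -/
def Xi (D : Wd N) (x : ℕ) (c : Bool) : Y N := (if c then D.ψ x else -D.ψ x) + D.y (x - 1) c - D.y x c

/-- sign of a side -/
def sg (c : Bool) : ℝ := if c then 1 else -1

/-- coarse step functional on the cell `x` -/
noncomputable def TC (D : Wd N) (K m L : ℕ) (ε : ℝ) (M : Finset (Nd N)) (v : Nd N → ℂ) (j x : ℕ) (y : Y N) : ℝ :=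
  ((2 : ℝ) ^ j)⁻¹ * (Lam K m L ε M v (D.om ((x / 2 ^ j + 1) * 2 ^ j)) y - Lam K m L ε M v (D.om (x / 2 ^ j * 2 ^ j)) y)

/-- fine step functional on the cell `x` -/
noncomputable def TF (D : Wd N) (K m L : ℕ) (ε : ℝ) (M : Finset (Nd N)) (v : Nd N → ℂ) (j x : ℕ) (y : Y N) : ℝ :=
  Lam K m L ε M v (omf j D.om (x + 1)) y - Lam K m L ε M v (omf j D.om x) y

/-- the non-exits of the interval with the start `a` -/
noncomputable def Iv (D : Wd N) (j a : ℕ) : Finset ℕ := D.ne.filter (fun x => st j D.w x = a)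

/-- mean of the `φ_(x,s)` over the interval with the start `a` -/
noncomputable def phI (D : Wd N) (j a : ℕ) : Y N :=
  (∑ x ∈ D.Iv j a, D.w x (sid D.w a))⁻¹ • ∑ x ∈ D.Iv j a, D.w x (sid D.w a) • D.phc x (sid D.w a)

open Classical in
/-- the non-exits which are not next to a cut -/
noncomputable def far (D : Wd N) (j : ℕ) : Finset ℕ := D.ne.filter (fun x => ¬ Cut j D.w x ∧ ¬ Cut j D.w (x + 1))

/-- the part `G` of the window term (absolute values) -/
noncomputable def gs (D : Wd N) (K m j : ℕ) : ℝ :=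
  D.Wx * dy (fun i k => |pr K m (hd (D.nuref j) i k) (hd D.ph i k)|) D.d 0

/-- the coarse part of the window term -/
noncomputable def cs (D : Wd N) (K m L : ℕ) (ε : ℝ) (M : Finset (Nd N)) (v : Nd N → ℂ) (j : ℕ) : ℝ :=
  D.Wx * ∑ x ∈ D.ne, D.vv x * |D.TC K m L ε M v j x (D.phc x true - D.phc x false)|

/-- the fine part of the window term -/
noncomputable def fs (D : Wd N) (K m L : ℕ) (ε : ℝ) (M : ℕ → Finset (Nd N)) (v : ℕ → Nd N → ℂ) (j : ℕ) : ℝ :=
  D.Wx * ∑ x ∈ D.far j, D.w x (sd j D.w x) *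
    |D.TF K m L ε (M (st j D.w x)) (v (st j D.w x)) j x (D.phc x (sd j D.w x) - D.phI j (st j D.w x))|

/-- the coarse part, without marks -/
noncomputable def dco (D : Wd N) (K m J : ℕ) : ℝ :=
  if J ≤ D.d then |∑ x ∈ Finset.Ico 1 (2 ^ D.d),
    pr K m (omc J D.om x) (D.w x false • D.Xi x true - D.w x true • D.Xi x false)| else 0

/-- the fine part, without marks -/
noncomputable def dfi (D : Wd N) (K m J : ℕ) : ℝ :=
  if J ≤ D.d then |∑ x ∈ Finset.Ico 1 (2 ^ D.d),
    sg (sd J D.w x) * pr K m (omf J D.om x) (D.Xi x (sd J D.w x))| else 0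

open Classical in
/-- the fine functional at the grid point `x` (zero at the cuts) -/
noncomputable def LF (D : Wd N) (K m L : ℕ) (ε : ℝ) (M : ℕ → Finset (Nd N)) (v : ℕ → Nd N → ℂ) (j x : ℕ) (y : Y N) :
    ℝ :=
  if Cut j D.w x then 0 else Lam K m L ε (M (st j D.w x)) (v (st j D.w x)) (omf j D.om x) y

end Wd

end H50RC
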