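import Pool.Agent.H83.RC.Ref

/-!
S05864 [H83 RC WID] (PART C4 of proofs 322): the identity for the window term.

Write `n = 2^d`, `Y x = y x false + y x true`, `om_0 = om_n = 0`, `nu1 x = ν0 x + om (x+1) - om x`.
`abel` is a statement about real sequences: `∑_{x<n} (p (x+1) - q x) = ∑_{1≤x<n} (p x - q x) + p n - q 0` (`Finset.sum_range_succ'`, `Finset.range_eq_Ico`, `Finset.sum_eq_sum_Ico_succ_bot`; or induction on `n`).
`win_eq`. By bilinearity (`pr_add_left`, `pr_add_right`, ...)
`∑_{x<n} (pr (nu x false) (y x false) + pr (nu x true) (y x true)) = ∑_{x<n} pr (ν0 x) (Y x) + ∑_{x<n} pr (om (x+1) - om x) (y x true)`, and by `abel` with `p x = pr (om x) (y (x-1) true)`,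
`q x = pr (om x) (y x true)` (`p n = q 0 = 0`) the last sum is `∑_{1≤x<n} pr (om x) (y (x-1) true - y x true)`. Adding `∑_{1≤x<n} pr (om x) (ψ x)`:
(A) `= ∑_{x<n} pr (ν0 x) (Y x) + ∑_{1≤x<n} pr (om x) (Xi x true)`.
Since `ν0 x = nuref x - (rho (x+1) - rho x)` and `rho 0 = rho n = 0` (`rho_zero`, `rho_last`), `abel` gives
`∑_{x<n} pr (ν0 x) (Y x) = ∑_{x<n} pr (nuref x) (Y x) - ∑_{1≤x<n} pr (rho x) (Y (x-1) - Y x)`.
With `om = omc + omf` and `rho = w_1 omc + r omf`:
`pr (om x) (Xi x true) - pr (rho x) (Y (x-1) - Y x) = pr (omc x) (Xi x true - w_1 (Y (x-1) - Y x)) + pr (omf x) (Xi x true - r (Y (x-1) - Y x))`;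
`Y (x-1) - Y x = Xi x false + Xi x true` (the `ψ` cancel), so the first vector is `(1-w_1) Xi x true - w_1 Xi x false` (`w_sum`), the second one is `Xi x true` if `r = 0` (side `true`), and `-Xi x false` if `r = 1` (side `false`):
exactly `sg s • Xi x s`. Finally `∑ pr (nuref x) (Y x) - pr ν (∑ yt) = ∑ pr (nuref x - ν) (yt x) + ∑ pr (nuref x) (Y x - yt x)` (`pr_sum_right`).
-/

set_option autoImplicit false

namespace H50RC

theorem abel (p q : ℕ → ℝ) {n : ℕ} (hn : 1 ≤ n) :
    ∑ x ∈ Finset.range n, (p (x + 1) - q x) = ∑ x ∈ Finset.Ico 1 n, (p x - q x) + p n - q 0 := by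
  induction n, hn using Nat.le_induction with
  | base => simp
  | succ n hn ih =>
    rw [Finset.sum_range_succ, ih, Finset.sum_Ico_succ_top hn]
    ring

namespace Wd

variable {N K m : ℕ} {D : Wd N}

theorem Xi_add (D : Wd N) (x : ℕ) :
    D.Xi x false + D.Xi x true = (D.y (x - 1) false + D.y (x - 1) true) - (D.y x false + D.y x true) := by
  unfold Xi
  simp only [Bool.false_eq_true, if_false, if_true]
  abel

theorem win_eq (h : D.OK K m) {j : ℕ} (hj : j ≤ D.d) :
    D.win K m = ∑ x ∈ Finset.range (2 ^ D.d), pr K m (D.nuref j x - D.ν) (D.yt x) +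
      ∑ x ∈ Finset.range (2 ^ D.d), pr K m (D.nuref j x) (D.y x false + D.y x true - D.yt x) +
      ∑ x ∈ Finset.Ico 1 (2 ^ D.d), pr K m (omc j D.om x) (D.w x false • D.Xi x true - D.w x true • D.Xi x false) +
      ∑ x ∈ Finset.Ico 1 (2 ^ D.d), sg (sd j D.w x) * pr K m (omf j D.om x) (D.Xi x (sd j D.w x)) := by
  have hn : 1 ≤ 2 ^ D.d := Nat.one_le_two_pow
  -- the first Abel summation
  have hA := abel (fun x => pr K m (D.om x) (D.y (x - 1) true)) (fun x => pr K m (D.om x) (D.y x true)) hn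
  simp only [h.om_last, h.om_zero, pr_zero_left, Nat.add_sub_cancel, add_zero, sub_zero] at hA
  -- the second Abel summation
  have hB := abel (fun x => pr K m (D.rho j x) (D.y (x - 1) false + D.y (x - 1) true))
    (fun x => pr K m (D.rho j x) (D.y x false + D.y x true)) hn
  simp only [rho_last h hj, rho_zero h j, pr_zero_left, Nat.add_sub_cancel, add_zero, sub_zero] at hB
  have hL : D.win K m = ∑ x ∈ Finset.range (2 ^ D.d), pr K m (D.ν0 x) (D.y x false + D.y x true) +
      ∑ x ∈ Finset.range (2 ^ D.d), (pr K m (D.om (x + 1)) (D.y x true) - pr K m (D.om x) (D.y x true)) +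
      ∑ x ∈ Finset.Ico 1 (2 ^ D.d), pr K m (D.om x) (D.ψ x) -
      ∑ x ∈ Finset.range (2 ^ D.d), pr K m D.ν (D.yt x) := by
    unfold win
    rw [pr_sum_right, ← Finset.sum_add_distrib]
    congr 2
    refine Finset.sum_congr rfl fun x _ => ?_
    simp only [nu, nu1, Bool.false_eq_true, if_false, if_true, pr_add_left, pr_sub_left, pr_add_right]
    ring
  have hR : ∑ x ∈ Finset.range (2 ^ D.d), pr K m (D.nuref j x - D.ν) (D.yt x) +
      ∑ x ∈ Finset.range (2 ^ D.d), pr K m (D.nuref j x) (D.y x false + D.y x true - D.yt x) =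
      ∑ x ∈ Finset.range (2 ^ D.d), pr K m (D.ν0 x) (D.y x false + D.y x true) +
      ∑ x ∈ Finset.range (2 ^ D.d), (pr K m (D.rho j (x + 1)) (D.y x false + D.y x true) -
        pr K m (D.rho j x) (D.y x false + D.y x true)) -
      ∑ x ∈ Finset.range (2 ^ D.d), pr K m D.ν (D.yt x) := by
    rw [← Finset.sum_add_distrib, ← Finset.sum_add_distrib, ← Finset.sum_sub_distrib]
    refine Finset.sum_congr rfl fun x _ => ?_
    simp only [nuref, pr_add_left, pr_sub_left, pr_add_right, pr_sub_right]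
    ring
  rw [hL, hR, hA, hB]
  have hT : ∀ x, pr K m (D.om x) (D.y (x - 1) true) - pr K m (D.om x) (D.y x true) +
      pr K m (D.om x) (D.ψ x) =
      (pr K m (D.rho j x) (D.y (x - 1) false + D.y (x - 1) true) -
        pr K m (D.rho j x) (D.y x false + D.y x true)) +
      pr K m (omc j D.om x) (D.w x false • D.Xi x true - D.w x true • D.Xi x false) +
      sg (sd j D.w x) * pr K m (omf j D.om x) (D.Xi x (sd j D.w x)) := by
    intro x
    have e1 : pr K m (D.om x) (D.y (x - 1) true) - pr K m (D.om x) (D.y x true) +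
        pr K m (D.om x) (D.ψ x) = pr K m (D.om x) (D.Xi x true) := by
      unfold Xi
      simp only [if_true, pr_sub_right, pr_add_right]
      ring
    have e2 : pr K m (D.om x) (D.Xi x true) =
        pr K m (omc j D.om x) (D.Xi x true) + pr K m (omf j D.om x) (D.Xi x true) := by
      rw [← pr_add_left, omc_add_omf]
    have hw := h.w_sum x
    rw [e1, e2, ← pr_sub_right, ← Xi_add, rho]
    simp only [pr_add_left, pr_smul_left, pr_add_right, pr_sub_right, pr_smul_right]
    have hw' : D.w x false = 1 - D.w x true := by linarith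
    rw [hw']
    unfold rx
    cases hs : sd j D.w x
    · simp only [Bool.false_eq_true, if_false, sg]
      ring
    · simp only [if_true, sg]
      ring
  have hS := Finset.sum_congr (rfl : Finset.Ico 1 (2 ^ D.d) = Finset.Ico 1 (2 ^ D.d)) fun x _ => hT x
  simp only [Finset.sum_add_distrib] at hS
  linarith

end Wd

end H50RC
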